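import Mathlib

set_option autoImplicit false

namespace Pool.Agent.helper30.NR

open Complex Real Filter Topology MeasureTheory

noncomputable section

/-- the weight denominator `1 - 2 κ x + x ^ 2` -/
def gg (κ x : ℝ) : ℝ := 1 - 2 * κ * x + x ^ 2

/-- the unit circle as the image of the line: `x ↦ ω (x - x₀) / (x - conj x₀)`, `x₀ = κ + i s` -/
def ZZ (ω : ℂ) (κ s : ℝ) (x : ℝ) : ℂ := ω * ((x : ℂ) - (κ + s * Complex.I)) / ((x : ℂ) - (κ - s * Complex.I))

lemma gg_pos {κ s : ℝ} (hs : s ≠ 0) (h1 : κ ^ 2 + s ^ 2 = 1) (x : ℝ) : 0 < gg κ x := by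
  unfold gg
  have : 1 - 2 * κ * x + x ^ 2 = (x - κ) ^ 2 + s ^ 2 := by
    rw [← h1]; ring
  rw [this]
  have := sq_nonneg (x - κ)
  have := pow_pos (abs_pos.2 hs) 2
  rw [sq_abs] at this
  linarith

lemma exp_two_arctan (y : ℝ) : Complex.exp (((2 * Real.arctan y : ℝ) : ℂ) * Complex.I) =
    (1 + y * Complex.I) / (1 - y * Complex.I) := by
  have h1 : (1 - (y:ℂ) * Complex.I) ≠ 0 := by
    intro h
    have := congrArg Complex.re h
    simp at this
  have hpos : (0:ℝ) < 1 + y ^ 2 := by positivity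
  have h2 : Complex.exp (((2 * Real.arctan y : ℝ) : ℂ) * Complex.I) =
      (Complex.exp ((Real.arctan y : ℂ) * Complex.I)) ^ 2 := by
    rw [← Complex.exp_nat_mul]
    congr 1
    push_cast
    ring
  rw [h2, Complex.exp_mul_I, ← Complex.ofReal_cos, ← Complex.ofReal_sin, Real.cos_arctan, Real.sin_arctan]
  have hsq : (((Real.sqrt (1 + y ^ 2) : ℝ)) : ℂ) ^ 2 = 1 + (y:ℂ) ^ 2 := by
    rw [← Complex.ofReal_pow, Real.sq_sqrt hpos.le]
    push_cast
    ring
  have hne : (((Real.sqrt (1 + y ^ 2) : ℝ)) : ℂ) ≠ 0 := by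
    rw [Complex.ofReal_ne_zero]
    exact (Real.sqrt_pos.2 hpos).ne'
  rw [eq_div_iff h1]
  push_cast
  have h3 : (1 / ((Real.sqrt (1 + y ^ 2) : ℝ) : ℂ) + (y:ℂ) / ((Real.sqrt (1 + y ^ 2) : ℝ) : ℂ) * Complex.I) ^ 2 *
      (1 - (y:ℂ) * Complex.I) = (1 + (y:ℂ) * Complex.I) ^ 2 * (1 - (y:ℂ) * Complex.I) /
      (((Real.sqrt (1 + y ^ 2) : ℝ)) : ℂ) ^ 2 := by
    field_simp
  rw [h3, hsq]
  have h4 : (1 + (y:ℂ) ^ 2) ≠ 0 := by
    rw [← hsq]
    exact pow_ne_zero 2 hne
  rw [div_eq_iff h4]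
  have hI : Complex.I ^ 2 = -1 := Complex.I_sq
  linear_combination (-(1 + (y:ℂ) * Complex.I) * (y:ℂ)^2) * hI

theorem circleAverage_eq_line {E : Type*} [NormedAddCommGroup E] [NormedSpace ℝ E]
    (ω : ℂ) (hω : ‖ω‖ = 1) (κ s : ℝ) (hs : s ≠ 0) (h1 : κ ^ 2 + s ^ 2 = 1) (F : ℂ → E) :
    Real.circleAverage F 0 1 = (|s| / Real.pi) • ∫ x : ℝ, (1 / gg κ x) • F (ZZ ω κ s x) := by
  -- the argument of `-ω`
  obtain ⟨η, hη⟩ : ∃ η : ℝ, Complex.exp ((η : ℂ) * Complex.I) = -ω := by
    refine ⟨Complex.arg (-ω), ?_⟩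
    have := Complex.norm_mul_exp_arg_mul_I (-ω)
    rw [norm_neg, hω] at this
    simpa using this
  have hcm : ∀ y : ℝ, circleMap 0 1 (2 * Real.arctan y + η) =
      -ω * ((1 + y * Complex.I) / (1 - y * Complex.I)) := by
    intro y
    simp only [circleMap, zero_add, Complex.ofReal_one, one_mul]
    rw [Complex.ofReal_add, add_mul, Complex.exp_add, exp_two_arctan, hη]
    ring
  rw [Real.circleAverage_eq_integral_add (η - Real.pi)]
  have e1 : ∫ θ in (0:ℝ)..(2 * Real.pi), F (circleMap 0 1 (θ + (η - Real.pi))) =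
      ∫ θ in (-Real.pi)..Real.pi, F (circleMap 0 1 (θ + η)) := by
    have := intervalIntegral.integral_comp_add_right (a := 0) (b := 2 * Real.pi)
      (fun θ => F (circleMap 0 1 (θ + η))) (-Real.pi)
    rw [show (0:ℝ) + -Real.pi = -Real.pi by ring, show 2 * Real.pi + -Real.pi = Real.pi by ring] at this
    rw [← this]
    congr 1
    funext θ
    congr 2
    ring
  have himg : (fun y : ℝ => 2 * Real.arctan y) '' Set.univ = Set.Ioo (-Real.pi) Real.pi := by
    rw [Set.image_univ]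
    ext t
    constructor
    · rintro ⟨y, rfl⟩
      have := Real.neg_pi_div_two_lt_arctan y
      have := Real.arctan_lt_pi_div_two y
      constructor <;> simp only <;> linarith
    · rintro ⟨ht1, ht2⟩
      refine ⟨Real.tan (t / 2), ?_⟩
      simp only
      rw [Real.arctan_tan (by linarith) (by linarith)]
      ring
  have e2 : ∫ θ in (-Real.pi)..Real.pi, F (circleMap 0 1 (θ + η)) =
      ∫ y : ℝ, |2 * (1 / (1 + y ^ 2))| • F (circleMap 0 1 (2 * Real.arctan y + η)) := by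
    rw [intervalIntegral.integral_of_le (by linarith [Real.pi_pos]), integral_Ioc_eq_integral_Ioo, ← himg,
      integral_image_eq_integral_abs_deriv_smul MeasurableSet.univ
        (f := fun y : ℝ => 2 * Real.arctan y) (f' := fun y => 2 * (1 / (1 + y ^ 2)))]
    · rw [Measure.restrict_univ]
    · intro y _
      exact ((Real.hasDerivAt_arctan y).const_mul 2).hasDerivWithinAt
    · intro a _ b _ hab
      simp only at hab
      exact Real.arctan_injective (by linarith)
  rw [e1, e2]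
  -- the affine change of variables
  have e3 : ∫ x : ℝ, (2 * |s| * |s| / gg κ x) • F (ZZ ω κ s x) =
      |s| • ∫ y : ℝ, |2 * (1 / (1 + y ^ 2))| • F (circleMap 0 1 (2 * Real.arctan y + η)) := by
    rw [← Measure.integral_comp_div, ← integral_sub_right_eq_self
      (fun y : ℝ => |2 * (1 / (1 + (y / s) ^ 2))| • F (circleMap 0 1 (2 * Real.arctan (y / s) + η))) κ]
    congr 1
    funext x
    have hss : |s| * |s| = s ^ 2 := by rw [← sq, sq_abs]
    have hg : gg κ x = (x - κ) ^ 2 + s ^ 2 := by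
      unfold gg
      nlinarith
    have h5 : |2 * (1 / (1 + ((x - κ) / s) ^ 2))| = 2 * |s| * |s| / gg κ x := by
      rw [abs_of_pos (by positivity), hg, mul_assoc, hss]
      field_simp
      ring
    rw [h5, hcm]
    congr 2
    unfold ZZ
    push_cast
    have hs' : (s:ℂ) ≠ 0 := by exact_mod_cast hs
    have hI : Complex.I ^ 2 = -1 := Complex.I_sq
    obtain ⟨t, ht⟩ : ∃ t : ℂ, t = ((x:ℂ) - κ) / s := ⟨_, rfl⟩
    have htx : (x:ℂ) - κ = s * t := by rw [ht]; field_simp
    rw [← ht]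
    have hn : (x:ℂ) - (κ + s * Complex.I) = s * (-Complex.I) * (1 + t * Complex.I) := by
      linear_combination htx + (s * t) * hI
    have hd : (x:ℂ) - (κ - s * Complex.I) = s * Complex.I * (1 - t * Complex.I) := by
      linear_combination htx + (s * t) * hI
    rw [hn, hd]
    have hI0 : Complex.I ≠ 0 := Complex.I_ne_zero
    rw [show ω * ((s:ℂ) * -Complex.I * (1 + t * Complex.I)) = (s * Complex.I) * (-ω * (1 + t * Complex.I)) by ring,
      mul_div_mul_left _ _ (mul_ne_zero hs' hI0)]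
    ring
  have habs : |s| ≠ 0 := abs_ne_zero.2 hs
  have e4 : ∫ y : ℝ, |2 * (1 / (1 + y ^ 2))| • F (circleMap 0 1 (2 * Real.arctan y + η)) =
      (2 * |s|) • ∫ x : ℝ, (1 / gg κ x) • F (ZZ ω κ s x) := by
    have h7 : ∫ x : ℝ, (2 * |s| * |s| / gg κ x) • F (ZZ ω κ s x) =
        (2 * |s| * |s|) • ∫ x : ℝ, (1 / gg κ x) • F (ZZ ω κ s x) := by
      rw [← integral_smul]
      congr 1
      funext x
      rw [smul_smul]
      congr 1
      ring
    rw [h7] at e3
    have h8 := congrArg (fun v => (|s|)⁻¹ • v) e3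
    simp only [smul_smul] at h8
    rw [inv_mul_cancel₀ habs, one_smul] at h8
    rw [← h8]
    congr 1
    field_simp
  rw [e4, smul_smul]
  congr 1
  field_simp

end

end Pool.Agent.helper30.NR
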