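import Mathlib
import Pool.Agent.helper30.NR.Line

set_option autoImplicit false

namespace Pool.Agent.helper30.NR

open Finset Filter Topology

noncomputable section

/-- numerator of the quotient -/
def num (κ q u : ℝ) (N : ℕ) (x : ℕ → ℝ) : ℝ :=
  ∑ n ∈ range N, x n * x (n + 1) * (q ^ n / gg κ (u * q ^ n))

/-- denominator of the quotient -/
def den (κ q u : ℝ) (N : ℕ) (x : ℕ → ℝ) : ℝ :=
  ∑ n ∈ range (N + 1), x n ^ 2 * (q ^ n / gg κ (u * q ^ n))

lemma gg_pos' {κ : ℝ} (h : κ ^ 2 < 1) (x : ℝ) : 0 < gg κ x := by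
  unfold gg
  nlinarith [sq_nonneg (x - κ)]

/-- Schur test along an orbit -/
lemma schur (W D x : ℕ → ℝ) (c : ℝ) (hW : ∀ n, 0 < W n) (hD : ∀ n, 0 < D n) (h0 : D 0 ≤ 2)
    (h : ∀ n, D (n + 1) * W (n + 1) + c ^ 2 * W n / D n ≤ 2 * W (n + 1)) (N : ℕ) :
    c * ∑ n ∈ range N, x n * x (n + 1) * W n + D N * W N * x N ^ 2 / 2 ≤
      ∑ n ∈ range (N + 1), x n ^ 2 * W n := by
  induction N with
  | zero =>
    simp
    have := hW 0
    have h2 := sq_nonneg (x 0)
    have h3 : D 0 * (W 0 * x 0 ^ 2) ≤ 2 * (W 0 * x 0 ^ 2) :=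
      mul_le_mul_of_nonneg_right h0 (by positivity)
    linarith
  | succ N ih =>
    rw [sum_range_succ, sum_range_succ (fun n => x n ^ 2 * W n) (N + 1)]
    have hDN := hD N
    have hWN := hW N
    have h1 : c * (x N * x (N + 1) * W N) ≤ D N * W N * x N ^ 2 / 2 +
        c ^ 2 * W N / D N * x (N + 1) ^ 2 / 2 := by
      have h2 : 0 ≤ W N / D N * (D N * x N - c * x (N + 1)) ^ 2 / 2 := by positivity
      have h3 : W N / D N * (D N * x N - c * x (N + 1)) ^ 2 / 2 =
          D N * W N * x N ^ 2 / 2 + c ^ 2 * W N / D N * x (N + 1) ^ 2 / 2 -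
          c * (x N * x (N + 1) * W N) := by
        field_simp
        ring
      linarith
    have h4 := mul_le_mul_of_nonneg_right (h N) (sq_nonneg (x (N + 1)))
    linarith

lemma num_le_den_of_schur {κ q u : ℝ} (hκ : κ ^ 2 < 1) (hq : 0 < q) (D : ℕ → ℝ)
    (hD : ∀ n, 0 < D n) (h0 : D 0 ≤ 2)
    (h : ∀ n, D (n + 1) / gg κ (u * q ^ (n + 1)) + 1 / (gg κ (u * q ^ n) * D n) ≤
      2 / gg κ (u * q ^ (n + 1))) (N : ℕ) (x : ℕ → ℝ) :
    Real.sqrt q * num κ q u N x ≤ den κ q u N x := by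
  have hW : ∀ n, 0 < q ^ n / gg κ (u * q ^ n) := fun n => div_pos (pow_pos hq n) (gg_pos' hκ _)
  have := schur (fun n => q ^ n / gg κ (u * q ^ n)) D x (Real.sqrt q) hW hD h0 (by
    intro n
    rw [Real.sq_sqrt hq.le]
    have h1 := mul_le_mul_of_nonneg_left (h n) (pow_pos hq (n + 1)).le
    have hg := gg_pos' hκ (u * q ^ n)
    have hDn := hD n
    calc D (n + 1) * (q ^ (n + 1) / gg κ (u * q ^ (n + 1))) + q * (q ^ n / gg κ (u * q ^ n)) / D n
        = q ^ (n + 1) * (D (n + 1) / gg κ (u * q ^ (n + 1)) + 1 / (gg κ (u * q ^ n) * D n)) := by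
          rw [pow_succ]
          field_simp
      _ ≤ q ^ (n + 1) * (2 / gg κ (u * q ^ (n + 1))) := h1
      _ = _ := by ring) N
  unfold num den
  have h2 : 0 ≤ D N * (q ^ N / gg κ (u * q ^ N)) * x N ^ 2 / 2 := by
    have := hD N
    have := hW N
    positivity
  linarith

/-- closed form region: the supersolution `D (y) = (1 + q y ^ 2) / g (y)` -/
theorem num_le_den_region {κ q u : ℝ} (hq : 0 < q) (hq1 : q < 1) (h : 2 * κ ^ 2 ≤ 1 - q)
    (N : ℕ) (x : ℕ → ℝ) : Real.sqrt q * num κ q u N x ≤ den κ q u N x := by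
  have hκ : κ ^ 2 < 1 := by nlinarith
  have key : ∀ y : ℝ, (1 + q * y ^ 2) / gg κ y + gg κ y / (1 + y ^ 2 / q) ≤ 2 := by
    intro y
    have hg := gg_pos' hκ y
    have h1 : 0 < 1 + y ^ 2 / q := by positivity
    rw [div_add_div _ _ hg.ne' h1.ne', div_le_iff₀ (by positivity)]
    -- polynomial inequality
    have h2 : 0 ≤ y ^ 2 * (((1 - q ^ 2) / q - 4 * κ ^ 2) - 4 * κ * ((1 - q) / q) * y +
        2 * ((1 - q) / q) * y ^ 2) := by
      apply mul_nonneg (sq_nonneg y)
      have hp : 0 < (1 - q) / q := div_pos (by linarith) hq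
      -- complete the square
      have h3 : ((1 - q ^ 2) / q - 4 * κ ^ 2) - 4 * κ * ((1 - q) / q) * y + 2 * ((1 - q) / q) * y ^ 2 =
          2 * ((1 - q) / q) * (y - κ) ^ 2 + ((1 + q) / q) * ((1 - q) - 2 * κ ^ 2) := by
        field_simp
        ring
      rw [h3]
      have h4 : 0 ≤ (1 - q) - 2 * κ ^ 2 := by linarith
      positivity
    have h5 : 2 * (gg κ y * (1 + y ^ 2 / q)) - ((1 + q * y ^ 2) * (1 + y ^ 2 / q) + gg κ y * gg κ y) =
        y ^ 2 * (((1 - q ^ 2) / q - 4 * κ ^ 2) - 4 * κ * ((1 - q) / q) * y +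
        2 * ((1 - q) / q) * y ^ 2) := by
      unfold gg
      field_simp
      ring
    linarith
  have keyD : ∀ y : ℝ, (1 + q * y ^ 2) / gg κ y ≤ 2 := by
    intro y
    have hg := gg_pos' hκ y
    have h1 : 0 < 1 + y ^ 2 / q := by positivity
    have h2 : 0 < gg κ y / (1 + y ^ 2 / q) := by positivity
    linarith [key y]
  apply num_le_den_of_schur hκ hq (fun n => (1 + q * (u * q ^ n) ^ 2) / gg κ (u * q ^ n))
  · intro n
    have := gg_pos' hκ (u * q ^ n)
    positivity
  · exact keyD _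
  · intro n
    have hg := gg_pos' hκ (u * q ^ n)
    have hg1 := gg_pos' hκ (u * q ^ (n + 1))
    have h1 := key (u * q ^ (n + 1))
    have h2 : (u * q ^ (n + 1)) ^ 2 / q = q * (u * q ^ n) ^ 2 := by
      field_simp
      ring
    rw [h2] at h1
    have h3 : gg κ (u * q ^ n) * ((1 + q * (u * q ^ n) ^ 2) / gg κ (u * q ^ n)) =
        1 + q * (u * q ^ n) ^ 2 := by
      field_simp
    rw [h3]
    have h4 : 0 < 1 + q * (u * q ^ n) ^ 2 := by positivity
    have h5 := div_le_div_of_nonneg_right h1 hg1.le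
    calc (1 + q * (u * q ^ (n + 1)) ^ 2) / gg κ (u * q ^ (n + 1)) / gg κ (u * q ^ (n + 1)) +
        1 / (1 + q * (u * q ^ n) ^ 2)
        = ((1 + q * (u * q ^ (n + 1)) ^ 2) / gg κ (u * q ^ (n + 1)) +
          gg κ (u * q ^ (n + 1)) / (1 + q * (u * q ^ n) ^ 2)) / gg κ (u * q ^ (n + 1)) := by
          field_simp
      _ ≤ _ := h5

/-- the other half line -/
theorem num_le_den_neg {κ q u : ℝ} (hκ : κ ^ 2 < 1) (hq : 0 < q) (hq1 : q < 1) (hκu : κ * u ≤ 0)
    (N : ℕ) (x : ℕ → ℝ) : Real.sqrt q * num κ q u N x ≤ den κ q u N x := by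
  apply num_le_den_of_schur hκ hq (fun _ => 1) (fun _ => one_pos) one_le_two
  intro n
  have hg := gg_pos' hκ (u * q ^ n)
  have hg1 := gg_pos' hκ (u * q ^ (n + 1))
  have hle : gg κ (u * q ^ (n + 1)) ≤ gg κ (u * q ^ n) := by
    unfold gg
    have hqn : 0 < q ^ n := pow_pos hq n
    have h1 : (u * q ^ (n + 1)) ^ 2 ≤ (u * q ^ n) ^ 2 := by
      rw [mul_pow, mul_pow]
      apply mul_le_mul_of_nonneg_left _ (sq_nonneg u)
      apply pow_le_pow_left₀ (by positivity)
      rw [pow_succ]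
      nlinarith
    have h2 : κ * (u * q ^ n) ≤ κ * (u * q ^ (n + 1)) := by
      rw [pow_succ]
      have : κ * u * q ^ n ≤ κ * u * (q ^ n * q) := by
        have h3 : q ^ n * q ≤ q ^ n := by nlinarith
        exact mul_le_mul_of_nonpos_left h3 hκu
      linarith
    linarith
  rw [mul_one]
  have := one_div_le_one_div_of_le hg1 hle
  have h4 : 2 / gg κ (u * q ^ (n + 1)) = 1 / gg κ (u * q ^ (n + 1)) + 1 / gg κ (u * q ^ (n + 1)) := by ring
  rw [h4]
  linarith

lemma continuous_gg (κ : ℝ) : Continuous (gg κ) := by unfold gg; fun_prop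

/-- lower bound `q ^ (-1/2)` for every bound of the quotients -/
theorem le_of_bound {κ q lam : ℝ} (hκ : κ ^ 2 < 1) (hq : 0 < q)
    (h : ∀ u > 0, ∀ N x, num κ q u N x ≤ lam * den κ q u N x) : 1 ≤ Real.sqrt q * lam := by
  have hsq : 0 < Real.sqrt q := Real.sqrt_pos.2 hq
  have hss : Real.sqrt q * Real.sqrt q = q := Real.mul_self_sqrt hq.le
  -- for each `N`
  have h1 : ∀ N : ℕ, (N : ℝ) / Real.sqrt q ≤ lam * ((N : ℝ) + 1) := by
    intro N
    set x : ℕ → ℝ := fun n => 1 / Real.sqrt q ^ n with hx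
    have hqn : ∀ n : ℕ, q ^ n = Real.sqrt q ^ n * Real.sqrt q ^ n := by
      intro n
      rw [← mul_pow, hss]
    have hxx : ∀ n, x n * x (n + 1) * q ^ n = 1 / Real.sqrt q := by
      intro n
      simp only [hx]
      rw [hqn, pow_succ]
      have := pow_pos hsq n
      field_simp
    have hx2 : ∀ n, x n ^ 2 * q ^ n = 1 := by
      intro n
      simp only [hx]
      rw [hqn]
      have := pow_pos hsq n
      field_simp
    have hnum : ∀ u, num κ q u N x = ∑ n ∈ range N, (1 / Real.sqrt q) / gg κ (u * q ^ n) := by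
      intro u
      unfold num
      apply sum_congr rfl
      intro n _
      rw [← hxx n]
      ring
    have hden : ∀ u, den κ q u N x = ∑ n ∈ range (N + 1), 1 / gg κ (u * q ^ n) := by
      intro u
      unfold den
      apply sum_congr rfl
      intro n _
      rw [← hx2 n]
      ring
    have hc : ∀ (c : ℝ) (n : ℕ), Tendsto (fun u : ℝ => c / gg κ (u * q ^ n)) (𝓝[>] 0) (𝓝 c) := by
      intro c n
      have h2 : ContinuousAt (fun u : ℝ => c / gg κ (u * q ^ n)) 0 := by
        apply ContinuousAt.div continuousAt_const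
        · exact ((continuous_gg κ).comp (continuous_id.mul continuous_const)).continuousAt
        · exact (gg_pos' hκ _).ne'
      have h3 := h2.tendsto
      simp only [zero_mul] at h3
      have h4 : gg κ 0 = 1 := by simp [gg]
      rw [h4, div_one] at h3
      exact h3.mono_left nhdsWithin_le_nhds
    have h5 : Tendsto (fun u => num κ q u N x) (𝓝[>] 0) (𝓝 (∑ n ∈ range N, 1 / Real.sqrt q)) := by
      simp_rw [hnum]
      exact tendsto_finsetSum _ fun n _ => hc _ n
    have h6 : Tendsto (fun u => lam * den κ q u N x) (𝓝[>] 0) (𝓝 (lam * ∑ n ∈ range (N + 1), 1)) := by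
      simp_rw [hden]
      exact (tendsto_finsetSum _ fun n _ => hc _ n).const_mul lam
    have h7 := le_of_tendsto_of_tendsto h5 h6 (by
      filter_upwards [self_mem_nhdsWithin] with u hu using h u hu N x)
    simp at h7
    rw [div_eq_mul_inv]
    exact h7
  -- let `N → ∞`
  have h2 : 1 / Real.sqrt q ≤ lam := by
    have h3 : Tendsto (fun N : ℕ => (1 / Real.sqrt q) * ((N : ℝ) / ((N : ℝ) + 1))) atTop
        (𝓝 ((1 / Real.sqrt q) * 1)) := by
      apply Tendsto.const_mul
      exact tendsto_natCast_div_add_atTop 1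
    rw [mul_one] at h3
    refine le_of_tendsto h3 (Eventually.of_forall fun N => ?_)
    have h4 := h1 N
    have h5 : (0:ℝ) < (N:ℝ) + 1 := by positivity
    rw [← mul_div_assoc, div_le_iff₀ h5]
    calc 1 / Real.sqrt q * (N:ℝ) = (N:ℝ) / Real.sqrt q := by ring
      _ ≤ _ := h4
  rw [div_le_iff₀ hsq] at h2
  linarith

/-- strictness above the threshold `κ ^ 2 = 1 / 2` -/
theorem exists_strict {κ q : ℝ} (h0 : 0 ≤ κ) (h1 : κ ^ 2 < 1) (h2 : 1 / 2 < κ ^ 2) (hq : 0 < q)
    (hq1 : q < 1) : ∃ u > 0, ∃ N x, 0 < den κ q u N x ∧ den κ q u N x < Real.sqrt q * num κ q u N x := by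
  have hκ0 : 0 < κ := by
    rcases h0.lt_or_eq with h | h
    · exact h
    · rw [← h] at h2; norm_num at h2
  have hκ1 : κ < 1 := by nlinarith
  have hsq : 0 < Real.sqrt q := Real.sqrt_pos.2 hq
  have hss : Real.sqrt q * Real.sqrt q = q := Real.mul_self_sqrt hq.le
  have hqn : ∀ n : ℕ, q ^ n = Real.sqrt q ^ n * Real.sqrt q ^ n := by
    intro n
    rw [← mul_pow, hss]
  set ω : ℕ → ℝ := fun n => 1 / gg κ (κ * q ^ n) with hω
  have hωpos : ∀ n, 0 < ω n := fun n => one_div_pos.2 (gg_pos' h1 _)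
  have hω0 : ω 0 = 1 / (1 - κ ^ 2) := by
    simp only [hω, pow_zero, mul_one, gg]
    congr 1
    ring
  have hpos : 0 < 1 - κ ^ 2 := by linarith
  have hω1 : ∀ m, ω (m + 1) ≤ 1 + 2 / (1 - κ ^ 2) * q ^ m := by
    intro m
    have hg := gg_pos' h1 (κ * q ^ (m + 1))
    have hgl : 1 - κ ^ 2 ≤ gg κ (κ * q ^ (m + 1)) := by
      unfold gg
      nlinarith [sq_nonneg (κ * q ^ (m + 1) - κ)]
    have hqm : 0 < q ^ m := pow_pos hq m
    have hy : κ * q ^ (m + 1) ≤ q ^ m := by
      rw [pow_succ]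
      have : κ * (q ^ m * q) = (κ * q) * q ^ m := by ring
      rw [this]
      have h3 : κ * q ≤ 1 := by nlinarith
      nlinarith
    have h3 : ω (m + 1) - 1 = (1 - gg κ (κ * q ^ (m + 1))) / gg κ (κ * q ^ (m + 1)) := by
      simp only [hω]
      field_simp
    have h4 : (1 - gg κ (κ * q ^ (m + 1))) / gg κ (κ * q ^ (m + 1)) ≤ (2 * q ^ m) / (1 - κ ^ 2) := by
      have h5 : 1 - gg κ (κ * q ^ (m + 1)) ≤ 2 * q ^ m := by
        unfold gg
        have h6 : 0 < κ * q ^ (m + 1) := by positivity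
        nlinarith [sq_nonneg (κ * q ^ (m + 1))]
      calc (1 - gg κ (κ * q ^ (m + 1))) / gg κ (κ * q ^ (m + 1))
          ≤ (2 * q ^ m) / gg κ (κ * q ^ (m + 1)) := div_le_div_of_nonneg_right h5 hg.le
        _ ≤ _ := div_le_div_of_nonneg_left (by positivity) hpos hgl
    have h7 : (2 * q ^ m) / (1 - κ ^ 2) = 2 / (1 - κ ^ 2) * q ^ m := by ring
    linarith
  -- choice of `K`
  set C : ℝ := 2 / (1 - κ ^ 2) * (1 / (1 - q)) with hC
  have hCpos : 0 ≤ C := by
    have : 0 < 1 - q := by linarith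
    positivity
  have hgap : 0 < ω 0 / 4 - 1 / 2 := by
    rw [hω0]
    have : 2 < 1 / (1 - κ ^ 2) := by
      rw [lt_div_iff₀ hpos]
      linarith
    linarith
  obtain ⟨K, hK⟩ := exists_nat_gt ((1 / 2 + C) / (ω 0 / 4 - 1 / 2))
  have hKpos : (0:ℝ) < K := lt_of_le_of_lt (by positivity) hK
  have hK2 : (1 / 2 + C) / K < ω 0 / 4 - 1 / 2 := by
    rw [div_lt_iff₀ hgap] at hK
    rw [div_lt_iff₀ hKpos]
    linarith
  set v : ℕ → ℝ := fun n => if n = 0 then 1 / 2 else 1 - ((n : ℝ) - 1) / K with hv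
  have hv0 : v 0 = 1 / 2 := by simp [hv]
  have hv1 : ∀ m : ℕ, v (m + 1) = 1 - (m : ℝ) / K := by
    intro m
    simp [hv]
  set x : ℕ → ℝ := fun n => v n / Real.sqrt q ^ n with hx
  refine ⟨κ, hκ0, K + 1, x, ?_, ?_⟩
  · unfold den
    apply sum_pos'
    · intro n _
      have := gg_pos' h1 (κ * q ^ n)
      positivity
    · refine ⟨0, by simp, ?_⟩
      have := gg_pos' h1 (κ * q ^ 0)
      simp only [hx, hv0, pow_zero, div_one]
      positivity
  · have hnum : Real.sqrt q * num κ q κ (K + 1) x = ∑ n ∈ range (K + 1), v n * v (n + 1) * ω n := by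
      unfold num
      rw [mul_sum]
      apply sum_congr rfl
      intro n _
      simp only [hx, hω]
      rw [hqn n, pow_succ]
      have := pow_pos hsq n
      have hg := gg_pos' h1 (κ * (Real.sqrt q ^ n * Real.sqrt q ^ n))
      field_simp
    have hden : den κ q κ (K + 1) x = ∑ n ∈ range (K + 2), v n ^ 2 * ω n := by
      unfold den
      apply sum_congr rfl
      intro n _
      simp only [hx, hω]
      rw [hqn n]
      have := pow_pos hsq n
      have hg := gg_pos' h1 (κ * (Real.sqrt q ^ n * Real.sqrt q ^ n))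
      field_simp
    rw [hnum, hden, sum_range_succ (fun n => v n ^ 2 * ω n) (K + 1)]
    have hlast : v (K + 1) = 0 := by
      rw [hv1, div_self hKpos.ne', sub_self]
    rw [hlast]
    have hdiff : ∑ n ∈ range (K + 1), v n * v (n + 1) * ω n - ∑ n ∈ range (K + 1), v n ^ 2 * ω n =
        ω 0 / 4 - ∑ m ∈ range K, (1 - (m : ℝ) / K) * ω (m + 1) / K := by
      rw [← sum_sub_distrib, sum_range_succ']
      rw [hv0, hv1 0]
      have h8 : ∑ m ∈ range K, (v (m + 1) * v (m + 1 + 1) * ω (m + 1) - v (m + 1) ^ 2 * ω (m + 1)) =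
          - ∑ m ∈ range K, (1 - (m : ℝ) / K) * ω (m + 1) / K := by
        rw [← sum_neg_distrib]
        apply sum_congr rfl
        intro m _
        rw [hv1 m, hv1 (m + 1)]
        push_cast
        field_simp
        ring
      rw [h8]
      norm_num
      ring
    have hsum : ∑ m ∈ range K, (1 - (m : ℝ) / K) * ω (m + 1) / K ≤ 1 / 2 + (1 / 2 + C) / K := by
      have h9 : ∀ m ∈ range K, (1 - (m : ℝ) / K) * ω (m + 1) / K ≤
          (1 - (m : ℝ) / K) / K + (2 / (1 - κ ^ 2) / K) * q ^ m := by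
        intro m hm
        have hmK : (m : ℝ) ≤ K := by exact_mod_cast (mem_range.1 hm).le
        have h10 : 0 ≤ 1 - (m : ℝ) / K := by
          rw [sub_nonneg, div_le_one hKpos]
          exact hmK
        have h11 : 1 - (m : ℝ) / K ≤ 1 := by
          have : 0 ≤ (m:ℝ) / K := by positivity
          linarith
        have h12 := mul_le_mul_of_nonneg_left (hω1 m) h10
        have h13 : 0 ≤ 2 / (1 - κ ^ 2) * q ^ m := by positivity
        have h14 : (1 - (m : ℝ) / K) * (2 / (1 - κ ^ 2) * q ^ m) ≤ 2 / (1 - κ ^ 2) * q ^ m := by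
          nlinarith
        calc (1 - (m : ℝ) / K) * ω (m + 1) / K
            ≤ ((1 - (m : ℝ) / K) + 2 / (1 - κ ^ 2) * q ^ m) / K := by
              apply div_le_div_of_nonneg_right _ hKpos.le
              linarith
          _ = _ := by ring
      refine (sum_le_sum h9).trans ?_
      rw [sum_add_distrib, ← mul_sum]
      have h15 : ∑ m ∈ range K, (1 - (m : ℝ) / K) / K = 1 / 2 + (1 / 2) / K := by
        have h16 : ∀ m : ℕ, (1 - (m : ℝ) / K) / K = 1 / K - (1 / (K:ℝ) ^ 2) * m := by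
          intro m
          field_simp
        simp_rw [h16]
        rw [sum_sub_distrib, ← mul_sum, sum_const, card_range]
        have h17 : (∑ m ∈ range K, (m : ℝ)) = K * (K - 1) / 2 := by
          have := Finset.sum_range_id_mul_two K
          have h18 : ((∑ i ∈ range K, i : ℕ) : ℝ) * 2 = (K : ℝ) * ((K : ℝ) - 1) := by
            have hK1 : 1 ≤ K := by
              have : (0:ℝ) < (K:ℝ) := hKpos
              exact_mod_cast this
            have h19 : ((∑ i ∈ range K, i : ℕ) : ℝ) * 2 = ((K * (K - 1) : ℕ) : ℝ) := by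
              exact_mod_cast this
            rw [h19, Nat.cast_mul, Nat.cast_sub hK1, Nat.cast_one]
          push_cast at h18
          linarith
        rw [h17, nsmul_eq_mul]
        field_simp
        ring
      have h20 : ∑ m ∈ range K, q ^ m ≤ 1 / (1 - q) := by
        have h21 := (hasSum_geometric_of_lt_one hq.le hq1)
        have h22 := sum_le_hasSum (range K) (fun m _ => (pow_pos hq m).le) h21
        rw [one_div]
        exact h22
      have h23 : 2 / (1 - κ ^ 2) / K * ∑ m ∈ range K, q ^ m ≤ 2 / (1 - κ ^ 2) / K * (1 / (1 - q)) :=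
        mul_le_mul_of_nonneg_left h20 (by positivity)
      have h24 : 2 / (1 - κ ^ 2) / K * (1 / (1 - q)) = C / K := by
        simp only [hC]
        ring
      rw [h15]
      have h25 : (1 / 2 + C) / (K:ℝ) = (1 / 2) / K + C / K := by ring
      linarith
    have : (0:ℝ) ^ 2 * ω (K + 1) = 0 := by ring
    rw [this]
    linarith

end

end Pool.Agent.helper30.NR
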