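import Mathlib
import Pool.Agent.helper30.NR.Jacobi

set_option autoImplicit false

namespace Pool.Agent.helper30.NR

open Finset Filter Topology MeasureTheory

noncomputable section

lemma gg_lower {κ : ℝ} (_h : κ ^ 2 < 1) (x : ℝ) : (1 - |κ|) * (1 + x ^ 2) ≤ gg κ x := by
  unfold gg
  have h1 : κ * x ≤ |κ| * |x| := by
    rw [← abs_mul]; exact le_abs_self _
  have h2 : 2 * |x| ≤ 1 + x ^ 2 := by
    nlinarith [sq_nonneg (|x| - 1), sq_abs x]
  have h3 : 0 ≤ |κ| := abs_nonneg κ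
  nlinarith [mul_le_mul_of_nonneg_left h2 h3]

lemma gg_upper (κ : ℝ) (x : ℝ) : gg κ x ≤ (1 + |κ|) * (1 + x ^ 2) := by
  unfold gg
  have h1 : -(κ * x) ≤ |κ| * |x| := by
    rw [← abs_mul]; exact neg_le_abs _
  have h2 : 2 * |x| ≤ 1 + x ^ 2 := by
    nlinarith [sq_nonneg (|x| - 1), sq_abs x]
  have h3 : 0 ≤ |κ| := abs_nonneg κ
  nlinarith [mul_le_mul_of_nonneg_left h2 h3]

lemma abs_lt_one' {κ : ℝ} (h : κ ^ 2 < 1) : |κ| < 1 := by
  rw [← sq_abs] at h
  nlinarith [abs_nonneg κ]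

lemma continuous_inv_gg {κ : ℝ} (h : κ ^ 2 < 1) : Continuous (fun x => 1 / gg κ x) :=
  continuous_const.div (continuous_gg κ) fun x => (gg_pos' h x).ne'

lemma integrable_inv_gg {κ : ℝ} (h : κ ^ 2 < 1) : Integrable (fun x => 1 / gg κ x) := by
  have h1 := abs_lt_one' h
  have h2 : Integrable (fun x : ℝ => (1 - |κ|)⁻¹ * (1 + x ^ 2)⁻¹) :=
    integrable_inv_one_add_sq.const_mul _
  refine h2.mono' (continuous_inv_gg h).aestronglyMeasurable (Eventually.of_forall fun x => ?_)
  have h3 := gg_lower h x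
  have h4 := gg_pos' h x
  rw [Real.norm_of_nonneg (by positivity), ← mul_inv, one_div]
  have h5 : 0 < (1 - |κ|) * (1 + x ^ 2) := by
    have : 0 < 1 - |κ| := by linarith
    positivity
  exact inv_anti₀ h5 h3

lemma integrable_bdd {κ : ℝ} (h : κ ^ 2 < 1) {G : ℝ → ℝ} (hG : Continuous G) {M : ℝ}
    (hM : ∀ x, |G x| ≤ M) : Integrable (fun x => G x * (1 / gg κ x)) := by
  refine (integrable_inv_gg h).bdd_mul (c := M) hG.aestronglyMeasurable ?_
  exact Eventually.of_forall fun x => by rw [Real.norm_eq_abs]; exact hM x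

lemma integral_scale {κ q : ℝ} (hq : 0 < q) (G : ℝ → ℝ) (n : ℕ) :
    ∫ u : ℝ, G (u * q ^ n) * (q ^ n / gg κ (u * q ^ n)) = ∫ x : ℝ, G x * (1 / gg κ x) := by
  have hqn : 0 < q ^ n := pow_pos hq n
  have h1 := Measure.integral_comp_mul_right (fun x => G x * (1 / gg κ x)) (q ^ n)
  rw [abs_of_pos (inv_pos.2 hqn), smul_eq_mul] at h1
  have h2 : ∀ u : ℝ, G (u * q ^ n) * (q ^ n / gg κ (u * q ^ n)) =
      q ^ n * (G (u * q ^ n) * (1 / gg κ (u * q ^ n))) := by
    intro u; ring
  simp_rw [h2]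
  rw [integral_const_mul, h1]
  field_simp

lemma integrable_scale {κ q : ℝ} (hq : 0 < q) {G : ℝ → ℝ} (hG : Integrable (fun x => G x * (1 / gg κ x)))
    (n : ℕ) : Integrable (fun u : ℝ => G (u * q ^ n) * (q ^ n / gg κ (u * q ^ n))) := by
  have hqn : 0 < q ^ n := pow_pos hq n
  have h1 := (hG.comp_mul_right' hqn.ne').const_mul (q ^ n)
  refine h1.congr (Eventually.of_forall fun u => ?_)
  simp only
  ring

lemma den_nonneg {κ q u : ℝ} (h : κ ^ 2 < 1) (hq : 0 < q) (N : ℕ) (x : ℕ → ℝ) :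
    0 ≤ den κ q u N x := by
  unfold den
  apply sum_nonneg
  intro n _
  have := gg_pos' h (u * q ^ n)
  positivity

/-- the orbit inequality for all `u` -/
lemma num_le_all {κ q lam : ℝ} (hκ0 : 0 ≤ κ) (hκ : κ ^ 2 < 1) (hq : 0 < q) (hq1 : q < 1)
    (h : ∀ u > 0, ∀ N x, num κ q u N x ≤ lam * den κ q u N x) (u : ℝ) (N : ℕ) (x : ℕ → ℝ) :
    num κ q u N x ≤ lam * den κ q u N x := by
  rcases lt_or_ge 0 u with hu | hu
  · exact h u hu N x
  · have h1 := num_le_den_neg hκ hq hq1 (mul_nonpos_of_nonneg_of_nonpos hκ0 hu) N x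
    have h2 := le_of_bound hκ hq h
    have h3 := den_nonneg hκ hq (u := u) N x
    have hsq : 0 < Real.sqrt q := Real.sqrt_pos.2 hq
    have h4 : Real.sqrt q * num κ q u N x ≤ Real.sqrt q * (lam * den κ q u N x) := by
      have := mul_le_mul_of_nonneg_right h2 h3
      linarith
    exact le_of_mul_le_mul_left h4 hsq

theorem upper {κ q lam : ℝ} (hκ0 : 0 ≤ κ) (hκ : κ ^ 2 < 1) (hq : 0 < q) (hq1 : q < 1)
    (h : ∀ u > 0, ∀ N x, num κ q u N x ≤ lam * den κ q u N x) {F : ℝ → ℝ} (hF : Continuous F)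
    {M : ℝ} (hM : ∀ x, |F x| ≤ M) :
    ∫ x : ℝ, (F x * F (x * q)) * (1 / gg κ x) ≤ lam * ∫ x : ℝ, F x ^ 2 * (1 / gg κ x) := by
  have hM0 : 0 ≤ M := (abs_nonneg _).trans (hM 0)
  have hi1 : Integrable (fun x => (F x * F (x * q)) * (1 / gg κ x)) := by
    refine integrable_bdd hκ (M := M * M) (G := fun x => F x * F (x * q)) (by fun_prop) (fun x => ?_)
    rw [abs_mul]
    exact mul_le_mul (hM _) (hM _) (abs_nonneg _) hM0
  have hi2 : Integrable (fun x => F x ^ 2 * (1 / gg κ x)) := by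
    refine integrable_bdd hκ (M := M ^ 2) (hF.pow 2) (fun x => ?_)
    rw [abs_pow]
    exact pow_le_pow_left₀ (abs_nonneg _) (hM _) 2
  set A := ∫ x : ℝ, (F x * F (x * q)) * (1 / gg κ x) with hA
  set B := ∫ x : ℝ, F x ^ 2 * (1 / gg κ x) with hB
  have hN : ∀ N : ℕ, (N : ℝ) * A ≤ lam * (((N : ℝ) + 1) * B) := by
    intro N
    have e1 : ∫ u : ℝ, num κ q u N (fun n => F (u * q ^ n)) = (N : ℝ) * A := by
      unfold num
      rw [integral_finsetSum]
      · have : ∀ n ∈ range N, ∫ u : ℝ, F (u * q ^ n) * F (u * q ^ (n + 1)) * (q ^ n / gg κ (u * q ^ n)) = A := by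
          intro n _
          have h2 := integral_scale (κ := κ) hq (fun x => F x * F (x * q)) n
          rw [hA, ← h2]
          congr 1
          funext u
          rw [pow_succ, mul_assoc u]
        rw [sum_congr rfl this]
        simp
      · intro n _
        have h2 := integrable_scale hq hi1 n
        refine h2.congr (Eventually.of_forall fun u => ?_)
        simp only
        rw [pow_succ, mul_assoc u]
    have e2 : ∫ u : ℝ, den κ q u N (fun n => F (u * q ^ n)) = ((N : ℝ) + 1) * B := by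
      unfold den
      rw [integral_finsetSum]
      · have : ∀ n ∈ range (N + 1), ∫ u : ℝ, F (u * q ^ n) ^ 2 * (q ^ n / gg κ (u * q ^ n)) = B := by
          intro n _
          exact integral_scale (κ := κ) hq (fun x => F x ^ 2) n
        rw [sum_congr rfl this]
        simp
      · intro n _
        exact integrable_scale hq hi2 n
    rw [← e1, ← e2, ← integral_const_mul]
    apply integral_mono
    · unfold num
      apply integrable_finsetSum
      intro n _
      have h2 := integrable_scale hq hi1 n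
      refine h2.congr (Eventually.of_forall fun u => ?_)
      simp only
      rw [pow_succ, mul_assoc u]
    · apply Integrable.const_mul
      unfold den
      apply integrable_finsetSum
      intro n _
      exact integrable_scale hq hi2 n
    · intro u
      exact num_le_all hκ0 hκ hq hq1 h u N _
  -- `N → ∞`
  have h3 : Tendsto (fun N : ℕ => ((N : ℝ) / ((N : ℝ) + 1)) * A) atTop (𝓝 (1 * A)) :=
    (tendsto_natCast_div_add_atTop 1).mul_const A
  rw [one_mul] at h3
  refine le_of_tendsto h3 (Eventually.of_forall fun N => ?_)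
  have h4 := hN N
  have h5 : (0:ℝ) < (N:ℝ) + 1 := by positivity
  rw [div_mul_eq_mul_div, div_le_iff₀ h5]
  linarith

/-- crude bound used for the boundedness of the operator -/
theorem crude {κ q : ℝ} (hκ : κ ^ 2 < 1) (hq : 0 < q) (hq1 : q < 1) {F : ℝ → ℝ} (hF : Continuous F)
    {M : ℝ} (hM : ∀ x, |F x| ≤ M) :
    ∫ x : ℝ, F (x * q) ^ 2 * (1 / gg κ x) ≤
      ((1 + |κ|) / (1 - |κ|) / q) * ∫ x : ℝ, F x ^ 2 * (1 / gg κ x) := by
  have hκ1 := abs_lt_one' hκ
  have hi1 : Integrable (fun x => F (x * q) ^ 2 * (1 / gg κ x)) := by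
    refine integrable_bdd hκ (M := M ^ 2) (G := fun x => F (x * q) ^ 2) (by fun_prop) (fun x => ?_)
    rw [abs_pow]
    exact pow_le_pow_left₀ (abs_nonneg _) (hM _) 2
  have hi2 : Integrable (fun x => F x ^ 2 * (1 / gg κ x)) := by
    refine integrable_bdd hκ (M := M ^ 2) (hF.pow 2) (fun x => ?_)
    rw [abs_pow]
    exact pow_le_pow_left₀ (abs_nonneg _) (hM _) 2
  have h1 : ∀ x : ℝ, 1 / gg κ x ≤ ((1 + |κ|) / (1 - |κ|)) * (1 / gg κ (x * q)) := by
    intro x
    have h2 := gg_lower hκ x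
    have h3 := gg_upper κ (x * q)
    have h4 := gg_pos' hκ x
    have h5 := gg_pos' hκ (x * q)
    have h6 : 0 < 1 - |κ| := by linarith
    have h7 : 0 ≤ |κ| := abs_nonneg κ
    rw [div_mul_div_comm, mul_one, div_le_div_iff₀ h4 (by positivity)]
    have h8 : (x * q) ^ 2 ≤ x ^ 2 := by
      rw [mul_pow]
      have : q ^ 2 ≤ 1 := pow_le_one₀ hq.le hq1.le
      nlinarith [sq_nonneg x]
    calc 1 * ((1 - |κ|) * gg κ (x * q)) ≤ (1 - |κ|) * ((1 + |κ|) * (1 + (x * q) ^ 2)) := by
          rw [one_mul]; exact mul_le_mul_of_nonneg_left h3 h6.le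
      _ ≤ (1 - |κ|) * ((1 + |κ|) * (1 + x ^ 2)) := by
          apply mul_le_mul_of_nonneg_left _ h6.le
          apply mul_le_mul_of_nonneg_left _ (by linarith)
          linarith
      _ = (1 + |κ|) * ((1 - |κ|) * (1 + x ^ 2)) := by ring
      _ ≤ (1 + |κ|) * gg κ x := mul_le_mul_of_nonneg_left h2 (by linarith)
  have hi3 : Integrable (fun x : ℝ => F (x * q) ^ 2 * (1 / gg κ (x * q))) := hi2.comp_mul_right' hq.ne'
  calc ∫ x : ℝ, F (x * q) ^ 2 * (1 / gg κ x)
      ≤ ∫ x : ℝ, ((1 + |κ|) / (1 - |κ|)) * (F (x * q) ^ 2 * (1 / gg κ (x * q))) := by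
        apply integral_mono hi1 (hi3.const_mul _)
        intro x
        simp only
        calc F (x * q) ^ 2 * (1 / gg κ x) ≤ F (x * q) ^ 2 * (((1 + |κ|) / (1 - |κ|)) * (1 / gg κ (x * q))) :=
              mul_le_mul_of_nonneg_left (h1 x) (sq_nonneg _)
          _ = _ := by ring
    _ = _ := by
        rw [integral_const_mul]
        have h2 := Measure.integral_comp_mul_right (fun x => F x ^ 2 * (1 / gg κ x)) q
        rw [h2, abs_of_pos (inv_pos.2 hq), smul_eq_mul]
        field_simp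

end

end Pool.Agent.helper30.NR
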