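import Mathlib
import Pool.Agent.helper30.NR.Upper

set_option autoImplicit false

namespace Pool.Agent.helper30.NR

open Finset Filter Topology MeasureTheory

noncomputable section

/-- a Gaussian bump -/
def gau (δ c s : ℝ) : ℝ := Real.exp (-((s - c) / δ) ^ 2)

lemma gau_nonneg (δ c s : ℝ) : 0 ≤ gau δ c s := (Real.exp_pos _).le

lemma gau_le_one (δ c s : ℝ) : gau δ c s ≤ 1 := by
  unfold gau
  rw [Real.exp_le_one_iff]
  have := sq_nonneg ((s - c) / δ)
  linarith

lemma continuous_gau (δ c : ℝ) : Continuous (gau δ c) := by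
  unfold gau
  fun_prop

lemma gau_limit {Φ : ℝ → ℝ} (hΦ : Continuous Φ) {M : ℝ} (hM : ∀ s, |Φ s| ≤ M) (c d : ℝ) :
    Tendsto (fun δ : ℝ => (1 / δ) * ∫ s, gau δ c s * gau δ d s * Φ s) (𝓝[>] 0)
      (𝓝 (if c = d then Real.sqrt (Real.pi / 2) * Φ c else 0)) := by
  have hM0 : 0 ≤ M := (abs_nonneg _).trans (hM 0)
  -- substitution
  have hsub : ∀ δ : ℝ, 0 < δ → (1 / δ) * ∫ s, gau δ c s * gau δ d s * Φ s =
      ∫ v : ℝ, Real.exp (-v ^ 2) * Real.exp (-(v + (c - d) / δ) ^ 2) * Φ (c + δ * v) := by
    intro δ hδ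
    have h1 := Measure.integral_comp_mul_left
      (fun s => gau δ c (c + s) * gau δ d (c + s) * Φ (c + s)) δ
    have h2 := integral_add_left_eq_self (μ := volume)
      (fun s => gau δ c s * gau δ d s * Φ s) c
    rw [h2, abs_of_pos (inv_pos.2 hδ), smul_eq_mul] at h1
    rw [one_div, ← h1]
    congr 1
    funext v
    unfold gau
    have e1 : (c + δ * v - c) / δ = v := by field_simp; ring
    have e2 : (c + δ * v - d) / δ = v + (c - d) / δ := by field_simp; ring
    rw [e1, e2]
  have hgauss : Integrable (fun v : ℝ => Real.exp (-v ^ 2) * M) := by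
    have := (integrable_exp_neg_mul_sq (b := 1) one_pos).mul_const M
    simpa using this
  have hlim : Tendsto (fun δ : ℝ => ∫ v : ℝ, Real.exp (-v ^ 2) * Real.exp (-(v + (c - d) / δ) ^ 2) *
      Φ (c + δ * v)) (𝓝[>] 0) (𝓝 (∫ v : ℝ, if c = d then Real.exp (-2 * v ^ 2) * Φ c else 0)) := by
    apply tendsto_integral_filter_of_dominated_convergence (fun v : ℝ => Real.exp (-v ^ 2) * M)
    · refine Eventually.of_forall fun δ => ?_
      apply Continuous.aestronglyMeasurable
      fun_prop
    · refine Eventually.of_forall fun δ => Eventually.of_forall fun v => ?_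
      rw [norm_mul, norm_mul, Real.norm_of_nonneg (Real.exp_pos _).le,
        Real.norm_of_nonneg (Real.exp_pos _).le, mul_assoc]
      apply mul_le_mul_of_nonneg_left _ (Real.exp_pos _).le
      have h1 : Real.exp (-(v + (c - d) / δ) ^ 2) ≤ 1 := by
        rw [Real.exp_le_one_iff]
        have := sq_nonneg (v + (c - d) / δ)
        linarith
      calc Real.exp (-(v + (c - d) / δ) ^ 2) * ‖Φ (c + δ * v)‖ ≤ 1 * M :=
            mul_le_mul h1 (hM _) (norm_nonneg _) zero_le_one
        _ = M := one_mul M
    · exact hgauss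
    · refine Eventually.of_forall fun v => ?_
      have hδ0 : Tendsto (fun δ : ℝ => c + δ * v) (𝓝[>] 0) (𝓝 c) := by
        have : ContinuousAt (fun δ : ℝ => c + δ * v) 0 := by fun_prop
        have h2 := this.tendsto
        simp only [zero_mul, add_zero] at h2
        exact h2.mono_left nhdsWithin_le_nhds
      have hΦc : Tendsto (fun δ : ℝ => Φ (c + δ * v)) (𝓝[>] 0) (𝓝 (Φ c)) :=
        (hΦ.tendsto c).comp hδ0
      split_ifs with hcd
      · subst hcd
        have h3 : ∀ δ : ℝ, Real.exp (-v ^ 2) * Real.exp (-(v + (c - c) / δ) ^ 2) =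
            Real.exp (-2 * v ^ 2) := by
          intro δ
          rw [sub_self, zero_div, add_zero, ← Real.exp_add]
          congr 1
          ring
        simp_rw [h3]
        exact hΦc.const_mul _
      · have hcd' : c - d ≠ 0 := sub_ne_zero.2 hcd
        have h4 : Tendsto (fun δ : ℝ => (v + (c - d) / δ) ^ 2) (𝓝[>] 0) atTop := by
          have h5 : Tendsto (fun δ : ℝ => |v + (c - d) / δ|) (𝓝[>] 0) atTop := by
            have h6 : Tendsto (fun δ : ℝ => |c - d| * δ⁻¹ - |v|) (𝓝[>] 0) atTop := by
              apply tendsto_atTop_add_const_right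
              exact tendsto_inv_nhdsGT_zero.const_mul_atTop (abs_pos.2 hcd')
            refine tendsto_atTop_mono' _ ?_ h6
            filter_upwards [self_mem_nhdsWithin] with δ hδ
            have hδ' : 0 < δ := hδ
            have h7 : |(c - d) / δ| = |c - d| * δ⁻¹ := by
              rw [abs_div, abs_of_pos hδ', div_eq_mul_inv]
            rw [← h7]
            have h8 := abs_sub_abs_le_abs_sub ((c - d) / δ) (-v)
            rw [abs_neg, sub_neg_eq_add, add_comm ((c - d) / δ) v] at h8
            exact h8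
          have h9 := (tendsto_pow_atTop (α := ℝ) (two_ne_zero)).comp h5
          refine h9.congr fun δ => ?_
          simp
        have h5 : Tendsto (fun δ : ℝ => Real.exp (-(v + (c - d) / δ) ^ 2)) (𝓝[>] 0) (𝓝 0) :=
          Real.tendsto_exp_neg_atTop_nhds_zero.comp h4
        have h6 := ((tendsto_const_nhds (x := Real.exp (-v ^ 2))).mul h5).mul hΦc
        simpa using h6
  have hval : (∫ v : ℝ, if c = d then Real.exp (-2 * v ^ 2) * Φ c else 0) =
      if c = d then Real.sqrt (Real.pi / 2) * Φ c else 0 := by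
    split_ifs with hcd
    · rw [integral_mul_const, integral_gaussian]
    · simp
  rw [hval] at hlim
  refine hlim.congr' ?_
  filter_upwards [self_mem_nhdsWithin] with δ hδ
  exact (hsub δ hδ).symm

/-- the weight in the logarithmic coordinate -/
def Phi (κ s : ℝ) : ℝ := Real.exp s / gg κ (Real.exp s)

lemma continuous_Phi {κ : ℝ} (h : κ ^ 2 < 1) : Continuous (Phi κ) := by
  unfold Phi
  exact Real.continuous_exp.div ((continuous_gg κ).comp Real.continuous_exp) fun s => (gg_pos' h _).ne'

lemma Phi_bdd {κ : ℝ} (h : κ ^ 2 < 1) (s : ℝ) : |Phi κ s| ≤ 1 / (1 - |κ|) := by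
  have h1 := abs_lt_one' h
  have h2 := gg_lower h (Real.exp s)
  have h3 := gg_pos' h (Real.exp s)
  have h4 := Real.exp_pos s
  unfold Phi
  rw [abs_of_pos (by positivity), div_le_div_iff₀ h3 (by linarith)]
  have h5 : Real.exp s ≤ 1 + Real.exp s ^ 2 := by nlinarith [sq_nonneg (Real.exp s - 1)]
  have h6 : 0 < 1 - |κ| := by linarith
  nlinarith

lemma integral_log_coord {κ : ℝ} (H : ℝ → ℝ) :
    ∫ x in Set.Ioi (0:ℝ), H (Real.log x) * (1 / gg κ x) = ∫ s : ℝ, H s * Phi κ s := by
  have himg : Real.exp '' Set.univ = Set.Ioi (0:ℝ) := by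
    rw [Set.image_univ, Real.range_exp]
  rw [← himg, integral_image_eq_integral_abs_deriv_smul MeasurableSet.univ
    (fun s _ => (Real.hasDerivAt_exp s).hasDerivWithinAt) (Real.exp_injective.injOn)]
  rw [Measure.restrict_univ]
  congr 1
  funext s
  rw [abs_of_pos (Real.exp_pos s), Real.log_exp, smul_eq_mul]
  unfold Phi
  ring

/-- a finite combination of Gaussians -/
def comb (δ : ℝ) (M : ℕ) (x c : ℕ → ℝ) (s : ℝ) : ℝ := ∑ k ∈ range (M + 1), x k * gau δ (c k) s

lemma integrable_gau_mul {κ : ℝ} (h : κ ^ 2 < 1) {δ : ℝ} (hδ : 0 < δ) (c d : ℝ) :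
    Integrable (fun s => gau δ c s * gau δ d s * Phi κ s) := by
  have h1 : Integrable (fun s => gau δ c s) := by
    have h2 := (integrable_exp_neg_mul_sq (b := 1 / δ ^ 2) (by positivity)).comp_sub_right c
    refine h2.congr (Eventually.of_forall fun s => ?_)
    simp only [gau]
    congr 1
    field_simp
  have h3 : Integrable (fun s => gau δ c s * (gau δ d s * Phi κ s)) := by
    refine h1.mul_bdd (c := 1 * (1 / (1 - |κ|))) ?_ ?_
    · exact ((continuous_gau δ d).mul (continuous_Phi h)).aestronglyMeasurable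
    · refine Eventually.of_forall fun s => ?_
      rw [norm_mul, Real.norm_of_nonneg (gau_nonneg _ _ _)]
      exact mul_le_mul (gau_le_one _ _ _) (Phi_bdd h s) (norm_nonneg _) zero_le_one
  simpa [mul_assoc] using h3

lemma gau_shift (δ c s t : ℝ) : gau δ c (s + t) = gau δ (c - t) s := by
  unfold gau
  congr 3
  ring

lemma limit_quad {κ : ℝ} (h : κ ^ 2 < 1) (M : ℕ) (x c : ℕ → ℝ) (t : ℝ) :
    Tendsto (fun δ : ℝ => (1 / δ) * ∫ s, comb δ M x c s * comb δ M x c (s + t) * Phi κ s) (𝓝[>] 0)
      (𝓝 (∑ k ∈ range (M + 1), ∑ j ∈ range (M + 1), x k * x j *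
        (if c k = c j - t then Real.sqrt (Real.pi / 2) * Phi κ (c k) else 0))) := by
  have h1 : ∀ δ : ℝ, 0 < δ → (1 / δ) * ∫ s, comb δ M x c s * comb δ M x c (s + t) * Phi κ s =
      ∑ k ∈ range (M + 1), ∑ j ∈ range (M + 1), x k * x j *
        ((1 / δ) * ∫ s, gau δ (c k) s * gau δ (c j - t) s * Phi κ s) := by
    intro δ hδ
    have h2 : ∀ s, comb δ M x c s * comb δ M x c (s + t) * Phi κ s =
        ∑ k ∈ range (M + 1), ∑ j ∈ range (M + 1), x k * x j *
          (gau δ (c k) s * gau δ (c j - t) s * Phi κ s) := by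
      intro s
      unfold comb
      rw [sum_mul_sum, sum_mul]
      apply sum_congr rfl
      intro k _
      rw [sum_mul]
      apply sum_congr rfl
      intro j _
      rw [gau_shift]
      ring
    simp_rw [h2]
    rw [integral_finsetSum]
    · rw [mul_sum]
      apply sum_congr rfl
      intro k _
      rw [integral_finsetSum]
      · rw [mul_sum]
        apply sum_congr rfl
        intro j _
        rw [integral_const_mul]
        ring
      · intro j _
        exact (integrable_gau_mul h hδ _ _).const_mul _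
    · intro k _
      apply integrable_finsetSum
      intro j _
      exact (integrable_gau_mul h hδ _ _).const_mul _
  have h3 : Tendsto (fun δ : ℝ => ∑ k ∈ range (M + 1), ∑ j ∈ range (M + 1), x k * x j *
        ((1 / δ) * ∫ s, gau δ (c k) s * gau δ (c j - t) s * Phi κ s)) (𝓝[>] 0)
      (𝓝 (∑ k ∈ range (M + 1), ∑ j ∈ range (M + 1), x k * x j *
        (if c k = c j - t then Real.sqrt (Real.pi / 2) * Phi κ (c k) else 0))) :=
    tendsto_finsetSum _ fun k _ => tendsto_finsetSum _ fun j _ =>
      (gau_limit (continuous_Phi h) (Phi_bdd h) (c k) (c j - t)).const_mul _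
  refine h3.congr' ?_
  filter_upwards [self_mem_nhdsWithin] with δ hδ
  exact (h1 δ hδ).symm

/-- from Gaussian combinations to sequences -/
theorem lower_real {κ q lam : ℝ} (h : κ ^ 2 < 1) (hq : 0 < q) (hq1 : q < 1)
    (hyp : ∀ (δ : ℝ), 0 < δ → ∀ (M : ℕ) (x c : ℕ → ℝ),
      ∫ y in Set.Ioi (0:ℝ), (comb δ M x c (Real.log y) * comb δ M x c (Real.log y + Real.log q)) *
        (1 / gg κ y) ≤ lam * ∫ y in Set.Ioi (0:ℝ), comb δ M x c (Real.log y) ^ 2 * (1 / gg κ y)) :
    ∀ u > 0, ∀ N x, num κ q u N x ≤ lam * den κ q u N x := by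
  intro u hu N x
  set c : ℕ → ℝ := fun k => Real.log u + k * Real.log q with hc
  have hlq : Real.log q < 0 := Real.log_neg hq hq1
  have hexp : ∀ k, Real.exp (c k) = u * q ^ k := by
    intro k
    simp only [hc]
    rw [Real.exp_add, Real.exp_log hu, Real.exp_nat_mul, Real.exp_log hq]
  have h1 : ∀ δ : ℝ, 0 < δ →
      (1 / δ) * ∫ s, comb δ N x c s * comb δ N x c (s + Real.log q) * Phi κ s ≤
      lam * ((1 / δ) * ∫ s, comb δ N x c s * comb δ N x c (s + 0) * Phi κ s) := by
    intro δ hδ
    have h2 := hyp δ hδ N x c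
    rw [integral_log_coord (fun s => comb δ N x c s * comb δ N x c (s + Real.log q)),
      integral_log_coord (fun s => comb δ N x c s ^ 2)] at h2
    simp_rw [add_zero, ← pow_two]
    have h3 : 0 < 1 / δ := by positivity
    calc (1 / δ) * ∫ s, comb δ N x c s * comb δ N x c (s + Real.log q) * Phi κ s
        ≤ (1 / δ) * (lam * ∫ s, comb δ N x c s ^ 2 * Phi κ s) := mul_le_mul_of_nonneg_left h2 h3.le
      _ = _ := by ring
  have h2 := limit_quad h N x c (Real.log q)
  have h3 := (limit_quad h N x c 0).const_mul lam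
  have h4 := le_of_tendsto_of_tendsto h2 h3 (by
    filter_upwards [self_mem_nhdsWithin] with δ hδ
    exact h1 δ hδ)
  -- evaluate both double sums
  have hinj : ∀ k j : ℕ, c k = c j - Real.log q ↔ j = k + 1 := by
    intro k j
    simp only [hc]
    constructor
    · intro hh
      have h5 : ((k : ℝ) + 1 - j) * Real.log q = 0 := by linarith
      rcases mul_eq_zero.1 h5 with h6 | h6
      · have : (j : ℝ) = ((k + 1 : ℕ) : ℝ) := by push_cast; linarith
        exact_mod_cast this
      · exact absurd h6 hlq.ne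
    · rintro rfl
      push_cast
      ring
  have hinj0 : ∀ k j : ℕ, c k = c j - 0 ↔ j = k := by
    intro k j
    simp only [hc]
    constructor
    · intro hh
      have h5 : ((k : ℝ) - j) * Real.log q = 0 := by linarith
      rcases mul_eq_zero.1 h5 with h6 | h6
      · have : (j : ℝ) = (k : ℝ) := by linarith
        exact_mod_cast this
      · exact absurd h6 hlq.ne
    · rintro rfl
      ring
  simp only [hinj, hinj0] at h4
  have e1 : ∑ k ∈ range (N + 1), ∑ j ∈ range (N + 1), x k * x j *
      (if j = k + 1 then Real.sqrt (Real.pi / 2) * Phi κ (c k) else 0) =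
      Real.sqrt (Real.pi / 2) * u * num κ q u N x := by
    rw [sum_range_succ]
    have h5 : ∑ j ∈ range (N + 1), x N * x j *
        (if j = N + 1 then Real.sqrt (Real.pi / 2) * Phi κ (c N) else 0) = 0 := by
      apply sum_eq_zero
      intro j hj
      rw [if_neg (by have := mem_range.1 hj; omega), mul_zero]
    rw [h5, add_zero]
    unfold num
    rw [mul_sum]
    apply sum_congr rfl
    intro k hk
    rw [sum_eq_single (k + 1)]
    · rw [if_pos rfl]
      unfold Phi
      rw [hexp]
      ring
    · intro j _ hj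
      rw [if_neg hj, mul_zero]
    · intro hh
      exact absurd (mem_range.2 (by have := mem_range.1 hk; omega)) hh
  have e2 : ∑ k ∈ range (N + 1), ∑ j ∈ range (N + 1), x k * x j *
      (if j = k then Real.sqrt (Real.pi / 2) * Phi κ (c k) else 0) =
      Real.sqrt (Real.pi / 2) * u * den κ q u N x := by
    unfold den
    rw [mul_sum]
    apply sum_congr rfl
    intro k hk
    rw [sum_eq_single k]
    · rw [if_pos rfl]
      unfold Phi
      rw [hexp]
      ring
    · intro j _ hj
      rw [if_neg hj, mul_zero]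
    · intro hh
      exact absurd hk hh
  rw [e1, e2] at h4
  have h6 : 0 < Real.sqrt (Real.pi / 2) * u := by
    have : 0 < Real.sqrt (Real.pi / 2) := Real.sqrt_pos.2 (by positivity)
    positivity
  have h7 : Real.sqrt (Real.pi / 2) * u * num κ q u N x ≤
      Real.sqrt (Real.pi / 2) * u * (lam * den κ q u N x) := by linarith
  exact le_of_mul_le_mul_left h7 h6

end

end Pool.Agent.helper30.NR
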