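import Mathlib
import Pool.Agent.helper30.NR.Line

set_option autoImplicit false

namespace Pool.Agent.helper30.NR

open Complex Filter Topology

noncomputable section

/-- the disc automorphism `z ↦ c (z - a) / (1 - conj a z)` -/
def mob (c a z : ℂ) : ℂ := c * (z - a) / (1 - (starRingEnd ℂ) a * z)

variable {c a ω₁ ω₂ : ℂ}

lemma den_ne {a z : ℂ} (ha : ‖a‖ < 1) (hz : ‖z‖ ≤ 1) : 1 - (starRingEnd ℂ) a * z ≠ 0 := by
  intro h
  have h1 : ‖(starRingEnd ℂ) a * z‖ = 1 := by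
    rw [← sub_eq_zero.1 h, norm_one]
  rw [norm_mul, RCLike.norm_conj] at h1
  have h2 : ‖a‖ * ‖z‖ ≤ ‖a‖ * 1 := mul_le_mul_of_nonneg_left hz (norm_nonneg _)
  linarith

/-- the basic identity `1 - |φ(z)|² = (1 - |a|²)(1 - |z|²)/|1 - conj a z|²` -/
lemma mob_id {c a z : ℂ} (hc : ‖c‖ = 1) (hd : 1 - (starRingEnd ℂ) a * z ≠ 0) :
    1 - ‖mob c a z‖ ^ 2 = (1 - ‖a‖ ^ 2) * (1 - ‖z‖ ^ 2) / ‖1 - (starRingEnd ℂ) a * z‖ ^ 2 := by
  have hd' : 0 < ‖1 - (starRingEnd ℂ) a * z‖ := norm_pos_iff.2 hd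
  unfold mob
  rw [norm_div, norm_mul, hc, one_mul, div_pow, eq_div_iff (by positivity), sub_mul,
    div_mul_cancel₀ _ (by positivity), one_mul]
  rw [← Complex.normSq_eq_norm_sq, ← Complex.normSq_eq_norm_sq, ← Complex.normSq_eq_norm_sq,
    ← Complex.normSq_eq_norm_sq]
  simp only [Complex.normSq_apply, Complex.sub_re, Complex.sub_im, Complex.one_re, Complex.one_im,
    Complex.mul_re, Complex.mul_im, Complex.conj_re, Complex.conj_im]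
  ring

lemma mob_lt {c a z : ℂ} (hc : ‖c‖ = 1) (ha : ‖a‖ < 1) (hz : ‖z‖ < 1) : ‖mob c a z‖ < 1 := by
  have hd := den_ne ha hz.le
  have h := mob_id hc hd
  have hd' : 0 < ‖1 - (starRingEnd ℂ) a * z‖ := norm_pos_iff.2 hd
  have h1 : 0 < (1 - ‖a‖ ^ 2) * (1 - ‖z‖ ^ 2) / ‖1 - (starRingEnd ℂ) a * z‖ ^ 2 := by
    have h2 : 0 < 1 - ‖a‖ ^ 2 := by nlinarith [norm_nonneg a]
    have h3 : 0 < 1 - ‖z‖ ^ 2 := by nlinarith [norm_nonneg z]
    positivity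
  nlinarith [norm_nonneg (mob c a z)]

lemma mob_le {c a z : ℂ} (hc : ‖c‖ = 1) (ha : ‖a‖ < 1) (hz : ‖z‖ ≤ 1) : ‖mob c a z‖ ≤ 1 := by
  have hd := den_ne ha hz
  have h := mob_id hc hd
  have hd' : 0 < ‖1 - (starRingEnd ℂ) a * z‖ := norm_pos_iff.2 hd
  have h1 : 0 ≤ (1 - ‖a‖ ^ 2) * (1 - ‖z‖ ^ 2) / ‖1 - (starRingEnd ℂ) a * z‖ ^ 2 := by
    have h2 : 0 ≤ 1 - ‖a‖ ^ 2 := by nlinarith [norm_nonneg a]
    have h3 : 0 ≤ 1 - ‖z‖ ^ 2 := by nlinarith [norm_nonneg z]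
    positivity
  nlinarith [norm_nonneg (mob c a z)]

lemma mob_hasDerivAt {c a z : ℂ} (hd : 1 - (starRingEnd ℂ) a * z ≠ 0) :
    HasDerivAt (mob c a) (c * (1 - (starRingEnd ℂ) a * a) / (1 - (starRingEnd ℂ) a * z) ^ 2) z := by
  have h1 : HasDerivAt (fun z : ℂ => c * (z - a)) (c * 1) z :=
    ((hasDerivAt_id z).sub_const a).const_mul c
  have h2 : HasDerivAt (fun z : ℂ => 1 - (starRingEnd ℂ) a * z) (-((starRingEnd ℂ) a * 1)) z :=
    ((hasDerivAt_id z).const_mul _).const_sub 1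
  have h3 : HasDerivAt (mob c a) ((c * 1 * (1 - (starRingEnd ℂ) a * z) -
      c * (z - a) * -((starRingEnd ℂ) a * 1)) / (1 - (starRingEnd ℂ) a * z) ^ 2) z := h1.div h2 hd
  refine h3.congr_deriv ?_
  congr 1
  ring

lemma mob_differentiableAt {c a z : ℂ} (hd : 1 - (starRingEnd ℂ) a * z ≠ 0) :
    DifferentiableAt ℂ (mob c a) z := (mob_hasDerivAt hd).differentiableAt

/-- difference formula -/
lemma mob_sub {c a z w : ℂ} (hz : 1 - (starRingEnd ℂ) a * z ≠ 0) (hw : 1 - (starRingEnd ℂ) a * w ≠ 0) :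
    mob c a z - mob c a w = c * (1 - (starRingEnd ℂ) a * a) * (z - w) /
      ((1 - (starRingEnd ℂ) a * z) * (1 - (starRingEnd ℂ) a * w)) := by
  unfold mob
  rw [div_sub_div _ _ hz hw]
  congr 1
  ring

/-- geometric data of a hyperbolic automorphism -/
structure Hyp (c a ω₁ ω₂ : ℂ) : Prop where
  hc : ‖c‖ = 1
  ha : ‖a‖ < 1
  h1 : ‖ω₁‖ = 1
  h2 : ‖ω₂‖ = 1
  hne : ω₁ ≠ ω₂
  f1 : mob c a ω₁ = ω₁
  f2 : mob c a ω₂ = ω₂

/-- the multiplier -/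
def qq (a ω₁ : ℂ) : ℝ := (1 - ‖a‖ ^ 2) / ‖1 - (starRingEnd ℂ) a * ω₁‖ ^ 2

lemma Hyp.qq_pos (h : Hyp c a ω₁ ω₂) : 0 < qq a ω₁ := by
  have hd := den_ne h.ha h.h1.le
  have hd' : 0 < ‖1 - (starRingEnd ℂ) a * ω₁‖ := norm_pos_iff.2 hd
  have h2 : 0 < 1 - ‖a‖ ^ 2 := by nlinarith [norm_nonneg a, h.ha]
  unfold qq
  positivity

lemma conj_mul_self_of_norm {z : ℂ} (h : ‖z‖ = 1) : z * (starRingEnd ℂ) z = 1 := by
  rw [Complex.mul_conj, Complex.normSq_eq_norm_sq, h]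
  simp

lemma Hyp.norm_deriv (h : Hyp c a ω₁ ω₂) : ‖deriv (mob c a) ω₁‖ = qq a ω₁ := by
  have hd := den_ne h.ha h.h1.le
  rw [(mob_hasDerivAt hd).deriv]
  unfold qq
  rw [norm_div, norm_mul, h.hc, one_mul, norm_pow]
  congr 1
  have h2 : (1 - (starRingEnd ℂ) a * a) = ((1 - ‖a‖ ^ 2 : ℝ) : ℂ) := by
    rw [mul_comm, Complex.mul_conj, Complex.normSq_eq_norm_sq]
    push_cast
    ring
  rw [h2, Complex.norm_real, Real.norm_of_nonneg]
  nlinarith [norm_nonneg a, h.ha]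

/-- at a fixed point on the circle `c` is determined -/
lemma fixed_eq {c a ω : ℂ} (ha : ‖a‖ < 1) (hω : ‖ω‖ = 1) (hf : mob c a ω = ω) :
    c * (starRingEnd ℂ) (1 - (starRingEnd ℂ) a * ω) = 1 - (starRingEnd ℂ) a * ω := by
  have hd := den_ne ha hω.le
  unfold mob at hf
  rw [div_eq_iff hd] at hf
  have hω1 := conj_mul_self_of_norm hω
  have hω0 : ω ≠ 0 := by
    intro h0
    rw [h0] at hω
    simp at hω
  have h1 : c * (starRingEnd ℂ) (1 - (starRingEnd ℂ) a * ω) * ω = (1 - (starRingEnd ℂ) a * ω) * ω := by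
    rw [map_sub, map_one, map_mul, Complex.conj_conj]
    calc c * (1 - a * (starRingEnd ℂ) ω) * ω = c * (ω - a * (ω * (starRingEnd ℂ) ω)) := by ring
      _ = c * (ω - a) := by rw [hω1, mul_one]
      _ = _ := by rw [hf]; ring
  exact mul_right_cancel₀ hω0 h1

/-- the ratio `(1 - conj a ω₂) / (1 - conj a ω₁)` is the multiplier -/
lemma Hyp.ratio (h : Hyp c a ω₁ ω₂) :
    1 - (starRingEnd ℂ) a * ω₂ = (qq a ω₁ : ℂ) * (1 - (starRingEnd ℂ) a * ω₁) := by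
  set A := 1 - (starRingEnd ℂ) a * ω₁ with hA
  set B := 1 - (starRingEnd ℂ) a * ω₂ with hB
  have hA0 : A ≠ 0 := den_ne h.ha h.h1.le
  have hB0 : B ≠ 0 := den_ne h.ha h.h2.le
  have e1 : c * (starRingEnd ℂ) A = A := fixed_eq h.ha h.h1 h.f1
  have e2 : c * (starRingEnd ℂ) B = B := fixed_eq h.ha h.h2 h.f2
  have hc0 : c ≠ 0 := by
    intro h0
    have := h.hc
    rw [h0] at this
    simp at this
  -- difference formula
  have e3 := mob_sub (c := c) hA0 hB0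
  rw [h.f1, h.f2] at e3
  have hne : ω₁ - ω₂ ≠ 0 := sub_ne_zero.2 h.hne
  have e4 : A * B = c * (1 - (starRingEnd ℂ) a * a) := by
    have h5 := (eq_div_iff (mul_ne_zero hA0 hB0)).1 e3
    have h6 : (ω₁ - ω₂) * (A * B) = (ω₁ - ω₂) * (c * (1 - (starRingEnd ℂ) a * a)) := by
      rw [h5]
      ring
    exact mul_left_cancel₀ hne h6
  -- `A conj A B = (1 - |a|^2) A`... 
  have e5 : (starRingEnd ℂ) A * B = 1 - (starRingEnd ℂ) a * a := by
    have h6 : c * ((starRingEnd ℂ) A * B) = c * (1 - (starRingEnd ℂ) a * a) := by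
      rw [← e4, ← mul_assoc, e1]
    exact mul_left_cancel₀ hc0 h6
  have hcA : (starRingEnd ℂ) A ≠ 0 := (map_ne_zero _).2 hA0
  have e6 : ((‖A‖ ^ 2 : ℝ) : ℂ) = A * (starRingEnd ℂ) A := by
    rw [Complex.mul_conj, Complex.normSq_eq_norm_sq]
  have e7 : (qq a ω₁ : ℂ) = (1 - (starRingEnd ℂ) a * a) / (A * (starRingEnd ℂ) A) := by
    unfold qq
    rw [Complex.ofReal_div, ← hA, e6]
    congr 1
    rw [mul_comm, Complex.mul_conj, Complex.normSq_eq_norm_sq]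
    push_cast
    ring
  rw [e7, ← e5]
  field_simp

/-- the conjugation relation `X ∘ φ = q X` -/
lemma Hyp.cross (h : Hyp c a ω₁ ω₂) {z : ℂ} (hz : ‖z‖ ≤ 1) (hz2 : z ≠ ω₂) :
    mob c a z ≠ ω₂ ∧ (mob c a z - ω₁) / (mob c a z - ω₂) = (qq a ω₁ : ℂ) * ((z - ω₁) / (z - ω₂)) := by
  have hA0 := den_ne h.ha h.h1.le
  have hB0 := den_ne h.ha h.h2.le
  have hz0 := den_ne h.ha hz
  have e1 := mob_sub (c := c) hz0 hA0
  have e2 := mob_sub (c := c) hz0 hB0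
  rw [h.f1] at e1
  rw [h.f2] at e2
  have hc0 : c ≠ 0 := by
    intro h0
    have := h.hc
    rw [h0] at this
    simp at this
  have ha0 : 1 - (starRingEnd ℂ) a * a ≠ 0 := den_ne h.ha h.ha.le
  have hzω : z - ω₂ ≠ 0 := sub_ne_zero.2 hz2
  have hne : mob c a z - ω₂ ≠ 0 := by
    rw [e2]
    apply div_ne_zero
    · exact mul_ne_zero (mul_ne_zero hc0 ha0) hzω
    · exact mul_ne_zero hz0 hB0
  refine ⟨sub_ne_zero.1 hne, ?_⟩
  have hr := h.ratio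
  rw [e1, e2]
  rw [hr] at e2 hB0 ⊢
  have hq0 : (qq a ω₁ : ℂ) ≠ 0 := by exact_mod_cast h.qq_pos.ne'
  field_simp

/-- choice of the square root `κ + i s` of `ω₁ / ω₂` -/
lemma exists_root (h1 : ‖ω₁‖ = 1) (h2 : ‖ω₂‖ = 1) (hne : ω₁ ≠ ω₂) :
    ∃ κ s : ℝ, 0 ≤ κ ∧ s ≠ 0 ∧ κ ^ 2 + s ^ 2 = 1 ∧ ω₁ = ω₂ * (κ + s * Complex.I) ^ 2 ∧
      κ = ‖ω₁ + ω₂‖ / 2 := by
  have h20 : ω₂ ≠ 0 := by
    intro h0
    rw [h0] at h2
    simp at h2
  obtain ⟨x, hx⟩ := IsAlgClosed.exists_pow_nat_eq (ω₁ / ω₂) (n := 2) (by norm_num)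
  -- sign choice
  obtain ⟨y, hy, hyre⟩ : ∃ y : ℂ, y ^ 2 = ω₁ / ω₂ ∧ 0 ≤ y.re := by
    rcases le_total 0 x.re with hre | hre
    · exact ⟨x, hx, hre⟩
    · exact ⟨-x, by rw [neg_sq, hx], by simpa using hre⟩
  have hyn : ‖y‖ = 1 := by
    have h3 : ‖y‖ ^ 2 = 1 := by
      rw [← norm_pow, hy, norm_div, h1, h2, div_one]
    have h4 := norm_nonneg y
    nlinarith
  have hy1 : (y.re : ℂ) + y.im * Complex.I = y := Complex.re_add_im y
  have hω : ω₁ = ω₂ * y ^ 2 := by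
    rw [hy]
    field_simp
  refine ⟨y.re, y.im, hyre, ?_, ?_, ?_, ?_⟩
  · intro him
    have h3 : y = (y.re : ℂ) := by
      rw [← hy1, him]
      simp
    have h4 : y.re ^ 2 = 1 := by
      have := Complex.sq_norm y
      rw [hyn, Complex.normSq_apply, him] at this
      nlinarith
    apply hne
    rw [hω, h3, ← Complex.ofReal_pow, h4]
    simp
  · have := Complex.sq_norm y
    rw [hyn, Complex.normSq_apply] at this
    nlinarith
  · rw [hy1]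
    exact hω
  · have h5 : ω₁ + ω₂ = ω₂ * y * (y + (starRingEnd ℂ) y) := by
      have h6 := conj_mul_self_of_norm hyn
      rw [hω]
      calc ω₂ * y ^ 2 + ω₂ = ω₂ * y ^ 2 + ω₂ * (y * (starRingEnd ℂ) y) := by rw [h6, mul_one]
        _ = _ := by ring
    rw [h5, norm_mul, norm_mul, h2, hyn, Complex.add_conj, Complex.norm_real, one_mul, one_mul,
      Real.norm_of_nonneg (by linarith)]
    ring

end

end Pool.Agent.helper30.NR
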