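import Mathlib
import Pool.Agent.helper68.Cyc.Parseval

set_option autoImplicit false

namespace Pool.Agent.helper30.NR

open Complex Real Filter Topology MeasureTheory
open Pool.Agent.helper68.Cyc (cis norm_cis continuous_cis parseval continuous_tsum_cis)

noncomputable section

/-- `f` is a bounded function on the unit disc with Taylor coefficients `a` and with radial
limits `f (cis θ)` for almost all `θ` -/
structure BH (f : ℂ → ℂ) (a : ℕ → ℂ) : Prop where
  hs : ∀ z : ℂ, ‖z‖ < 1 → HasSum (fun n => a n * z ^ n) (f z)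
  bd : ∃ M : ℝ, ∀ z : ℂ, ‖z‖ < 1 → ‖f z‖ ≤ M
  lim : ∀ᵐ θ : ℝ, Tendsto (fun r : ℝ => f (r * cis θ)) (𝓝[<] 1) (𝓝 (f (cis θ)))

lemma BH.add {f g : ℂ → ℂ} {a b : ℕ → ℂ} (hf : BH f a) (hg : BH g b) :
    BH (fun z => f z + g z) (fun n => a n + b n) := by
  refine ⟨fun z hz => ?_, ?_, ?_⟩
  · have := (hf.hs z hz).add (hg.hs z hz)
    simpa [add_mul] using this
  · obtain ⟨M, hM⟩ := hf.bd
    obtain ⟨M', hM'⟩ := hg.bd
    exact ⟨M + M', fun z hz => (norm_add_le _ _).trans (add_le_add (hM z hz) (hM' z hz))⟩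
  · filter_upwards [hf.lim, hg.lim] with θ h1 h2 using h1.add h2

lemma BH.smul {f : ℂ → ℂ} {a : ℕ → ℂ} (c : ℂ) (hf : BH f a) :
    BH (fun z => c * f z) (fun n => c * a n) := by
  refine ⟨fun z hz => ?_, ?_, ?_⟩
  · have := (hf.hs z hz).mul_left c
    simpa [mul_assoc] using this
  · obtain ⟨M, hM⟩ := hf.bd
    refine ⟨‖c‖ * M, fun z hz => ?_⟩
    rw [norm_mul]
    exact mul_le_mul_of_nonneg_left (hM z hz) (norm_nonneg _)
  · filter_upwards [hf.lim] with θ h1 using h1.const_mul c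

/-- summability on smaller circles -/
lemma summable_of_hasSum {f : ℂ → ℂ} {a : ℕ → ℂ} (hs : ∀ z : ℂ, ‖z‖ < 1 → HasSum (fun n => a n * z ^ n) (f z))
    {r : ℝ} (h0 : 0 ≤ r) (h1 : r < 1) : Summable (fun n => ‖a n‖ * r ^ n) := by
  obtain ⟨s, hs1, hs2⟩ := exists_between h1
  have hs0 : 0 < s := lt_of_le_of_lt h0 hs1
  have h2 := (hs (s : ℂ) (by rw [Complex.norm_real, Real.norm_of_nonneg hs0.le]; exact hs2)).summable
  have h3 := h2.tendsto_atTop_zero.norm
  rw [norm_zero] at h3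
  have h4 : ∀ᶠ n in atTop, ‖a n * (s:ℂ) ^ n‖ < 1 := h3.eventually (gt_mem_nhds one_pos)
  have h5 : Summable (fun n : ℕ => (r / s) ^ n) :=
    summable_geometric_of_lt_one (by positivity) ((div_lt_one hs0).2 hs1)
  refine Summable.of_norm_bounded_eventually_nat h5 ?_
  filter_upwards [h4] with n hn
  rw [norm_mul, norm_pow, Complex.norm_real, Real.norm_of_nonneg hs0.le] at hn
  rw [Real.norm_of_nonneg (by positivity)]
  have h6 : ‖a n‖ * r ^ n = (‖a n‖ * s ^ n) * (r / s) ^ n := by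
    rw [div_pow]
    field_simp
  rw [h6]
  calc (‖a n‖ * s ^ n) * (r / s) ^ n ≤ 1 * (r / s) ^ n :=
        mul_le_mul_of_nonneg_right hn.le (by positivity)
    _ = _ := one_mul _

lemma parseval_radius {f : ℂ → ℂ} {a : ℕ → ℂ} (hs : ∀ z : ℂ, ‖z‖ < 1 → HasSum (fun n => a n * z ^ n) (f z))
    {r : ℝ} (h0 : 0 ≤ r) (h1 : r < 1) :
    Summable (fun n => ‖a n‖ ^ 2 * (r ^ n) ^ 2) ∧
    ∫ θ in (0 : ℝ)..(2 * Real.pi), ‖f (r * cis θ)‖ ^ 2 = 2 * Real.pi * ∑' n, ‖a n‖ ^ 2 * (r ^ n) ^ 2 := by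
  have h2 := summable_of_hasSum hs h0 h1
  have h3 : Summable (fun n => ‖a n * (r:ℂ) ^ n‖) := by
    simpa [norm_mul, norm_pow, Complex.norm_real, Real.norm_of_nonneg h0] using h2
  have h4 := parseval h3
  have h5 : ∀ n, ‖a n * (r:ℂ) ^ n‖ ^ 2 = ‖a n‖ ^ 2 * (r ^ n) ^ 2 := by
    intro n
    rw [norm_mul, norm_pow, Complex.norm_real, Real.norm_of_nonneg h0, mul_pow]
  simp_rw [h5] at h4
  refine ⟨h4.1, ?_⟩
  rw [← h4.2]
  congr 1
  funext θ
  have h6 : ‖(r:ℂ) * cis θ‖ < 1 := by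
    rw [norm_mul, norm_cis, mul_one, Complex.norm_real, Real.norm_of_nonneg h0]
    exact h1
  rw [← (hs _ h6).tsum_eq]
  congr 3
  funext n
  rw [mul_pow]
  ring

lemma continuous_circle {f : ℂ → ℂ} {a : ℕ → ℂ} (hs : ∀ z : ℂ, ‖z‖ < 1 → HasSum (fun n => a n * z ^ n) (f z))
    {r : ℝ} (h0 : 0 ≤ r) (h1 : r < 1) : Continuous (fun θ : ℝ => f (r * cis θ)) := by
  have h2 := summable_of_hasSum hs h0 h1
  have h3 : Summable (fun n => ‖a n * (r:ℂ) ^ n‖) := by
    simpa [norm_mul, norm_pow, Complex.norm_real, Real.norm_of_nonneg h0] using h2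
  have h4 := continuous_tsum_cis h3
  convert h4 using 1
  funext θ
  have h6 : ‖(r:ℂ) * cis θ‖ < 1 := by
    rw [norm_mul, norm_cis, mul_one, Complex.norm_real, Real.norm_of_nonneg h0]
    exact h1
  rw [← (hs _ h6).tsum_eq]
  congr 1
  funext n
  rw [mul_pow]
  ring

/-- radii tending to one -/
def rk (k : ℕ) : ℝ := 1 - 1 / ((k : ℝ) + 2)

lemma rk_nonneg (k : ℕ) : 0 ≤ rk k := by
  unfold rk
  have : (1:ℝ) / ((k:ℝ) + 2) ≤ 1 := by
    rw [div_le_one (by positivity)]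
    have : (0:ℝ) ≤ k := Nat.cast_nonneg k
    linarith
  linarith

lemma rk_lt_one (k : ℕ) : rk k < 1 := by
  unfold rk
  have : (0:ℝ) < 1 / ((k:ℝ) + 2) := by positivity
  linarith

lemma tendsto_rk : Tendsto rk atTop (𝓝[<] 1) := by
  rw [tendsto_nhdsWithin_iff]
  refine ⟨?_, Eventually.of_forall fun k => rk_lt_one k⟩
  have h1 : Tendsto (fun k : ℕ => (1:ℝ) / ((k:ℝ) + 2)) atTop (𝓝 0) := by
    have h2 := tendsto_one_div_add_atTop_nhds_zero_nat (𝕜 := ℝ)
    have h3 := (tendsto_add_atTop_iff_nat 1).2 h2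
    refine h3.congr fun k => ?_
    push_cast
    ring
  have := (tendsto_const_nhds (x := (1:ℝ))).sub h1
  rw [sub_zero] at this
  exact this

theorem BH.norm_identity {f : ℂ → ℂ} {a : ℕ → ℂ} (h : BH f a) :
    Summable (fun n => ‖a n‖ ^ 2) ∧
    IntervalIntegrable (fun θ => ‖f (cis θ)‖ ^ 2) volume 0 (2 * Real.pi) ∧
    ∫ θ in (0 : ℝ)..(2 * Real.pi), ‖f (cis θ)‖ ^ 2 = 2 * Real.pi * ∑' n, ‖a n‖ ^ 2 := by
  obtain ⟨M, hM⟩ := h.bd
  have hM0 : 0 ≤ M := (norm_nonneg _).trans (hM 0 (by simp))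
  have hlt : ∀ k (θ : ℝ), ‖(rk k : ℂ) * cis θ‖ < 1 := by
    intro k θ
    rw [norm_mul, norm_cis, mul_one, Complex.norm_real, Real.norm_of_nonneg (rk_nonneg k)]
    exact rk_lt_one k
  have hae : ∀ᵐ θ : ℝ, Tendsto (fun k : ℕ => f (rk k * cis θ)) atTop (𝓝 (f (cis θ))) := by
    filter_upwards [h.lim] with θ hθ using hθ.comp tendsto_rk
  have hmeas : AEStronglyMeasurable (fun θ : ℝ => f (cis θ)) volume :=
    aestronglyMeasurable_of_tendsto_ae atTop
      (fun k => (continuous_circle h.hs (rk_nonneg k) (rk_lt_one k)).aestronglyMeasurable) hae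
  have hbound : ∀ᵐ θ : ℝ, ‖f (cis θ)‖ ≤ M := by
    filter_upwards [hae] with θ hθ
    exact le_of_tendsto hθ.norm (Eventually.of_forall fun k => hM _ (hlt k θ))
  have hint : IntervalIntegrable (fun θ => ‖f (cis θ)‖ ^ 2) volume 0 (2 * Real.pi) := by
    rw [intervalIntegrable_iff]
    refine Measure.integrableOn_of_bounded (M := M ^ 2)
      ((measure_mono Set.uIoc_subset_uIcc).trans_lt isCompact_uIcc.measure_lt_top).ne ?_ ?_
    · exact (hmeas.norm.pow 2)
    · refine ae_restrict_of_ae ?_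
      filter_upwards [hbound] with θ hθ
      rw [Real.norm_of_nonneg (by positivity)]
      exact pow_le_pow_left₀ (norm_nonneg _) hθ 2
  have hlim : Tendsto (fun k => ∫ θ in (0 : ℝ)..(2 * Real.pi), ‖f (rk k * cis θ)‖ ^ 2) atTop
      (𝓝 (∫ θ in (0 : ℝ)..(2 * Real.pi), ‖f (cis θ)‖ ^ 2)) := by
    apply intervalIntegral.tendsto_integral_filter_of_dominated_convergence (fun _ => M ^ 2)
    · refine Eventually.of_forall fun k => ?_
      exact ((continuous_circle h.hs (rk_nonneg k) (rk_lt_one k)).norm.pow 2).aestronglyMeasurable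
    · refine Eventually.of_forall fun k => Eventually.of_forall fun θ _ => ?_
      rw [Real.norm_of_nonneg (by positivity)]
      exact pow_le_pow_left₀ (norm_nonneg _) (hM _ (hlt k θ)) 2
    · exact intervalIntegrable_const
    · filter_upwards [hae] with θ hθ _ using hθ.norm.pow 2
  have hpar := fun k => parseval_radius h.hs (rk_nonneg k) (rk_lt_one k)
  have hble : ∀ k, ∑' n, ‖a n‖ ^ 2 * (rk k ^ n) ^ 2 ≤ M ^ 2 := by
    intro k
    have h1 : ∫ θ in (0 : ℝ)..(2 * Real.pi), ‖f (rk k * cis θ)‖ ^ 2 ≤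
        ∫ θ in (0 : ℝ)..(2 * Real.pi), M ^ 2 := by
      apply intervalIntegral.integral_mono_on (by positivity)
      · exact ((continuous_circle h.hs (rk_nonneg k) (rk_lt_one k)).norm.pow 2).intervalIntegrable _ _
      · exact intervalIntegrable_const
      · intro θ _
        exact pow_le_pow_left₀ (norm_nonneg _) (hM _ (hlt k θ)) 2
    rw [(hpar k).2] at h1
    rw [intervalIntegral.integral_const, sub_zero, smul_eq_mul] at h1
    have hpi : 0 < 2 * Real.pi := by positivity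
    exact le_of_mul_le_mul_left h1 hpi
  have hrk1 : Tendsto rk atTop (𝓝 1) := tendsto_rk.mono_right nhdsWithin_le_nhds
  have hsum : Summable (fun n => ‖a n‖ ^ 2) := by
    refine summable_of_sum_le (c := M ^ 2) (fun n => by positivity) fun s => ?_
    have h2 : Tendsto (fun k => ∑ n ∈ s, ‖a n‖ ^ 2 * (rk k ^ n) ^ 2) atTop
        (𝓝 (∑ n ∈ s, ‖a n‖ ^ 2 * (1 ^ n) ^ 2)) :=
      tendsto_finsetSum _ fun n _ => ((hrk1.pow n).pow 2).const_mul _
    simp only [one_pow, mul_one] at h2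
    refine le_of_tendsto h2 (Eventually.of_forall fun k => ?_)
    exact ((hpar k).1.sum_le_tsum s (fun n _ => by positivity)).trans (hble k)
  refine ⟨hsum, hint, ?_⟩
  have hlim2 : Tendsto (fun k => ∑' n, ‖a n‖ ^ 2 * (rk k ^ n) ^ 2) atTop (𝓝 (∑' n, ‖a n‖ ^ 2)) := by
    apply tendsto_tsum_of_dominated_convergence hsum
    · intro n
      have := ((hrk1.pow n).pow 2).const_mul (‖a n‖ ^ 2)
      simpa using this
    · refine Eventually.of_forall fun k n => ?_
      rw [Real.norm_of_nonneg (by positivity)]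
      have h3 : (rk k ^ n) ^ 2 ≤ 1 := by
        apply pow_le_one₀ (pow_nonneg (rk_nonneg k) n)
        exact pow_le_one₀ (rk_nonneg k) (rk_lt_one k).le
      calc ‖a n‖ ^ 2 * (rk k ^ n) ^ 2 ≤ ‖a n‖ ^ 2 * 1 := mul_le_mul_of_nonneg_left h3 (by positivity)
        _ = _ := mul_one _
  have hlim3 := hlim2.const_mul (2 * Real.pi)
  refine tendsto_nhds_unique hlim ?_
  refine hlim3.congr fun k => ((hpar k).2).symm

/-- `H²` as the space of coefficient sequences -/
abbrev H2 := lp (fun _ : ℕ => ℂ) 2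

lemma lp_add (A B : H2) (n : ℕ) : (A + B) n = A n + B n := rfl
lemma lp_sub (A B : H2) (n : ℕ) : (A - B) n = A n - B n := rfl
lemma lp_smul (c : ℂ) (B : H2) (n : ℕ) : (c • B) n = c * B n := rfl

lemma lp_norm_sq (A : H2) : ‖A‖ ^ 2 = ∑' n, ‖A n‖ ^ 2 := by
  have h1 := lp.norm_rpow_eq_tsum (p := 2) (by norm_num) A
  simp only [ENNReal.toReal_ofNat] at h1
  exact_mod_cast h1

lemma cis_eq (θ : ℝ) : circleMap 0 1 θ = cis θ := by
  simp [circleMap, cis]

/-- average over the unit circle of the boundary function -/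
theorem BH.norm_sq_eq {f : ℂ → ℂ} {a : ℕ → ℂ} (h : BH f a) (A : H2) (hA : ∀ n, A n = a n) :
    CircleIntegrable (fun z => ‖f z‖ ^ 2) 0 1 ∧
    ‖A‖ ^ 2 = Real.circleAverage (fun z => ‖f z‖ ^ 2) 0 1 := by
  obtain ⟨h1, h2, h3⟩ := h.norm_identity
  constructor
  · unfold CircleIntegrable
    simp_rw [cis_eq]
    exact h2
  · rw [lp_norm_sq]
    simp_rw [hA]
    unfold Real.circleAverage
    simp_rw [cis_eq]
    rw [h3, smul_eq_mul]
    field_simp

theorem BH.inner_eq {f g : ℂ → ℂ} {a b : ℕ → ℂ} (hf : BH f a) (hg : BH g b) (A B : H2)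
    (hA : ∀ n, A n = a n) (hB : ∀ n, B n = b n) :
    inner ℂ A B = Real.circleAverage (fun z => (starRingEnd ℂ) (f z) * g z) 0 1 := by
  have e1 := (hf.add hg).norm_sq_eq (A + B) (fun n => by rw [lp_add, hA, hB])
  have e2 := (hf.add (hg.smul (-1))).norm_sq_eq (A - B) (fun n => by rw [lp_sub, hA, hB]; ring)
  have e3 := (hf.add (hg.smul (-Complex.I))).norm_sq_eq (A - Complex.I • B)
    (fun n => by rw [lp_sub, lp_smul, hA, hB]; ring)
  have e4 := (hf.add (hg.smul Complex.I)).norm_sq_eq (A + Complex.I • B)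
    (fun n => by rw [lp_add, lp_smul, hA, hB])
  rw [inner_eq_sum_norm_sq_div_four]
  have h1 : ∀ z, (starRingEnd ℂ) (f z) * g z = (1 / 4 : ℂ) * (((‖f z + g z‖ ^ 2 : ℝ) : ℂ)) +
      (-(1 / 4) : ℂ) * ((‖f z + -1 * g z‖ ^ 2 : ℝ) : ℂ) +
      (Complex.I / 4) * ((‖f z + -Complex.I * g z‖ ^ 2 : ℝ) : ℂ) +
      (-(Complex.I / 4)) * ((‖f z + Complex.I * g z‖ ^ 2 : ℝ) : ℂ) := by
    intro z
    have := inner_eq_sum_norm_sq_div_four (𝕜 := ℂ) (f z) (g z)
    rw [RCLike.inner_apply, mul_comm] at this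
    rw [this]
    simp only [smul_eq_mul]
    have e5 : f z + -1 * g z = f z - g z := by ring
    have e6 : f z + -Complex.I * g z = f z - RCLike.I * g z := by simp; ring
    have e7 : f z + Complex.I * g z = f z + RCLike.I * g z := by simp
    rw [e5, e6, e7]
    simp
    ring
  have hcast : ∀ (F : ℂ → ℝ) (c : ℂ), CircleIntegrable F 0 1 →
      CircleIntegrable (fun z => c * (F z : ℂ)) 0 1 ∧
      Real.circleAverage (fun z => c * (F z : ℂ)) 0 1 = c * (Real.circleAverage F 0 1 : ℝ) := by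
    intro F c hF
    constructor
    · exact ⟨hF.1.ofReal.const_mul c, hF.2.ofReal.const_mul c⟩
    · have h2 := Real.circleAverage_fun_smul (a := c) (f := fun z => (F z : ℂ)) (c := 0) (R := 1)
      simp only [smul_eq_mul] at h2
      rw [h2]
      congr 1
      have h3 := Complex.ofRealCLM.circleAverage_comp_comm hF
      simpa [Function.comp_def] using h3
  have c1 := hcast _ (1 / 4) e1.1
  have c2 := hcast _ (-(1 / 4)) e2.1
  have c3 := hcast _ (Complex.I / 4) e3.1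
  have c4 := hcast _ (-(Complex.I / 4)) e4.1
  have h5 : (fun z => (starRingEnd ℂ) (f z) * g z) =
      ((fun z => (1 / 4 : ℂ) * (((‖f z + g z‖ ^ 2 : ℝ) : ℂ))) +
      (fun z => (-(1 / 4) : ℂ) * ((‖f z + -1 * g z‖ ^ 2 : ℝ) : ℂ)) +
      (fun z => (Complex.I / 4) * ((‖f z + -Complex.I * g z‖ ^ 2 : ℝ) : ℂ))) +
      (fun z => (-(Complex.I / 4)) * ((‖f z + Complex.I * g z‖ ^ 2 : ℝ) : ℂ)) := funext h1
  rw [h5, Real.circleAverage_add ((c1.1.add c2.1).add c3.1) c4.1,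
    Real.circleAverage_add (c1.1.add c2.1) c3.1, Real.circleAverage_add c1.1 c2.1,
    c1.2, c2.2, c3.2, c4.2, ← e1.2, ← e2.2, ← e3.2, ← e4.2]
  simp
  ring

end

end Pool.Agent.helper30.NR
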