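import Mathlib
import Pool.Agent.helper30.NR.Mob
import Pool.Agent.helper30.NR.Series

set_option autoImplicit false

namespace Pool.Agent.helper30.NR

open Complex Filter Topology MeasureTheory
open Pool.Agent.helper68.Cyc (cis norm_cis continuous_cis)

noncomputable section

/-- the sign of `s` -/
def sg (s : ℝ) : ℝ := s / |s|

lemma sg_cases {s : ℝ} (hs : s ≠ 0) : sg s = 1 ∨ sg s = -1 := by
  unfold sg
  rcases lt_or_gt_of_ne hs with h | h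
  · right
    rw [abs_of_neg h]
    field_simp
  · left
    rw [abs_of_pos h]
    field_simp

lemma sg_mul {s : ℝ} (hs : s ≠ 0) : sg s * s = |s| := by
  unfold sg
  have : |s| ≠ 0 := abs_ne_zero.2 hs
  rw [div_mul_eq_mul_div, div_eq_iff this, ← sq, ← sq, sq_abs]

/-- the coordinate of the right half plane -/
def WW (ω₁ ω₂ : ℂ) (κ s : ℝ) (z : ℂ) : ℂ :=
  (-(Complex.I * sg s) * (κ - s * Complex.I)) * ((z - ω₁) / (z - ω₂))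

variable {c a ω₁ ω₂ : ℂ} {κ s : ℝ}

/-- real and imaginary part of `WW` -/
lemma WW_parts (h2 : ‖ω₂‖ = 1) (hs : s ≠ 0) (h1 : κ ^ 2 + s ^ 2 = 1) (hr : ω₁ = ω₂ * (κ + s * Complex.I) ^ 2)
    {z : ℂ} (hz : z ≠ ω₂) :
    (WW ω₁ ω₂ κ s z).re * ‖z - ω₂‖ ^ 2 = |s| * (1 - ‖z‖ ^ 2) := by
  -- pass to `ζ = z / ω₂`
  have hω := conj_mul_self_of_norm h2
  have hne : z - ω₂ ≠ 0 := sub_ne_zero.2 hz
  have hcne : (starRingEnd ℂ) (z - ω₂) ≠ 0 := (map_ne_zero _).2 hne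
  set ζ : ℂ := z * (starRingEnd ℂ) ω₂ with hζ
  have hζn : ‖ζ‖ = ‖z‖ := by rw [hζ, norm_mul, RCLike.norm_conj, h2, mul_one]
  have hn2 : ((‖z - ω₂‖ ^ 2 : ℝ) : ℂ) = (z - ω₂) * (starRingEnd ℂ) (z - ω₂) := by
    rw [Complex.mul_conj, Complex.normSq_eq_norm_sq]
  have e1 : WW ω₁ ω₂ κ s z * ((‖z - ω₂‖ ^ 2 : ℝ) : ℂ) =
      (-(Complex.I * sg s) * (κ - s * Complex.I)) * ((ζ - (κ + s * Complex.I) ^ 2) * ((starRingEnd ℂ) ζ - 1)) := by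
    rw [hn2]
    unfold WW
    have e2 : (z - ω₁) / (z - ω₂) * ((z - ω₂) * (starRingEnd ℂ) (z - ω₂)) =
        (z - ω₁) * (starRingEnd ℂ) (z - ω₂) := by
      field_simp
    rw [mul_assoc, e2]
    congr 1
    rw [hr, hζ, map_sub, map_mul, Complex.conj_conj]
    have e3 : (z * (starRingEnd ℂ) ω₂ - (κ + s * Complex.I) ^ 2) * ((starRingEnd ℂ) z * ω₂ - 1) =
        (z * (starRingEnd ℂ) ω₂ - (κ + s * Complex.I) ^ 2) * ((starRingEnd ℂ) z * ω₂ - ω₂ * (starRingEnd ℂ) ω₂) := by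
      rw [hω]
    rw [e3]
    have e4 : (z - ω₂ * (κ + s * Complex.I) ^ 2) * ((starRingEnd ℂ) z - (starRingEnd ℂ) ω₂) =
        (ω₂ * (starRingEnd ℂ) ω₂) * ((z - ω₂ * (κ + s * Complex.I) ^ 2) * ((starRingEnd ℂ) z - (starRingEnd ℂ) ω₂)) := by
      rw [hω, one_mul]
    rw [e4]
    have e5 : (z * (starRingEnd ℂ) ω₂ - (κ + s * Complex.I) ^ 2) =
        (starRingEnd ℂ) ω₂ * (z - ω₂ * (κ + s * Complex.I) ^ 2) := by
      calc (z * (starRingEnd ℂ) ω₂ - (κ + s * Complex.I) ^ 2)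
          = z * (starRingEnd ℂ) ω₂ - 1 * (κ + s * Complex.I) ^ 2 := by rw [one_mul]
        _ = z * (starRingEnd ℂ) ω₂ - (ω₂ * (starRingEnd ℂ) ω₂) * (κ + s * Complex.I) ^ 2 := by rw [hω]
        _ = _ := by ring
    rw [e5]
    ring
  have e6 : (WW ω₁ ω₂ κ s z).re * ‖z - ω₂‖ ^ 2 = (WW ω₁ ω₂ κ s z * ((‖z - ω₂‖ ^ 2 : ℝ) : ℂ)).re := by
    rw [Complex.mul_re, Complex.ofReal_re, Complex.ofReal_im]
    ring
  rw [e6, e1, ← hζn, Complex.sq_norm, Complex.normSq_apply, ← sg_mul hs]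
  simp only [pow_two, Complex.mul_re, Complex.mul_im, Complex.neg_re, Complex.neg_im, Complex.I_re, Complex.I_im,
    Complex.ofReal_re, Complex.ofReal_im, Complex.sub_re, Complex.sub_im, Complex.add_re, Complex.add_im,
    Complex.conj_re, Complex.conj_im, Complex.one_re, Complex.one_im]
  have hκ : κ * κ = 1 - s * s := by nlinarith
  ring_nf
  have hκ2 : κ ^ 2 = 1 - s ^ 2 := by linarith
  have hκ3 : κ ^ 3 = κ * (1 - s ^ 2) := by rw [← hκ2]; ring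
  rw [hκ3, hκ2]
  ring

lemma WW_re_pos (h2 : ‖ω₂‖ = 1) (hs : s ≠ 0) (h1 : κ ^ 2 + s ^ 2 = 1) (hr : ω₁ = ω₂ * (κ + s * Complex.I) ^ 2)
    {z : ℂ} (hz : ‖z‖ < 1) : 0 < (WW ω₁ ω₂ κ s z).re := by
  have hne : z ≠ ω₂ := by
    rintro rfl
    rw [h2] at hz
    exact lt_irrefl _ hz
  have h3 := WW_parts h2 hs h1 hr hne
  have h4 : 0 < ‖z - ω₂‖ ^ 2 := pow_pos (norm_pos_iff.2 (sub_ne_zero.2 hne)) 2
  have h5 : 0 < |s| * (1 - ‖z‖ ^ 2) := by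
    have : 0 < |s| := abs_pos.2 hs
    have : 0 < 1 - ‖z‖ ^ 2 := by nlinarith [norm_nonneg z]
    positivity
  rw [← h3] at h5
  exact (pos_iff_pos_of_mul_pos h5).2 h4

lemma WW_re_zero (h2 : ‖ω₂‖ = 1) (hs : s ≠ 0) (h1 : κ ^ 2 + s ^ 2 = 1) (hr : ω₁ = ω₂ * (κ + s * Complex.I) ^ 2)
    {z : ℂ} (hz : ‖z‖ = 1) (hne : z ≠ ω₂) : (WW ω₁ ω₂ κ s z).re = 0 := by
  have h3 := WW_parts h2 hs h1 hr hne
  have h4 : 0 < ‖z - ω₂‖ ^ 2 := pow_pos (norm_pos_iff.2 (sub_ne_zero.2 hne)) 2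
  rw [hz] at h3
  simp only [one_pow, sub_self, mul_zero] at h3
  rcases mul_eq_zero.1 h3 with h | h
  · exact h
  · exact absurd h h4.ne'

lemma x0_ne (hs : s ≠ 0) : ((κ : ℂ) - s * Complex.I) ≠ 0 := by
  intro h
  have := congrArg Complex.im h
  simp at this
  exact hs this

lemma sg_ne (hs : s ≠ 0) : (sg s : ℂ) ≠ 0 := by
  rcases sg_cases hs with h | h <;> rw [h] <;> norm_num

lemma WW_ne_zero (hs : s ≠ 0) {z : ℂ} (hz1 : z ≠ ω₁) (hz2 : z ≠ ω₂) : WW ω₁ ω₂ κ s z ≠ 0 := by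
  unfold WW
  apply mul_ne_zero
  · exact mul_ne_zero (neg_ne_zero.2 (mul_ne_zero Complex.I_ne_zero (sg_ne hs))) (x0_ne hs)
  · exact div_ne_zero (sub_ne_zero.2 hz1) (sub_ne_zero.2 hz2)

lemma WW_slit_boundary (h2 : ‖ω₂‖ = 1) (hs : s ≠ 0) (h1 : κ ^ 2 + s ^ 2 = 1)
    (hr : ω₁ = ω₂ * (κ + s * Complex.I) ^ 2) {z : ℂ} (hz : ‖z‖ = 1) (hz1 : z ≠ ω₁) (hz2 : z ≠ ω₂) :
    WW ω₁ ω₂ κ s z ∈ Complex.slitPlane := by
  rw [Complex.mem_slitPlane_iff]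
  right
  intro him
  apply WW_ne_zero (κ := κ) hs hz1 hz2
  exact Complex.ext (WW_re_zero h2 hs h1 hr hz hz2) him

lemma WW_mob (h : Hyp c a ω₁ ω₂) {z : ℂ} (hz : ‖z‖ ≤ 1) (hz2 : z ≠ ω₂) :
    WW ω₁ ω₂ κ s (mob c a z) = (qq a ω₁ : ℂ) * WW ω₁ ω₂ κ s z := by
  unfold WW
  rw [(h.cross hz hz2).2]
  ring

lemma ZZ_den_ne (hs : s ≠ 0) (x : ℝ) : (x : ℂ) - (κ - s * Complex.I) ≠ 0 := by
  intro h
  have := congrArg Complex.im h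
  simp at this
  exact hs this

lemma ZZ_norm {ω : ℂ} (hω : ‖ω‖ = 1) (hs : s ≠ 0) (x : ℝ) : ‖ZZ ω κ s x‖ = 1 := by
  unfold ZZ
  rw [norm_div, norm_mul, hω, one_mul]
  have h1 : (x : ℂ) - (κ + s * Complex.I) = (starRingEnd ℂ) ((x : ℂ) - (κ - s * Complex.I)) := by
    simp
  rw [h1, RCLike.norm_conj]
  exact div_self (norm_ne_zero_iff.2 (ZZ_den_ne hs x))

lemma ZZ_sub_two {ω : ℂ} (hs : s ≠ 0) (x : ℝ) :
    ZZ ω κ s x - ω = ω * (-(2 * s * Complex.I)) / ((x : ℂ) - (κ - s * Complex.I)) := by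
  unfold ZZ
  have := ZZ_den_ne (κ := κ) hs x
  rw [div_sub' this]
  congr 1
  ring

lemma ZZ_ne {ω : ℂ} (hω : ‖ω‖ = 1) (hs : s ≠ 0) (x : ℝ) : ZZ ω κ s x ≠ ω := by
  rw [← sub_ne_zero, ZZ_sub_two hs]
  have hω0 : ω ≠ 0 := by
    intro h0
    rw [h0] at hω
    simp at hω
  have hs' : (s : ℂ) ≠ 0 := by exact_mod_cast hs
  apply div_ne_zero _ (ZZ_den_ne hs x)
  apply mul_ne_zero hω0
  simp [hs']

/-- `(Z x - ω₁) / (Z x - ω₂) = x₀ x` -/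
lemma ZZ_cross (h2 : ‖ω₂‖ = 1) (hs : s ≠ 0) (h1 : κ ^ 2 + s ^ 2 = 1)
    (hr : ω₁ = ω₂ * (κ + s * Complex.I) ^ 2) (x : ℝ) :
    (ZZ ω₂ κ s x - ω₁) / (ZZ ω₂ κ s x - ω₂) = (κ + s * Complex.I) * x := by
  have h3 := ZZ_den_ne (κ := κ) hs x
  have h4 := ZZ_ne (κ := κ) h2 hs x
  have hI : Complex.I ^ 2 = -1 := Complex.I_sq
  have h5 : (κ : ℂ) ^ 2 + (s : ℂ) ^ 2 = 1 := by exact_mod_cast h1
  rw [div_eq_iff (sub_ne_zero.2 h4), ZZ_sub_two hs]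
  unfold ZZ
  rw [hr, div_sub' h3, mul_div_assoc', div_left_inj' h3]
  linear_combination (-(ω₂ * ((x : ℂ) - (κ + s * Complex.I)))) * h5 +
    (ω₂ * ((x : ℂ) - (κ + s * Complex.I)) * (s : ℂ) ^ 2) * hI

lemma WW_ZZ (h2 : ‖ω₂‖ = 1) (hs : s ≠ 0) (h1 : κ ^ 2 + s ^ 2 = 1)
    (hr : ω₁ = ω₂ * (κ + s * Complex.I) ^ 2) (x : ℝ) :
    WW ω₁ ω₂ κ s (ZZ ω₂ κ s x) = -(Complex.I * sg s) * x := by
  unfold WW
  rw [ZZ_cross h2 hs h1 hr]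
  have hI : Complex.I ^ 2 = -1 := Complex.I_sq
  have h5 : (κ : ℂ) ^ 2 + (s : ℂ) ^ 2 = 1 := by exact_mod_cast h1
  linear_combination (-(Complex.I * (sg s : ℂ)) * x) * h5 + (Complex.I * (sg s : ℂ) * x * (s : ℂ) ^ 2) * hI

/-- `φ (Z x) = Z (q x)` -/
lemma mob_ZZ (h : Hyp c a ω₁ ω₂) (hs : s ≠ 0) (h1 : κ ^ 2 + s ^ 2 = 1)
    (hr : ω₁ = ω₂ * (κ + s * Complex.I) ^ 2) (x : ℝ) :
    mob c a (ZZ ω₂ κ s x) = ZZ ω₂ κ s (x * qq a ω₁) := by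
  have e1 := h.cross (ZZ_norm h.h2 hs x).le (ZZ_ne (κ := κ) h.h2 hs x)
  rw [ZZ_cross h.h2 hs h1 hr] at e1
  have e2 := ZZ_cross h.h2 hs h1 hr (x * qq a ω₁)
  have e3 := ZZ_ne (κ := κ) h.h2 hs (x * qq a ω₁)
  obtain ⟨e4, e5⟩ := e1
  have e6 : (mob c a (ZZ ω₂ κ s x) - ω₁) / (mob c a (ZZ ω₂ κ s x) - ω₂) =
      (ZZ ω₂ κ s (x * qq a ω₁) - ω₁) / (ZZ ω₂ κ s (x * qq a ω₁) - ω₂) := by
    rw [e5, e2]
    push_cast
    ring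
  rw [div_eq_div_iff (sub_ne_zero.2 e4) (sub_ne_zero.2 e3)] at e6
  have e7 : (mob c a (ZZ ω₂ κ s x) - ZZ ω₂ κ s (x * qq a ω₁)) * (ω₁ - ω₂) = 0 := by
    linear_combination e6
  rcases mul_eq_zero.1 e7 with e8 | e8
  · exact sub_eq_zero.1 e8
  · exact absurd (sub_eq_zero.1 e8) h.hne

end

end Pool.Agent.helper30.NR
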