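import Mathlib
import Pool.Agent.helper30.NR.Test
import Pool.Agent.helper30.NR.Gauss

set_option autoImplicit false

namespace Pool.Agent.helper30.NR

open Complex Filter Topology MeasureTheory
open Pool.Agent.helper68.Cyc (cis norm_cis continuous_cis)

noncomputable section

variable {c a ω₁ ω₂ : ℂ} {κ s : ℝ}

/-- the test function in the half plane coordinate -/
def TT (σ : ℝ) (N : ℕ) (G : ℂ → ℂ) (w : ℂ) : ℂ :=
  Complex.exp (Complex.I * N * σ * Complex.log w - N * (Real.pi / 2 : ℝ)) *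
    G (Complex.log w + Complex.I * σ * (Real.pi / 2 : ℝ))

lemma TT_exp_re (σ : ℝ) (N : ℕ) (w : ℂ) :
    (Complex.I * N * σ * Complex.log w - N * (Real.pi / 2 : ℝ)).re =
      -(N * (σ * Complex.arg w + Real.pi / 2)) := by
  simp [Complex.log_im]
  ring

lemma TT_arg_im (σ : ℝ) (w : ℂ) :
    (Complex.log w + Complex.I * σ * (Real.pi / 2 : ℝ)).im = Complex.arg w + σ * (Real.pi / 2) := by
  simp [Complex.log_im]

lemma TT_bound {σ : ℝ} (hσ : σ = 1 ∨ σ = -1) (N : ℕ) {G : ℂ → ℂ} {MG : ℝ}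
    (hMG : ∀ z : ℂ, |z.im| ≤ Real.pi → ‖G z‖ ≤ MG) {w : ℂ} (hw : 0 ≤ w.re) :
    ‖TT σ N G w‖ ≤ MG := by
  have harg := Complex.abs_arg_le_pi_div_two_iff.2 hw
  have harg' := abs_le.1 harg
  have h1 : 0 ≤ σ * Complex.arg w + Real.pi / 2 := by
    rcases hσ with h | h <;> rw [h] <;> linarith
  unfold TT
  rw [norm_mul, Complex.norm_exp, TT_exp_re]
  have h2 : Real.exp (-(N * (σ * Complex.arg w + Real.pi / 2))) ≤ 1 := by
    rw [Real.exp_le_one_iff]
    have : 0 ≤ (N:ℝ) * (σ * Complex.arg w + Real.pi / 2) := by positivity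
    linarith
  have h3 : ‖G (Complex.log w + Complex.I * σ * (Real.pi / 2 : ℝ))‖ ≤ MG := by
    apply hMG
    rw [TT_arg_im, abs_le]
    rcases hσ with h | h <;> rw [h] <;> constructor <;> linarith [Real.pi_pos]
  calc _ ≤ 1 * MG := mul_le_mul h2 h3 (norm_nonneg _) zero_le_one
    _ = MG := one_mul _

lemma TT_differentiableAt {σ : ℝ} {N : ℕ} {G : ℂ → ℂ} (hG : Differentiable ℂ G) {w : ℂ}
    (hw : w ∈ Complex.slitPlane) : DifferentiableAt ℂ (TT σ N G) w := by
  have h1 : DifferentiableAt ℂ Complex.log w := Complex.differentiableAt_log hw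
  unfold TT
  apply DifferentiableAt.mul
  · exact ((h1.const_mul _).sub_const _).cexp
  · exact (hG _).comp w (h1.add_const _)

lemma exists_taylor {f : ℂ → ℂ} (hf : DifferentiableOn ℂ f (Metric.ball 0 1)) :
    ∃ b : ℕ → ℂ, ∀ z : ℂ, ‖z‖ < 1 → HasSum (fun n => b n * z ^ n) (f z) := by
  refine ⟨fun n => ((n.factorial : ℂ))⁻¹ * iteratedDeriv n f 0, fun z hz => ?_⟩
  have h1 := Complex.hasSum_taylorSeries_on_ball (r := 1) hf (z := z) (by simpa using hz)
  refine h1.congr_fun ?_ |> fun h => h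
  intro n
  simp [smul_eq_mul]
  ring

lemma ae_cis_ne (ω : ℂ) : ∀ᵐ θ : ℝ, cis θ ≠ ω := by
  rw [ae_iff]
  push Not
  by_cases hex : ∃ α : ℝ, cis α = ω
  · obtain ⟨α, rfl⟩ := hex
    apply Set.Countable.measure_zero
    refine (Set.countable_range (fun n : ℤ => α + n * (2 * Real.pi))).mono ?_
    intro θ hθ
    have hθ' : Complex.exp (θ * Complex.I) = Complex.exp (α * Complex.I) := hθ
    obtain ⟨n, hn⟩ := Complex.exp_eq_exp_iff_exists_int.1 hθ'
    refine ⟨n, ?_⟩
    have h2 : (θ : ℂ) * Complex.I = ((α + n * (2 * Real.pi) : ℝ) : ℂ) * Complex.I := by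
      rw [hn]; push_cast; ring
    have h3 := mul_right_cancel₀ Complex.I_ne_zero h2
    exact_mod_cast h3.symm
  · have : {θ : ℝ | cis θ = ω} = ∅ := by
      ext θ
      simp only [Set.mem_ofPred_eq, Set.mem_empty_iff_false, iff_false]
      intro h
      exact hex ⟨θ, h⟩
    rw [this, measure_empty]

lemma tendsto_radial {f : ℂ → ℂ} {θ : ℝ} (h : ContinuousAt f (cis θ)) :
    Tendsto (fun r : ℝ => f (r * cis θ)) (𝓝[<] 1) (𝓝 (f (cis θ))) := by
  have h1 : Tendsto (fun r : ℝ => (r : ℂ) * cis θ) (𝓝[<] 1) (𝓝 (cis θ)) := by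
    have h2 : ContinuousAt (fun r : ℝ => (r : ℂ) * cis θ) 1 := by fun_prop
    have h3 := h2.tendsto
    simp only [Complex.ofReal_one, one_mul] at h3
    exact h3.mono_left nhdsWithin_le_nhds
  exact h.tendsto.comp h1

/-- the test function, with a dilation `t` in the half plane coordinate -/
def ft (ω₁ ω₂ : ℂ) (κ s : ℝ) (N : ℕ) (G : ℂ → ℂ) (t : ℝ) (z : ℂ) : ℂ :=
  TT (sg s) N G ((t : ℂ) * WW ω₁ ω₂ κ s z)

lemma WW_differentiableAt {z : ℂ} (hz : z ≠ ω₂) : DifferentiableAt ℂ (WW ω₁ ω₂ κ s) z := by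
  unfold WW
  apply DifferentiableAt.const_mul
  exact (differentiableAt_id.sub_const _).div (differentiableAt_id.sub_const _) (sub_ne_zero.2 hz)

lemma ft_differentiableAt {N : ℕ} {G : ℂ → ℂ} (hG : Differentiable ℂ G) {t : ℝ} {z : ℂ}
    (hz : z ≠ ω₂) (hw : (t : ℂ) * WW ω₁ ω₂ κ s z ∈ Complex.slitPlane) :
    DifferentiableAt ℂ (ft ω₁ ω₂ κ s N G t) z := by
  unfold ft
  exact (TT_differentiableAt hG hw).comp z ((WW_differentiableAt hz).const_mul _)

lemma slit_mul {t : ℝ} (ht : 0 < t) {w : ℂ} (hw : w ∈ Complex.slitPlane) : (t : ℂ) * w ∈ Complex.slitPlane := by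
  rw [Complex.mem_slitPlane_iff] at hw ⊢
  rw [Complex.re_ofReal_mul, Complex.im_ofReal_mul]
  rcases hw with h | h
  · left; positivity
  · right; exact mul_ne_zero ht.ne' h

lemma ft_facts (h2 : ‖ω₂‖ = 1) (hs : s ≠ 0) (h1 : κ ^ 2 + s ^ 2 = 1)
    (hr : ω₁ = ω₂ * (κ + s * Complex.I) ^ 2) {N : ℕ} {G : ℂ → ℂ} (hG : Differentiable ℂ G)
    {MG : ℝ} (hMG : ∀ z : ℂ, |z.im| ≤ Real.pi → ‖G z‖ ≤ MG) {t : ℝ} (ht : 0 < t) :
    DifferentiableOn ℂ (ft ω₁ ω₂ κ s N G t) (Metric.ball 0 1) ∧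
    (∀ z : ℂ, ‖z‖ < 1 → ‖ft ω₁ ω₂ κ s N G t z‖ ≤ MG) ∧
    (∀ᵐ θ : ℝ, Tendsto (fun r : ℝ => ft ω₁ ω₂ κ s N G t (r * cis θ)) (𝓝[<] 1)
      (𝓝 (ft ω₁ ω₂ κ s N G t (cis θ)))) := by
  refine ⟨?_, ?_, ?_⟩
  · intro z hz
    rw [mem_ball_zero_iff] at hz
    have hne : z ≠ ω₂ := by
      rintro rfl
      rw [h2] at hz
      exact lt_irrefl _ hz
    apply (ft_differentiableAt hG hne _).differentiableWithinAt
    apply slit_mul ht
    rw [Complex.mem_slitPlane_iff]
    left
    exact WW_re_pos h2 hs h1 hr hz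
  · intro z hz
    unfold ft
    apply TT_bound (sg_cases hs) N hMG
    rw [Complex.re_ofReal_mul]
    have := WW_re_pos h2 hs h1 hr hz
    positivity
  · filter_upwards [ae_cis_ne ω₁, ae_cis_ne ω₂] with θ hθ1 hθ2
    apply tendsto_radial
    apply (ft_differentiableAt hG hθ2 _).continuousAt
    exact slit_mul ht (WW_slit_boundary h2 hs h1 hr (norm_cis θ) hθ1 hθ2)

/-- logarithm on the imaginary axis -/
lemma log_axis_pos {σ : ℝ} (hσ : σ = 1 ∨ σ = -1) {y : ℝ} (hy : 0 < y) :
    Complex.log (-(Complex.I * σ) * y) = (Real.log y : ℂ) - Complex.I * σ * (Real.pi / 2 : ℝ) := by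
  rcases hσ with h | h
  · rw [h, show -(Complex.I * ((1:ℝ):ℂ)) * (y:ℂ) = (y:ℂ) * (-Complex.I) by push_cast; ring,
      Complex.log_ofReal_mul hy (neg_ne_zero.2 Complex.I_ne_zero), Complex.log_neg_I]
    push_cast
    ring
  · rw [h, show -(Complex.I * ((-1:ℝ):ℂ)) * (y:ℂ) = (y:ℂ) * Complex.I by push_cast; ring,
      Complex.log_ofReal_mul hy Complex.I_ne_zero, Complex.log_I]
    push_cast
    ring

lemma log_axis_neg {σ : ℝ} (hσ : σ = 1 ∨ σ = -1) {y : ℝ} (hy : y < 0) :
    Complex.log (-(Complex.I * σ) * y) = (Real.log |y| : ℂ) + Complex.I * σ * (Real.pi / 2 : ℝ) := by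
  have hy' : 0 < |y| := abs_pos.2 hy.ne
  rw [abs_of_neg hy] at hy' ⊢
  rcases hσ with h | h
  · rw [h, show -(Complex.I * ((1:ℝ):ℂ)) * (y:ℂ) = ((-y : ℝ):ℂ) * Complex.I by push_cast; ring,
      Complex.log_ofReal_mul hy' Complex.I_ne_zero, Complex.log_I]
    push_cast
    ring
  · rw [h, show -(Complex.I * ((-1:ℝ):ℂ)) * (y:ℂ) = ((-y : ℝ):ℂ) * (-Complex.I) by push_cast; ring,
      Complex.log_ofReal_mul hy' (neg_ne_zero.2 Complex.I_ne_zero), Complex.log_neg_I]
    push_cast
    ring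

lemma TT_pos {σ : ℝ} (hσ : σ = 1 ∨ σ = -1) (N : ℕ) {G : ℂ → ℂ} {γ : ℝ → ℝ} (hγ : ∀ x : ℝ, G x = γ x)
    {y : ℝ} (hy : 0 < y) :
    TT σ N G (-(Complex.I * σ) * y) = Complex.exp (Complex.I * N * σ * Real.log y) * γ (Real.log y) := by
  unfold TT
  rw [log_axis_pos hσ hy]
  have hσ2 : (σ : ℂ) ^ 2 = 1 := by
    rcases hσ with h | h <;> rw [h] <;> norm_num
  have hI : Complex.I ^ 2 = -1 := Complex.I_sq
  congr 1
  · congr 1
    linear_combination (-(N * (Real.pi / 2 : ℝ) * (σ : ℂ) ^ 2)) * hI + (N * (Real.pi / 2 : ℝ)) * hσ2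
  · rw [← hγ]
    congr 1
    ring

lemma TT_neg {σ : ℝ} (hσ : σ = 1 ∨ σ = -1) (N : ℕ) {G : ℂ → ℂ}
    {y : ℝ} (hy : y < 0) :
    TT σ N G (-(Complex.I * σ) * y) = Complex.exp (Complex.I * N * σ * Real.log |y|) *
      Real.exp (-(N * Real.pi)) * G (Real.log |y| + Complex.I * σ * Real.pi) := by
  unfold TT
  rw [log_axis_neg hσ hy, Complex.ofReal_exp, ← Complex.exp_add]
  have hσ2 : (σ : ℂ) ^ 2 = 1 := by
    rcases hσ with h | h <;> rw [h] <;> norm_num
  have hI : Complex.I ^ 2 = -1 := Complex.I_sq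
  congr 1
  · congr 1
    push_cast
    linear_combination (N * ((Real.pi : ℂ) / 2) * (σ : ℂ) ^ 2) * hI - (N * ((Real.pi : ℂ) / 2)) * hσ2
  · congr 1
    push_cast
    ring

lemma memlp_of_summable {b : ℕ → ℂ} (h : Summable (fun n => ‖b n‖ ^ 2)) : Memℓp b 2 := by
  apply memℓp_gen
  simpa using h

lemma norm_coeff_le (A : H2) (n : ℕ) : ‖A n‖ ≤ ‖A‖ := lp.norm_apply_le_norm (by norm_num) A n

lemma hasSum_H2 (A : H2) {z : ℂ} (hz : ‖z‖ < 1) : HasSum (fun n => A n * z ^ n) (∑' n, A n * z ^ n) := by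
  apply Summable.hasSum
  apply Summable.of_norm
  refine Summable.of_nonneg_of_le (fun n => norm_nonneg _) (fun n => ?_)
    ((summable_geometric_of_lt_one (norm_nonneg z) hz).mul_left ‖A‖)
  rw [norm_mul, norm_pow]
  exact mul_le_mul_of_nonneg_right (norm_coeff_le A n) (by positivity)

/-- norm and inner product of a function and of its composition with `φ` -/
theorem pair_identity {C : H2 →L[ℂ] H2}
    (hC : ∀ (A : H2) (z : ℂ), ‖z‖ < 1 → ∑' n, (C A) n * z ^ n = ∑' n, A n * (mob c a z) ^ n)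
    (h : Hyp c a ω₁ ω₂) {f f₂ : ℂ → ℂ} (A : H2) (hf : BH f A)
    (hf₂ : ∀ z : ℂ, ‖z‖ < 1 → f₂ z = f (mob c a z))
    (hlim : ∀ᵐ θ : ℝ, Tendsto (fun r : ℝ => f₂ (r * cis θ)) (𝓝[<] 1) (𝓝 (f₂ (cis θ)))) :
    BH f₂ (C A) ∧ ‖A‖ ^ 2 = Real.circleAverage (fun z => ‖f z‖ ^ 2) 0 1 ∧
    inner ℂ A (C A) = Real.circleAverage (fun z => (starRingEnd ℂ) (f z) * f₂ z) 0 1 := by
  have hBH : BH f₂ (C A) := by
    refine ⟨fun z hz => ?_, ?_, hlim⟩
    · have h1 := hasSum_H2 (C A) hz
      rw [hC A z hz, (hf.hs _ (mob_lt h.hc h.ha hz)).tsum_eq, ← hf₂ z hz] at h1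
      exact h1
    · obtain ⟨M, hM⟩ := hf.bd
      exact ⟨M, fun z hz => by rw [hf₂ z hz]; exact hM _ (mob_lt h.hc h.ha hz)⟩
  exact ⟨hBH, (hf.norm_sq_eq A (fun n => rfl)).2, hf.inner_eq hBH A (C A) (fun n => rfl) (fun n => rfl)⟩

lemma measurable_TT_axis {σ : ℝ} {N : ℕ} {G : ℂ → ℂ} (hG : Differentiable ℂ G) (t : ℝ) :
    Measurable (fun x : ℝ => TT σ N G (-(Complex.I * σ) * ((x * t : ℝ) : ℂ))) := by
  unfold TT
  have h1 : Measurable (fun x : ℝ => Complex.log (-(Complex.I * σ) * ((x * t : ℝ) : ℂ))) := by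
    apply Complex.measurable_log.comp
    fun_prop
  apply Measurable.mul
  · exact Complex.measurable_exp.comp ((h1.const_mul _).sub_const _)
  · exact hG.continuous.measurable.comp (h1.add_const _)

/-- the lower bound for functions `γ` on the half line -/
theorem lower_main {C : H2 →L[ℂ] H2}
    (hC : ∀ (A : H2) (z : ℂ), ‖z‖ < 1 → ∑' n, (C A) n * z ^ n = ∑' n, A n * (mob c a z) ^ n)
    (h : Hyp c a ω₁ ω₂) (hs : s ≠ 0) (h1 : κ ^ 2 + s ^ 2 = 1)
    (hr : ω₁ = ω₂ * (κ + s * Complex.I) ^ 2) {lam : ℝ}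
    (hlam : ∀ A : H2, ‖inner ℂ A (C A)‖ ≤ lam * ‖A‖ ^ 2) {G : ℂ → ℂ} (hG : Differentiable ℂ G)
    {γ : ℝ → ℝ} (hγ : ∀ x : ℝ, G x = γ x) {MG : ℝ} (hMG : ∀ z : ℂ, |z.im| ≤ Real.pi → ‖G z‖ ≤ MG) :
    ∫ y in Set.Ioi (0:ℝ), (γ (Real.log y) * γ (Real.log y + Real.log (qq a ω₁))) * (1 / gg κ y) ≤
      lam * ∫ y in Set.Ioi (0:ℝ), γ (Real.log y) ^ 2 * (1 / gg κ y) := by
  set q := qq a ω₁ with hq
  have hqpos : 0 < q := h.qq_pos
  have hκ : κ ^ 2 < 1 := by
    have : 0 < s ^ 2 := by positivity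
    linarith
  have hMG0 : 0 ≤ MG := (norm_nonneg _).trans (hMG 0 (by simp [Real.pi_pos.le]))
  set σ := sg s with hσdef
  have hσ : σ = 1 ∨ σ = -1 := sg_cases hs
  -- the two boundary functions
  set T1 : ℕ → ℝ → ℂ := fun N x => TT σ N G (-(Complex.I * σ) * ((x * 1 : ℝ) : ℂ)) with hT1
  set T2 : ℕ → ℝ → ℂ := fun N x => TT σ N G (-(Complex.I * σ) * ((x * q : ℝ) : ℂ)) with hT2
  have haxis : ∀ y : ℝ, 0 ≤ (-(Complex.I * σ) * (y : ℂ)).re := by
    intro y
    simp
  have hb1 : ∀ N x, ‖T1 N x‖ ≤ MG := fun N x => TT_bound hσ N hMG (haxis _)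
  have hb2 : ∀ N x, ‖T2 N x‖ ≤ MG := fun N x => TT_bound hσ N hMG (haxis _)
  have hm1 : ∀ N, Measurable (T1 N) := fun N => measurable_TT_axis hG 1
  have hm2 : ∀ N, Measurable (T2 N) := fun N => measurable_TT_axis hG q
  -- inequality on the line for each `N`
  have hline : ∀ N : ℕ, ‖∫ x : ℝ, (1 / gg κ x) • ((starRingEnd ℂ) (T1 N x) * T2 N x)‖ ≤
      lam * ∫ x : ℝ, (1 / gg κ x) • (‖T1 N x‖ ^ 2) := by
    intro N
    have F1 := ft_facts (N := N) h.h2 hs h1 hr hG hMG one_pos
    have F2 := ft_facts (N := N) h.h2 hs h1 hr hG hMG hqpos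
    obtain ⟨b, hb⟩ := exists_taylor F1.1
    have hBHb : BH (ft ω₁ ω₂ κ s N G 1) b := ⟨hb, ⟨MG, F1.2.1⟩, F1.2.2⟩
    set A : H2 := ⟨b, memlp_of_summable hBHb.norm_identity.1⟩ with hA
    have hBH : BH (ft ω₁ ω₂ κ s N G 1) A := hBHb
    have hcomp : ∀ z : ℂ, ‖z‖ < 1 → ft ω₁ ω₂ κ s N G q z = ft ω₁ ω₂ κ s N G 1 (mob c a z) := by
      intro z hz
      have hne : z ≠ ω₂ := by
        rintro rfl
        rw [h.h2] at hz
        exact lt_irrefl _ hz
      unfold ft
      rw [WW_mob h hz.le hne, Complex.ofReal_one, one_mul]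
    obtain ⟨-, e1, e2⟩ := pair_identity hC h A hBH hcomp F2.2.2
    have e3 := hlam A
    have hZ1 : ∀ x : ℝ, ft ω₁ ω₂ κ s N G 1 (ZZ ω₂ κ s x) = T1 N x := by
      intro x
      simp only [ft, hT1]
      rw [WW_ZZ h.h2 hs h1 hr]
      congr 1
      push_cast
      ring
    have hZ2 : ∀ x : ℝ, ft ω₁ ω₂ κ s N G q (ZZ ω₂ κ s x) = T2 N x := by
      intro x
      simp only [ft, hT2]
      rw [WW_ZZ h.h2 hs h1 hr]
      congr 1
      push_cast
      ring
    rw [e1, e2, circleAverage_eq_line ω₂ h.h2 κ s hs h1, circleAverage_eq_line ω₂ h.h2 κ s hs h1] at e3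
    simp_rw [hZ1, hZ2] at e3
    have hpos : 0 < |s| / Real.pi := div_pos (abs_pos.2 hs) Real.pi_pos
    rw [norm_smul, Real.norm_of_nonneg hpos.le, smul_eq_mul] at e3
    have e4 : |s| / Real.pi * ‖∫ x : ℝ, (1 / gg κ x) • ((starRingEnd ℂ) (T1 N x) * T2 N x)‖ ≤
        |s| / Real.pi * (lam * ∫ x : ℝ, (1 / gg κ x) • (‖T1 N x‖ ^ 2)) := by linarith
    exact le_of_mul_le_mul_left e4 hpos
  -- remove the unimodular factor
  set eN : ℕ → ℂ := fun N => Complex.exp (-(Complex.I * N * σ * Real.log q)) with heN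
  have heNn : ∀ N, ‖eN N‖ = 1 := by
    intro N
    simp only [heN]
    rw [Complex.norm_exp]
    simp
  have hlim1 : Tendsto (fun N => ∫ x : ℝ, eN N * ((1 / gg κ x) • ((starRingEnd ℂ) (T1 N x) * T2 N x)))
      atTop (𝓝 (∫ x : ℝ, Set.indicator (Set.Ioi (0:ℝ))
        (fun x => (((γ (Real.log x) * γ (Real.log x + Real.log q)) * (1 / gg κ x) : ℝ) : ℂ)) x)) := by
    apply tendsto_integral_of_dominated_convergence (fun x => MG * MG * (1 / gg κ x))
    · intro N
      apply AEStronglyMeasurable.const_mul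
      apply Measurable.aestronglyMeasurable
      exact (continuous_inv_gg hκ).measurable.smul
        ((Complex.continuous_conj.measurable.comp (hm1 N)).mul (hm2 N))
    · exact (integrable_inv_gg hκ).const_mul _
    · intro N
      refine Eventually.of_forall fun x => ?_
      have hg := gg_pos' hκ x
      rw [norm_mul, heNn, one_mul, norm_smul, norm_mul, RCLike.norm_conj,
        Real.norm_of_nonneg (by positivity), mul_comm]
      exact mul_le_mul_of_nonneg_right (mul_le_mul (hb1 N x) (hb2 N x) (norm_nonneg _) hMG0) (by positivity)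
    · have h0 : ∀ᵐ x : ℝ, x ≠ 0 := by
        rw [ae_iff]
        simp
      filter_upwards [h0] with x hx
      rcases lt_or_gt_of_ne hx with hneg | hpos
      · rw [Set.indicator_of_notMem (by simp [hneg.le])]
        apply squeeze_zero_norm (a := fun N : ℕ => Real.exp (-(N * Real.pi)) * (MG * MG * (1 / gg κ x)))
        · intro N
          have hg := gg_pos' hκ x
          have hxq : x * q < 0 := mul_neg_of_neg_of_pos hneg hqpos
          have e1 : ‖T1 N x‖ ≤ Real.exp (-(N * Real.pi)) * MG := by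
            simp only [hT1]
            rw [TT_neg hσ N (y := x * 1) (by rw [mul_one]; exact hneg), norm_mul, norm_mul]
            have e2 : ‖Complex.exp (Complex.I * N * σ * Real.log |x * 1|)‖ = 1 := by
              rw [Complex.norm_exp]
              simp
            rw [e2, one_mul, Complex.norm_real, Real.norm_of_nonneg (Real.exp_pos _).le]
            apply mul_le_mul_of_nonneg_left _ (Real.exp_pos _).le
            apply hMG
            have : ((Real.log |x * 1| : ℂ) + Complex.I * σ * Real.pi).im = σ * Real.pi := by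
              simp
            rw [this]
            rcases hσ with h' | h' <;> rw [h'] <;> simp [abs_of_pos Real.pi_pos]
          rw [norm_mul, heNn, one_mul, norm_smul, norm_mul, RCLike.norm_conj,
            Real.norm_of_nonneg (by positivity : (0:ℝ) ≤ 1 / gg κ x)]
          calc 1 / gg κ x * (‖T1 N x‖ * ‖T2 N x‖) ≤ 1 / gg κ x * ((Real.exp (-(N * Real.pi)) * MG) * MG) := by
                apply mul_le_mul_of_nonneg_left _ (by positivity)
                exact mul_le_mul e1 (hb2 N x) (norm_nonneg _) (by positivity)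
            _ = _ := by ring
        · have e3 : Tendsto (fun N : ℕ => Real.exp (-(N * Real.pi))) atTop (𝓝 0) := by
            apply Real.tendsto_exp_neg_atTop_nhds_zero.comp
            exact tendsto_natCast_atTop_atTop.atTop_mul_const Real.pi_pos
          have := e3.mul_const (MG * MG * (1 / gg κ x))
          rw [zero_mul] at this
          exact this
      · rw [Set.indicator_of_mem (by exact hpos)]
        have hxq : 0 < x * q := mul_pos hpos hqpos
        apply tendsto_const_nhds.congr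
        intro N
        simp only [hT1, hT2, heN]
        rw [TT_pos hσ N hγ (y := x * 1) (by rw [mul_one]; exact hpos), TT_pos hσ N hγ hxq, mul_one,
          Real.log_mul hpos.ne' hqpos.ne']
        rw [map_mul, Complex.conj_ofReal, ← Complex.exp_conj]
        have e5 : (starRingEnd ℂ) (Complex.I * N * σ * Real.log x) = -(Complex.I * N * σ * Real.log x) := by
          simp
        rw [e5, Complex.real_smul]
        have e6 : Complex.exp (Complex.I * N * σ * ((Real.log x + Real.log q : ℝ) : ℂ)) =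
            Complex.exp (Complex.I * N * σ * Real.log x) * Complex.exp (Complex.I * N * σ * Real.log q) := by
          rw [← Complex.exp_add]
          congr 1
          push_cast
          ring
        rw [e6]
        have e7 : Complex.exp (-(Complex.I * N * σ * Real.log x)) * Complex.exp (Complex.I * N * σ * Real.log x) = 1 := by
          rw [← Complex.exp_add]; simp
        have e8 : Complex.exp (-(Complex.I * N * σ * Real.log q)) * Complex.exp (Complex.I * N * σ * Real.log q) = 1 := by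
          rw [← Complex.exp_add]; simp
        push_cast
        linear_combination (-((γ (Real.log x) : ℂ) * γ (Real.log x + Real.log q) * (1 / gg κ x))) * e7 -
          ((γ (Real.log x) : ℂ) * γ (Real.log x + Real.log q) * (1 / gg κ x)) *
          (Complex.exp (-(Complex.I * N * σ * Real.log x)) * Complex.exp (Complex.I * N * σ * Real.log x)) * (e8)
  have hlim2 : Tendsto (fun N => ∫ x : ℝ, (1 / gg κ x) • (‖T1 N x‖ ^ 2)) atTop
      (𝓝 (∫ x : ℝ, Set.indicator (Set.Ioi (0:ℝ)) (fun x => γ (Real.log x) ^ 2 * (1 / gg κ x)) x)) := by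
    apply tendsto_integral_of_dominated_convergence (fun x => MG ^ 2 * (1 / gg κ x))
    · intro N
      apply Measurable.aestronglyMeasurable
      exact (continuous_inv_gg hκ).measurable.smul ((hm1 N).norm.pow_const 2)
    · exact (integrable_inv_gg hκ).const_mul _
    · intro N
      refine Eventually.of_forall fun x => ?_
      have hg := gg_pos' hκ x
      rw [norm_smul, Real.norm_of_nonneg (by positivity), Real.norm_of_nonneg (by positivity), mul_comm]
      exact mul_le_mul_of_nonneg_right (pow_le_pow_left₀ (norm_nonneg _) (hb1 N x) 2) (by positivity)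
    · have h0 : ∀ᵐ x : ℝ, x ≠ 0 := by
        rw [ae_iff]
        simp
      filter_upwards [h0] with x hx
      rcases lt_or_gt_of_ne hx with hneg | hpos
      · rw [Set.indicator_of_notMem (by simp [hneg.le])]
        apply squeeze_zero_norm (a := fun N : ℕ => Real.exp (-(N * Real.pi)) * (MG * MG * (1 / gg κ x)))
        · intro N
          have hg := gg_pos' hκ x
          have e1 : ‖T1 N x‖ ≤ Real.exp (-(N * Real.pi)) * MG := by
            simp only [hT1]
            rw [TT_neg hσ N (y := x * 1) (by rw [mul_one]; exact hneg), norm_mul, norm_mul]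
            have e2 : ‖Complex.exp (Complex.I * N * σ * Real.log |x * 1|)‖ = 1 := by
              rw [Complex.norm_exp]
              simp
            rw [e2, one_mul, Complex.norm_real, Real.norm_of_nonneg (Real.exp_pos _).le]
            apply mul_le_mul_of_nonneg_left _ (Real.exp_pos _).le
            apply hMG
            have : ((Real.log |x * 1| : ℂ) + Complex.I * σ * Real.pi).im = σ * Real.pi := by
              simp
            rw [this]
            rcases hσ with h' | h' <;> rw [h'] <;> simp [abs_of_pos Real.pi_pos]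
          rw [norm_smul, Real.norm_of_nonneg (by positivity : (0:ℝ) ≤ 1 / gg κ x),
            Real.norm_of_nonneg (by positivity)]
          calc 1 / gg κ x * ‖T1 N x‖ ^ 2 = 1 / gg κ x * (‖T1 N x‖ * ‖T1 N x‖) := by ring
            _ ≤ 1 / gg κ x * ((Real.exp (-(N * Real.pi)) * MG) * MG) := by
                apply mul_le_mul_of_nonneg_left _ (by positivity)
                exact mul_le_mul e1 (hb1 N x) (norm_nonneg _) (by positivity)
            _ = _ := by ring
        · have e3 : Tendsto (fun N : ℕ => Real.exp (-(N * Real.pi))) atTop (𝓝 0) := by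
            apply Real.tendsto_exp_neg_atTop_nhds_zero.comp
            exact tendsto_natCast_atTop_atTop.atTop_mul_const Real.pi_pos
          have := e3.mul_const (MG * MG * (1 / gg κ x))
          rw [zero_mul] at this
          exact this
      · rw [Set.indicator_of_mem (by exact hpos)]
        apply tendsto_const_nhds.congr
        intro N
        simp only [hT1]
        rw [TT_pos hσ N hγ (y := x * 1) (by rw [mul_one]; exact hpos), mul_one, norm_mul]
        have e2 : ‖Complex.exp (Complex.I * N * σ * Real.log x)‖ = 1 := by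
          rw [Complex.norm_exp]
          simp
        rw [e2, one_mul, Complex.norm_real, Real.norm_eq_abs, sq_abs, smul_eq_mul]
        ring
  -- conclude
  have hineq : ∀ N, ‖∫ x : ℝ, eN N * ((1 / gg κ x) • ((starRingEnd ℂ) (T1 N x) * T2 N x))‖ ≤
      lam * ∫ x : ℝ, (1 / gg κ x) • (‖T1 N x‖ ^ 2) := by
    intro N
    rw [integral_const_mul, norm_mul, heNn, one_mul]
    exact hline N
  have hfin := le_of_tendsto_of_tendsto hlim1.norm (hlim2.const_mul lam) (Eventually.of_forall hineq)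
  rw [integral_indicator measurableSet_Ioi, integral_indicator measurableSet_Ioi] at hfin
  have e9 : ∫ x in Set.Ioi (0:ℝ), (((γ (Real.log x) * γ (Real.log x + Real.log q)) * (1 / gg κ x) : ℝ) : ℂ) =
      ((∫ x in Set.Ioi (0:ℝ), (γ (Real.log x) * γ (Real.log x + Real.log q)) * (1 / gg κ x) : ℝ) : ℂ) :=
    integral_ofReal
  rw [e9, Complex.norm_real] at hfin
  exact (le_abs_self _).trans hfin

end

end Pool.Agent.helper30.NR
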