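import Mathlib
import Pool.Agent.helper30.NR.Low

set_option autoImplicit false

namespace Pool.Agent.helper30.NR

open Complex Filter Topology MeasureTheory
open Pool.Agent.helper68.Cyc (cis norm_cis continuous_cis)

noncomputable section

variable {c a ω₁ ω₂ : ℂ} {κ s : ℝ}

/-- a polynomial -/
def pol (t : Finset ℕ) (b : ℕ → ℂ) (z : ℂ) : ℂ := ∑ n ∈ t, b n * z ^ n

lemma continuous_pol (t : Finset ℕ) (b : ℕ → ℂ) : Continuous (pol t b) := by
  unfold pol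
  fun_prop

lemma pol_bound (t : Finset ℕ) (b : ℕ → ℂ) {z : ℂ} (hz : ‖z‖ ≤ 1) : ‖pol t b z‖ ≤ ∑ n ∈ t, ‖b n‖ := by
  unfold pol
  refine (norm_sum_le _ _).trans (Finset.sum_le_sum fun n _ => ?_)
  rw [norm_mul, norm_pow]
  calc ‖b n‖ * ‖z‖ ^ n ≤ ‖b n‖ * 1 :=
        mul_le_mul_of_nonneg_left (pow_le_one₀ (norm_nonneg _) hz) (norm_nonneg _)
    _ = _ := mul_one _

lemma BH_pol (t : Finset ℕ) (b : ℕ → ℂ) (hb : ∀ n ∉ t, b n = 0) : BH (pol t b) b := by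
  refine ⟨fun z _ => ?_, ⟨∑ n ∈ t, ‖b n‖, fun z hz => pol_bound t b hz.le⟩, ?_⟩
  · apply hasSum_sum_of_ne_finset_zero
    intro n hn
    rw [hb n hn, zero_mul]
  · exact Eventually.of_forall fun θ => tendsto_radial (continuous_pol t b).continuousAt

lemma lim_pol_mob (c : ℂ) (ha : ‖a‖ < 1) (t : Finset ℕ) (b : ℕ → ℂ) :
    ∀ᵐ θ : ℝ, Tendsto (fun r : ℝ => pol t b (mob c a (r * cis θ))) (𝓝[<] 1)
      (𝓝 (pol t b (mob c a (cis θ)))) := by
  refine Eventually.of_forall fun θ => ?_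
  have h1 : ContinuousAt (mob c a) (cis θ) :=
    (mob_differentiableAt (den_ne ha (norm_cis θ).le)).continuousAt
  have h2 : ContinuousAt (fun z => pol t b (mob c a z)) (cis θ) :=
    ContinuousAt.comp (f := mob c a) (g := pol t b) (continuous_pol t b).continuousAt h1
  exact tendsto_radial h2

lemma continuous_ZZ (ω : ℂ) (hs : s ≠ 0) : Continuous (ZZ ω κ s) := by
  unfold ZZ
  apply Continuous.div
  · fun_prop
  · fun_prop
  · exact fun x => ZZ_den_ne hs x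

theorem upper_finite {C : H2 →L[ℂ] H2}
    (hC : ∀ (A : H2) (z : ℂ), ‖z‖ < 1 → ∑' n, (C A) n * z ^ n = ∑' n, A n * (mob c a z) ^ n)
    (h : Hyp c a ω₁ ω₂) (hκ0 : 0 ≤ κ) (hs : s ≠ 0) (h1 : κ ^ 2 + s ^ 2 = 1)
    (hr : ω₁ = ω₂ * (κ + s * Complex.I) ^ 2) (hq1 : qq a ω₁ < 1) {lam : ℝ}
    (hnum : ∀ u > 0, ∀ N x, num κ (qq a ω₁) u N x ≤ lam * den κ (qq a ω₁) u N x)
    (A : H2) (t : Finset ℕ) (hA : ∀ n ∉ t, A n = 0) :
    ‖inner ℂ A (C A)‖ ≤ lam * ‖A‖ ^ 2 := by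
  have hκ : κ ^ 2 < 1 := by
    have : 0 < s ^ 2 := by positivity
    linarith
  obtain ⟨-, e1, e2⟩ := pair_identity hC h A (BH_pol t A hA) (f₂ := fun z => pol t A (mob c a z))
    (fun z _ => rfl) (lim_pol_mob c h.ha t A)
  rw [e1, e2, circleAverage_eq_line ω₂ h.h2 κ s hs h1, circleAverage_eq_line ω₂ h.h2 κ s hs h1]
  simp_rw [mob_ZZ h hs h1 hr]
  set F : ℝ → ℝ := fun x => ‖pol t A (ZZ ω₂ κ s x)‖ with hF
  have hFc : Continuous F := ((continuous_pol t A).comp (continuous_ZZ ω₂ hs)).norm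
  have hFb : ∀ x, |F x| ≤ ∑ n ∈ t, ‖A n‖ := by
    intro x
    rw [abs_of_nonneg (norm_nonneg _)]
    exact pol_bound t A (ZZ_norm h.h2 hs x).le
  have hU := upper hκ0 hκ h.qq_pos hq1 hnum hFc hFb
  have hpos : 0 < |s| / Real.pi := div_pos (abs_pos.2 hs) Real.pi_pos
  rw [norm_smul, Real.norm_of_nonneg hpos.le, smul_eq_mul]
  have e3 : ‖∫ x : ℝ, (1 / gg κ x) • ((starRingEnd ℂ) (pol t A (ZZ ω₂ κ s x)) *
      pol t A (ZZ ω₂ κ s (x * qq a ω₁)))‖ ≤ ∫ x : ℝ, (F x * F (x * qq a ω₁)) * (1 / gg κ x) := by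
    refine (norm_integral_le_integral_norm _).trans (le_of_eq ?_)
    congr 1
    funext x
    have hg := gg_pos' hκ x
    rw [norm_smul, norm_mul, RCLike.norm_conj, Real.norm_of_nonneg (by positivity)]
    simp only [hF]
    ring
  have e4 : ∫ x : ℝ, F x ^ 2 * (1 / gg κ x) = ∫ x : ℝ, (1 / gg κ x) • (‖pol t A (ZZ ω₂ κ s x)‖ ^ 2) := by
    congr 1
    funext x
    simp only [hF, smul_eq_mul]
    ring
  rw [e4] at hU
  calc |s| / Real.pi * ‖∫ x : ℝ, (1 / gg κ x) • ((starRingEnd ℂ) (pol t A (ZZ ω₂ κ s x)) *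
      pol t A (ZZ ω₂ κ s (x * qq a ω₁)))‖
      ≤ |s| / Real.pi * (lam * ∫ x : ℝ, (1 / gg κ x) • (‖pol t A (ZZ ω₂ κ s x)‖ ^ 2)) :=
        mul_le_mul_of_nonneg_left (e3.trans hU) hpos.le
    _ = _ := by ring

/-- truncation of a coefficient sequence -/
def trunc (A : H2) (N : ℕ) : H2 := ∑ i ∈ Finset.range N, lp.single 2 i (A i)

lemma trunc_apply (A : H2) (N n : ℕ) : trunc A N n = if n < N then A n else 0 := by
  unfold trunc
  rw [lp.coeFn_sum, Finset.sum_apply]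
  split_ifs with hn
  · rw [Finset.sum_eq_single n]
    · simp
    · intro i _ hi
      simp [lp.single_apply, Ne.symm hi]
    · intro hh
      exact absurd (Finset.mem_range.2 hn) hh
  · apply Finset.sum_eq_zero
    intro i hi
    have : i ≠ n := by
      have := Finset.mem_range.1 hi
      omega
    simp [lp.single_apply, Ne.symm this]

lemma tendsto_trunc (A : H2) : Tendsto (trunc A) atTop (𝓝 A) :=
  (lp.hasSum_single (by norm_num) A).tendsto_sum_nat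

theorem upper_main {C : H2 →L[ℂ] H2}
    (hC : ∀ (A : H2) (z : ℂ), ‖z‖ < 1 → ∑' n, (C A) n * z ^ n = ∑' n, A n * (mob c a z) ^ n)
    (h : Hyp c a ω₁ ω₂) (hκ0 : 0 ≤ κ) (hs : s ≠ 0) (h1 : κ ^ 2 + s ^ 2 = 1)
    (hr : ω₁ = ω₂ * (κ + s * Complex.I) ^ 2) (hq1 : qq a ω₁ < 1) {lam : ℝ}
    (hnum : ∀ u > 0, ∀ N x, num κ (qq a ω₁) u N x ≤ lam * den κ (qq a ω₁) u N x)
    (A : H2) : ‖inner ℂ A (C A)‖ ≤ lam * ‖A‖ ^ 2 := by
  have h2 := tendsto_trunc A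
  have h3 : Tendsto (fun N => ‖inner ℂ (trunc A N) (C (trunc A N))‖) atTop (𝓝 ‖inner ℂ A (C A)‖) :=
    (h2.inner ((C.continuous.tendsto A).comp h2)).norm
  have h4 : Tendsto (fun N => lam * ‖trunc A N‖ ^ 2) atTop (𝓝 (lam * ‖A‖ ^ 2)) :=
    (h2.norm.pow 2).const_mul lam
  refine le_of_tendsto_of_tendsto h3 h4 (Eventually.of_forall fun N => ?_)
  apply upper_finite hC h hκ0 hs h1 hr hq1 hnum (trunc A N) (Finset.range N)
  intro n hn
  rw [trunc_apply, if_neg (by simpa using hn)]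

end

end Pool.Agent.helper30.NR
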