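import Mathlib
import Pool.Agent.helper30.NR.Low
import Pool.Agent.helper30.NR.Up
import Pool.Agent.helper30.NR.Gauss

set_option autoImplicit false

namespace Pool.Agent.helper30.NR

open Finset

noncomputable section

variable {c a ω₁ ω₂ : ℂ} {κ s : ℝ}

/-- the entire extension of the Gaussian combination -/
def GG (δ : ℝ) (M : ℕ) (x c : ℕ → ℝ) (z : ℂ) : ℂ :=
  ∑ k ∈ range (M + 1), (x k : ℂ) * Complex.exp (-((z - (c k : ℝ)) / (δ : ℝ)) ^ 2)

lemma differentiable_GG (δ : ℝ) (M : ℕ) (x c : ℕ → ℝ) : Differentiable ℂ (GG δ M x c) := by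
  unfold GG
  intro z
  apply DifferentiableAt.fun_sum
  intro k _
  fun_prop

lemma GG_real (δ : ℝ) (M : ℕ) (x c : ℕ → ℝ) (s : ℝ) : GG δ M x c s = (comb δ M x c s : ℝ) := by
  unfold GG comb gau
  push_cast
  rfl

lemma GG_bound {δ : ℝ} (hδ : 0 < δ) (M : ℕ) (x c : ℕ → ℝ) {z : ℂ} (hz : |z.im| ≤ Real.pi) :
    ‖GG δ M x c z‖ ≤ ∑ k ∈ range (M + 1), |x k| * Real.exp (Real.pi ^ 2 / δ ^ 2) := by
  unfold GG
  refine (norm_sum_le _ _).trans (sum_le_sum fun k _ => ?_)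
  rw [norm_mul, Complex.norm_exp, Complex.norm_real, Real.norm_eq_abs]
  apply mul_le_mul_of_nonneg_left _ (abs_nonneg _)
  apply Real.exp_le_exp.2
  have e : (-((z - (c k : ℝ)) / (δ : ℝ)) ^ 2 : ℂ) =
      (((-((z.re - c k) ^ 2 - z.im ^ 2) / δ ^ 2 : ℝ)) : ℂ) +
        ((-(2 * (z.re - c k) * z.im) / δ ^ 2 : ℝ) : ℂ) * Complex.I := by
    have hδ' : (δ : ℂ) ≠ 0 := by exact_mod_cast hδ.ne'
    have hz : z = (z.re : ℂ) + (z.im : ℂ) * Complex.I := (Complex.re_add_im z).symm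
    generalize z.re = p at *
    generalize z.im = q at *
    subst hz
    push_cast
    field_simp
    ring_nf
    rw [Complex.I_sq]
    ring
  rw [e]
  have e2 : ((((-((z.re - c k) ^ 2 - z.im ^ 2) / δ ^ 2 : ℝ)) : ℂ) +
        ((-(2 * (z.re - c k) * z.im) / δ ^ 2 : ℝ) : ℂ) * Complex.I).re =
        -((z.re - c k) ^ 2 - z.im ^ 2) / δ ^ 2 := by
    rw [Complex.add_re, Complex.ofReal_re, Complex.re_ofReal_mul, Complex.I_re]
    ring
  rw [e2]
  apply div_le_div_of_nonneg_right _ (by positivity)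
  have h1 : z.im ^ 2 ≤ Real.pi ^ 2 := by
    rw [← sq_abs]
    exact pow_le_pow_left₀ (abs_nonneg _) hz 2
  nlinarith [sq_nonneg (z.re - c k)]

/-- the numerical radius bound is equivalent to the bound for the Jacobi quotients -/
theorem bound_iff {C : H2 →L[ℂ] H2}
    (hC : ∀ (A : H2) (z : ℂ), ‖z‖ < 1 → ∑' n, (C A) n * z ^ n = ∑' n, A n * (mob c a z) ^ n)
    (h : Hyp c a ω₁ ω₂) (hκ0 : 0 ≤ κ) (hs : s ≠ 0) (h1 : κ ^ 2 + s ^ 2 = 1)
    (hr : ω₁ = ω₂ * (κ + s * Complex.I) ^ 2) (hq1 : qq a ω₁ < 1) (lam : ℝ) :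
    (∀ A : H2, ‖inner ℂ A (C A)‖ ≤ lam * ‖A‖ ^ 2) ↔
      ∀ u > 0, ∀ N x, num κ (qq a ω₁) u N x ≤ lam * den κ (qq a ω₁) u N x := by
  constructor
  · intro hlam
    have hκ : κ ^ 2 < 1 := by
      have := pow_pos (abs_pos.2 hs) 2
      rw [sq_abs] at this
      linarith
    apply lower_real hκ h.qq_pos hq1
    intro δ hδ M x c'
    exact lower_main hC h hs h1 hr hlam (differentiable_GG δ M x c') (GG_real δ M x c')
      (fun z hz => GG_bound hδ M x c' hz)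
  · intro hnum A
    exact upper_main hC h hκ0 hs h1 hr hq1 hnum A

end

end Pool.Agent.helper30.NR
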