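import Mathlib
import Pool.Agent.helper30.NR.Jacobi

set_option autoImplicit false

namespace Pool.Agent.helper30.NR

open Finset Filter Topology

noncomputable section

/-- sum of squares identity for the Jacobi form -/
lemma form_identity (W D x : ℕ → ℝ) (lam : ℝ) (hlam : 0 < lam) (hW : ∀ n, 0 < W n) (h0 : D 0 = 2)
    (N : ℕ) (hD : ∀ n < N, 0 < D n)
    (h : ∀ n < N, D (n + 1) = 2 - W n / (W (n + 1) * lam ^ 2) / D n) :
    lam * ∑ n ∈ range (N + 1), x n ^ 2 * W n - ∑ n ∈ range N, x n * x (n + 1) * W n =
      ∑ n ∈ range N, lam / 2 * (W n * D n) * (x n - x (n + 1) / (lam * D n)) ^ 2 +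
        lam / 2 * D N * W N * x N ^ 2 := by
  induction N with
  | zero =>
    simp [h0]
    ring
  | succ N ih =>
    have ih' := ih (fun n hn => hD n (by omega)) (fun n hn => h n (by omega))
    rw [sum_range_succ (fun n => x n ^ 2 * W n) (N + 1), sum_range_succ (fun n => x n * x (n + 1) * W n) N,
      sum_range_succ (fun n => lam / 2 * (W n * D n) * (x n - x (n + 1) / (lam * D n)) ^ 2) N]
    have hDN := hD N (by omega)
    have hWN := hW N
    have hWN1 := hW (N + 1)
    rw [h N (by omega)]
    have e : lam / 2 * (W N * D N) * (x N - x (N + 1) / (lam * D N)) ^ 2 +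
        lam / 2 * (2 - W N / (W (N + 1) * lam ^ 2) / D N) * W (N + 1) * x (N + 1) ^ 2 =
        lam / 2 * D N * W N * x N ^ 2 + lam * (x (N + 1) ^ 2 * W (N + 1)) - x N * x (N + 1) * W N := by
      field_simp
      ring
    linarith

/-- positivity of the pivots -/
lemma pivots_pos (W D : ℕ → ℝ) (lam : ℝ) (hlam : 0 < lam) (hW : ∀ n, 0 < W n) (h0 : D 0 = 2)
    (h : ∀ n, D (n + 1) = 2 - W n / (W (n + 1) * lam ^ 2) / D n)
    (hform : ∀ (N : ℕ) (x : ℕ → ℝ), ∑ n ∈ range N, x n * x (n + 1) * W n ≤
      lam * ∑ n ∈ range (N + 1), x n ^ 2 * W n) (n : ℕ) : 0 < D n := by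
  induction n using Nat.strong_induction_on with
  | _ n ih =>
    rcases n with _ | n
    · rw [h0]; norm_num
    · by_contra hneg
      push Not at hneg
      have hpos : ∀ j < n + 1, 0 < D j := fun j hj => ih j hj
      -- the minimizing vector
      obtain ⟨ε, hε0, hε⟩ : ∃ ε : ℝ, 0 < ε ∧ lam * (ε ^ 2 * W (n + 2)) < ε * W (n + 1) := by
        have h1 := hW (n + 1)
        have h2 := hW (n + 2)
        refine ⟨W (n + 1) / (2 * lam * W (n + 2)), by positivity, ?_⟩
        have h3 : lam * ((W (n + 1) / (2 * lam * W (n + 2))) ^ 2 * W (n + 2)) =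
            (W (n + 1) / (2 * lam * W (n + 2)) * W (n + 1)) / 2 := by
          field_simp
        rw [h3]
        have h4 : 0 < W (n + 1) / (2 * lam * W (n + 2)) * W (n + 1) := by positivity
        linarith
      set x : ℕ → ℝ := fun j => if j ≤ n + 1 then ∏ i ∈ Ico j (n + 1), 1 / (lam * D i) else ε with hx
      have hxn : x (n + 1) = 1 := by simp [hx]
      have hxn2 : x (n + 2) = ε := by simp [hx]
      have hrec : ∀ j < n + 1, x j = x (j + 1) / (lam * D j) := by
        intro j hj
        simp only [hx]
        rw [if_pos (by omega), if_pos (by omega), prod_eq_prod_Ico_succ_bot (by omega)]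
        ring
      have hid := form_identity W D x lam hlam hW h0 (n + 1) (fun j hj => hpos j hj) (fun j _ => h j)
      have hzero : ∑ j ∈ range (n + 1), lam / 2 * (W j * D j) * (x j - x (j + 1) / (lam * D j)) ^ 2 = 0 := by
        apply sum_eq_zero
        intro j hj
        rw [hrec j (mem_range.1 hj)]
        ring
      rw [hzero, zero_add, hxn] at hid
      have hf := hform (n + 2) x
      rw [sum_range_succ, sum_range_succ (fun n => x n ^ 2 * W n) (n + 2)] at hf
      have e1 : n + 1 + 1 = n + 2 := rfl
      rw [e1, hxn, hxn2] at hf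
      have h5 : lam / 2 * D (n + 1) * W (n + 1) * 1 ^ 2 ≤ 0 := by
        have h6 : D (n + 1) * (lam / 2 * W (n + 1)) ≤ 0 :=
          mul_nonpos_of_nonpos_of_nonneg hneg (by have := hW (n + 1); positivity)
        linarith
      have e2 : n + 1 + 1 = n + 2 := rfl
      rw [e2] at hid
      linarith

/-- duality -/
theorem dual_iff {κ q lam : ℝ} (hκ : κ ^ 2 < 1) (hq : 0 < q) (hlam : 0 < lam) :
    (∀ u > 0, ∀ N x, num κ q u N x ≤ lam * den κ q u N x) ↔
    ∃ D : ℝ → ℝ, (∀ x > 0, 0 < D x) ∧
      ∀ x > 0, D (q * x) + gg κ (q * x) / (q * lam ^ 2 * gg κ x * D x) ≤ 2 := by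
  constructor
  · intro h
    -- transition coefficient
    set ρ : ℝ → ℝ := fun x => gg κ (q * x) / (q * lam ^ 2 * gg κ x) with hρ
    have hρpos : ∀ x, 0 < ρ x := by
      intro x
      have h1 := gg_pos' hκ x
      have h2 := gg_pos' hκ (q * x)
      simp only [hρ]
      positivity
    -- iterates
    let Dm : ℕ → ℝ → ℝ := fun m => Nat.rec (fun _ => 2) (fun _ f x => 2 - ρ (x / q) / f (x / q)) m
    have hDm0 : ∀ x, Dm 0 x = 2 := fun x => rfl
    have hDms : ∀ m x, Dm (m + 1) x = 2 - ρ (x / q) / Dm m (x / q) := fun m x => rfl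
    -- positivity
    have hpos : ∀ m, ∀ x > 0, 0 < Dm m x := by
      intro m x hx
      set u := x / q ^ m with hu
      have hu0 : 0 < u := by positivity
      have hxu : x = u * q ^ m := by
        rw [hu]; field_simp
      have key := pivots_pos (fun n => q ^ n / gg κ (u * q ^ n)) (fun n => Dm n (u * q ^ n)) lam hlam
        (fun n => div_pos (pow_pos hq n) (gg_pos' hκ _)) (hDm0 (u * q ^ 0)) (by
          intro n
          rw [hDms]
          have e1 : u * q ^ (n + 1) / q = u * q ^ n := by
            rw [pow_succ]; field_simp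
          rw [e1]
          have h1 := gg_pos' hκ (u * q ^ n)
          have h2 := gg_pos' hκ (u * q ^ (n + 1))
          have e2 : q * (u * q ^ n) = u * q ^ (n + 1) := by rw [pow_succ]; ring
          have e3 : q ^ (n + 1) = q ^ n * q := pow_succ q n
          have e4 : ρ (u * q ^ n) = q ^ n / gg κ (u * q ^ n) /
              (q ^ (n + 1) / gg κ (u * q ^ (n + 1)) * lam ^ 2) := by
            simp only [hρ]
            rw [e2]
            generalize gg κ (u * q ^ (n + 1)) = g2 at *
            generalize gg κ (u * q ^ n) = g1 at *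
            rw [e3]
            field_simp
          rw [e4]) (fun N y => h u hu0 N y) m
      rw [hxu]
      exact key
    -- monotonicity
    have hmono : ∀ m, ∀ x > 0, Dm (m + 1) x ≤ Dm m x := by
      intro m
      induction m with
      | zero =>
        intro x hx
        rw [hDms, hDm0, hDm0]
        have := hρpos (x / q)
        have : 0 ≤ ρ (x / q) / 2 := by positivity
        linarith
      | succ m ih =>
        intro x hx
        rw [hDms (m + 1), hDms m]
        have h1 : 0 < x / q := by positivity
        have h2 := ih (x / q) h1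
        have h3 := hpos (m + 1) (x / q) h1
        have h4 := div_le_div_of_nonneg_left (hρpos (x / q)).le h3 h2
        linarith
    have hlow : ∀ m, ∀ x > 0, ρ x / 2 ≤ Dm m x := by
      intro m x hx
      have h1 := hpos (m + 1) (q * x) (by positivity)
      rw [hDms] at h1
      have e1 : q * x / q = x := by field_simp
      rw [e1] at h1
      have h2 := hpos m x hx
      have h3 : ρ x / Dm m x < 2 := by linarith
      rw [div_lt_iff₀ h2] at h3
      linarith
    have hanti : ∀ x > 0, Antitone (fun m => Dm m x) := fun x hx =>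
      antitone_nat_of_succ_le fun m => hmono m x hx
    have hbdd : ∀ x > 0, BddBelow (Set.range fun m => Dm m x) := by
      intro x hx
      refine ⟨ρ x / 2, ?_⟩
      rintro _ ⟨m, rfl⟩
      exact hlow m x hx
    have hlim : ∀ x > 0, Tendsto (fun m => Dm m x) atTop (𝓝 (⨅ m, Dm m x)) := fun x hx =>
      tendsto_atTop_ciInf (hanti x hx) (hbdd x hx)
    have hDpos : ∀ x > 0, 0 < ⨅ m, Dm m x := by
      intro x hx
      have : ρ x / 2 ≤ ⨅ m, Dm m x := le_ciInf fun m => hlow m x hx
      have := hρpos x
      linarith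
    refine ⟨fun x => ⨅ m, Dm m x, hDpos, fun x hx => ?_⟩
    have hqx : 0 < q * x := by positivity
    have l1 := (tendsto_add_atTop_iff_nat 1).2 (hlim (q * x) hqx)
    have l2 : Tendsto (fun m => 2 - ρ x / Dm m x) atTop (𝓝 (2 - ρ x / ⨅ m, Dm m x)) :=
      tendsto_const_nhds.sub (tendsto_const_nhds.div (hlim x hx) (hDpos x hx).ne')
    have l3 : ∀ m, Dm (m + 1) (q * x) = 2 - ρ x / Dm m x := by
      intro m
      rw [hDms]
      have e1 : q * x / q = x := by field_simp
      rw [e1]
    simp_rw [l3] at l1
    have l4 := tendsto_nhds_unique l1 l2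
    have e2 : gg κ (q * x) / (q * lam ^ 2 * gg κ x * ⨅ m, Dm m x) = ρ x / ⨅ m, Dm m x := by
      simp only [hρ]
      rw [div_div]
    beta_reduce
    rw [e2, l4]
    linarith
  · rintro ⟨D, hD, h⟩ u hu N x
    have hun : ∀ n : ℕ, 0 < u * q ^ n := fun n => by positivity
    have key := schur (fun n => q ^ n / gg κ (u * q ^ n)) (fun n => D (u * q ^ n)) x (1 / lam)
      (fun n => div_pos (pow_pos hq n) (gg_pos' hκ _)) (fun n => hD _ (hun n)) (by
        have h1 := h (u / q) (by positivity)
        have e1 : q * (u / q) = u := by field_simp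
        rw [e1] at h1
        have h2 := gg_pos' hκ u
        have h3 := gg_pos' hκ (u / q)
        have h4 := hD (u / q) (by positivity)
        have h5 : 0 < gg κ u / (q * lam ^ 2 * gg κ (u / q) * D (u / q)) := by positivity
        simp only [pow_zero, mul_one]
        linarith) (by
        intro n
        have h1 := h (u * q ^ n) (hun n)
        have e1 : q * (u * q ^ n) = u * q ^ (n + 1) := by rw [pow_succ]; ring
        rw [e1] at h1
        have h2 := gg_pos' hκ (u * q ^ n)
        have h3 := gg_pos' hκ (u * q ^ (n + 1))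
        have h4 := hD (u * q ^ n) (hun n)
        have h5 := mul_le_mul_of_nonneg_right h1 (div_pos (pow_pos hq (n + 1)) h3).le
        refine le_trans (le_of_eq ?_) h5
        rw [add_mul]
        have e3 : q ^ (n + 1) = q ^ n * q := pow_succ q n
        generalize gg κ (u * q ^ (n + 1)) = g2 at *
        generalize gg κ (u * q ^ n) = g1 at *
        generalize D (u * q ^ n) = d1 at *
        generalize D (u * q ^ (n + 1)) = d2 at *
        rw [e3]
        field_simp) N
    have hlast : 0 ≤ D (u * q ^ N) * (q ^ N / gg κ (u * q ^ N)) * x N ^ 2 / 2 := by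
      have h1 := hD (u * q ^ N) (hun N)
      have h2 := gg_pos' hκ (u * q ^ N)
      positivity
    have h6 : 1 / lam * num κ q u N x ≤ den κ q u N x := by
      unfold num den
      linarith
    have h7 := mul_le_mul_of_nonneg_left h6 hlam.le
    calc num κ q u N x = lam * (1 / lam * num κ q u N x) := by field_simp
      _ ≤ _ := h7

end

end Pool.Agent.helper30.NR
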