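import Mathlib
import Pool.Agent.helper30.NR.Up

set_option autoImplicit false

namespace Pool.Agent.helper30.NR

open Complex Filter Topology MeasureTheory
open Pool.Agent.helper68.Cyc (cis norm_cis continuous_cis)

noncomputable section

variable {c a ω₁ ω₂ : ℂ} {κ s : ℝ}

lemma exists_powers (hc : ‖c‖ = 1) (ha : ‖a‖ < 1) (n : ℕ) :
    ∃ E : H2, BH (fun z => mob c a z ^ n) E := by
  have hd : DifferentiableOn ℂ (fun z => mob c a z ^ n) (Metric.ball 0 1) := by
    intro z hz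
    rw [mem_ball_zero_iff] at hz
    exact ((mob_differentiableAt (den_ne ha hz.le)).pow n).differentiableWithinAt
  obtain ⟨b, hb⟩ := exists_taylor hd
  have hBH : BH (fun z => mob c a z ^ n) b := by
    refine ⟨hb, ⟨1, fun z hz => ?_⟩, Eventually.of_forall fun θ => ?_⟩
    · rw [norm_pow]
      exact pow_le_one₀ (norm_nonneg _) (mob_lt hc ha hz).le
    · exact tendsto_radial ((mob_differentiableAt (den_ne ha (norm_cis θ).le)).pow n).continuousAt
  exact ⟨⟨b, memlp_of_summable hBH.norm_identity.1⟩, hBH⟩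

lemma sum_apply_H2 (t : Finset ℕ) (b : ℕ → ℂ) (E : ℕ → H2) (k : ℕ) :
    (∑ n ∈ t, b n • E n) k = ∑ n ∈ t, b n * E n k := by
  rw [lp.coeFn_sum, Finset.sum_apply]
  rfl

lemma norm_sq_pol (t : Finset ℕ) (b : ℕ → ℂ) :
    Real.circleAverage (fun z => ‖pol t b z‖ ^ 2) 0 1 = ∑ n ∈ t, ‖b n‖ ^ 2 := by
  classical
  set b' : ℕ → ℂ := fun n => if n ∈ t then b n else 0 with hb'
  have h1 : pol t b = pol t b' := by
    funext z
    unfold pol
    apply Finset.sum_congr rfl
    intro n hn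
    simp [hb', hn]
  have h2 : ∀ n ∉ t, b' n = 0 := fun n hn => by simp [hb', hn]
  have hBH := BH_pol t b' h2
  have h3 := hBH.norm_identity
  set A : H2 := ⟨b', memlp_of_summable h3.1⟩ with hA
  have h4 := (hBH.norm_sq_eq A (fun n => rfl)).2
  rw [h1, ← h4, lp_norm_sq]
  have h5 : ∀ n, A n = b' n := fun n => rfl
  simp_rw [h5]
  rw [tsum_eq_sum (s := t)]
  · apply Finset.sum_congr rfl
    intro n hn
    simp [hb', hn]
  · intro n hn
    rw [h2 n hn]
    simp

theorem exists_comp (h : Hyp c a ω₁ ω₂) (hs : s ≠ 0) (h1 : κ ^ 2 + s ^ 2 = 1)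
    (hr : ω₁ = ω₂ * (κ + s * Complex.I) ^ 2) (hq1 : qq a ω₁ < 1) :
    ∃ C : H2 →L[ℂ] H2, ∀ (A : H2) (z : ℂ), ‖z‖ < 1 →
      ∑' n, (C A) n * z ^ n = ∑' n, A n * (mob c a z) ^ n := by
  have hκ : κ ^ 2 < 1 := by
    have : 0 < s ^ 2 := by positivity
    linarith
  choose E hE using fun n => exists_powers (c := c) (a := a) h.hc h.ha n
  obtain ⟨K, hK⟩ : ∃ K : ℝ, K = (1 + |κ|) / (1 - |κ|) / qq a ω₁ := ⟨_, rfl⟩
  have hK0 : 0 ≤ K := by
    rw [hK]
    have := abs_lt_one' hκ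
    have h2 : 0 < 1 - |κ| := by linarith
    have := h.qq_pos
    have := abs_nonneg κ
    positivity
  -- the basic estimate
  have hfin : ∀ (t : Finset ℕ) (b : ℕ → ℂ), ‖∑ n ∈ t, b n • E n‖ ^ 2 ≤ K * ∑ n ∈ t, ‖b n‖ ^ 2 := by
    intro t b
    have hBH : BH (fun z => pol t b (mob c a z)) (fun k => ∑ n ∈ t, b n * E n k) := by
      refine ⟨fun z hz => ?_, ⟨∑ n ∈ t, ‖b n‖, fun z hz => pol_bound t b (mob_lt h.hc h.ha hz).le⟩,
        lim_pol_mob c h.ha t b⟩
      have h2 : HasSum (fun k => ∑ n ∈ t, b n * (E n k * z ^ k)) (∑ n ∈ t, b n * mob c a z ^ n) :=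
        hasSum_sum fun n _ => ((hE n).hs z hz).mul_left (b n)
      unfold pol
      refine h2.congr_fun ?_ |> fun h => h
      intro k
      rw [Finset.sum_mul]
      apply Finset.sum_congr rfl
      intro n _
      ring
    have e1 := (hBH.norm_sq_eq (∑ n ∈ t, b n • E n) (fun k => sum_apply_H2 t b E k)).2
    rw [e1, ← norm_sq_pol, circleAverage_eq_line ω₂ h.h2 κ s hs h1, circleAverage_eq_line ω₂ h.h2 κ s hs h1]
    simp_rw [mob_ZZ h hs h1 hr]
    set F : ℝ → ℝ := fun x => ‖pol t b (ZZ ω₂ κ s x)‖ with hF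
    have hFc : Continuous F := ((continuous_pol t b).comp (continuous_ZZ ω₂ hs)).norm
    have hFb : ∀ x, |F x| ≤ ∑ n ∈ t, ‖b n‖ := by
      intro x
      rw [abs_of_nonneg (norm_nonneg _)]
      exact pol_bound t b (ZZ_norm h.h2 hs x).le
    have hcr := crude hκ h.qq_pos hq1 hFc hFb
    have hpos : 0 < |s| / Real.pi := div_pos (abs_pos.2 hs) Real.pi_pos
    have e3 : ∫ x : ℝ, (1 / gg κ x) • (‖pol t b (ZZ ω₂ κ s (x * qq a ω₁))‖ ^ 2) =
        ∫ x : ℝ, F (x * qq a ω₁) ^ 2 * (1 / gg κ x) := by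
      congr 1
      funext x
      simp only [hF, smul_eq_mul]
      ring
    have e4 : ∫ x : ℝ, (1 / gg κ x) • (‖pol t b (ZZ ω₂ κ s x)‖ ^ 2) =
        ∫ x : ℝ, F x ^ 2 * (1 / gg κ x) := by
      congr 1
      funext x
      simp only [hF, smul_eq_mul]
      ring
    rw [e3, e4, smul_eq_mul, smul_eq_mul]
    rw [← hK] at hcr
    calc |s| / Real.pi * ∫ x : ℝ, F (x * qq a ω₁) ^ 2 * (1 / gg κ x)
        ≤ |s| / Real.pi * (K * ∫ x : ℝ, F x ^ 2 * (1 / gg κ x)) :=
          mul_le_mul_of_nonneg_left hcr hpos.le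
      _ = _ := by ring
  -- summability
  have hsq : ∀ A : H2, Summable (fun n => ‖A n‖ ^ 2) := by
    intro A
    have := (lp.memℓp A).summable (by norm_num)
    simpa using this
  have hsum : ∀ A : H2, Summable (fun n => A n • E n) := by
    intro A
    rw [summable_iff_vanishing_norm]
    intro ε hε
    have h2 := (summable_iff_vanishing_norm.1 (hsq A)) (ε ^ 2 / (K + 1)) (by positivity)
    obtain ⟨S, hS⟩ := h2
    refine ⟨S, fun t ht => ?_⟩
    have h3 := hS t ht
    rw [Real.norm_of_nonneg (Finset.sum_nonneg fun _ _ => by positivity)] at h3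
    have h4 := hfin t A
    have h5 : ‖∑ n ∈ t, A n • E n‖ ^ 2 < ε ^ 2 := by
      rw [lt_div_iff₀ (by positivity)] at h3
      have h6 : 0 ≤ ∑ n ∈ t, ‖A n‖ ^ 2 := Finset.sum_nonneg fun _ _ => by positivity
      nlinarith
    exact lt_of_pow_lt_pow_left₀ 2 hε.le h5
  -- the operator
  let L : H2 →ₗ[ℂ] H2 :=
    { toFun := fun A => ∑' n, A n • E n
      map_add' := by
        intro A B
        rw [← (hsum A).tsum_add (hsum B)]
        congr 1
        funext n
        rw [lp_add, add_smul]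
      map_smul' := by
        intro r A
        rw [RingHom.id_apply, ← (hsum A).tsum_const_smul]
        congr 1
        funext n
        rw [lp_smul, mul_smul] }
  have hL : ∀ A : H2, ‖L A‖ ≤ Real.sqrt K * ‖A‖ := by
    intro A
    have h2 : ‖L A‖ ^ 2 ≤ K * ‖A‖ ^ 2 := by
      have h3 : Tendsto (fun t : Finset ℕ => ‖∑ n ∈ t, A n • E n‖ ^ 2) atTop (𝓝 (‖L A‖ ^ 2)) :=
        ((hsum A).hasSum.norm).pow 2
      refine le_of_tendsto h3 (Eventually.of_forall fun t => ?_)
      refine (hfin t A).trans (mul_le_mul_of_nonneg_left ?_ hK0)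
      rw [lp_norm_sq]
      exact (hsq A).sum_le_tsum t (fun _ _ => by positivity)
    have h4 : ‖L A‖ ^ 2 ≤ (Real.sqrt K * ‖A‖) ^ 2 := by
      rw [mul_pow, Real.sq_sqrt hK0]
      exact h2
    exact le_of_sq_le_sq h4 (by positivity)
  refine ⟨L.mkContinuous (Real.sqrt K) hL, fun A z hz => ?_⟩
  -- evaluation at `z` as a continuous functional
  have hkz : Memℓp (fun n => (starRingEnd ℂ) z ^ n) 2 := by
    apply memlp_of_summable
    have h2 : Summable (fun n : ℕ => (‖z‖ ^ 2) ^ n) :=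
      summable_geometric_of_lt_one (by positivity) (by nlinarith [norm_nonneg z])
    refine h2.congr fun n => ?_
    rw [norm_pow, RCLike.norm_conj]
    ring
  set kz : H2 := ⟨fun n => (starRingEnd ℂ) z ^ n, hkz⟩ with hkzdef
  have hev : ∀ B : H2, inner ℂ kz B = ∑' n, B n * z ^ n := by
    intro B
    rw [lp.inner_eq_tsum]
    congr 1
    funext n
    rw [RCLike.inner_apply]
    have : kz n = (starRingEnd ℂ) z ^ n := rfl
    rw [this, map_pow, Complex.conj_conj]
  have h3 : (L.mkContinuous (Real.sqrt K) hL) A = ∑' n, A n • E n := rfl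
  rw [← hev, h3]
  have h4 := (innerSL ℂ kz).map_tsum (hsum A)
  rw [innerSL_apply_apply] at h4
  rw [h4]
  congr 1
  funext n
  rw [innerSL_apply_apply, inner_smul_right, hev, ((hE n).hs z hz).tsum_eq]

end

end Pool.Agent.helper30.NR
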