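import Mathlib
import Pool.Agent.helper30.NR.Comb
import Pool.Agent.helper30.NR.Dual
import Pool.Agent.helper30.NR.Exist

set_option autoImplicit false

namespace Pool.Agent.helper30.NR

open Finset

noncomputable section

variable {c a ω₁ ω₂ : ℂ} {κ s : ℝ}

/-- square root of the ratio of consecutive weights -/
def bw (κ q x : ℝ) : ℝ := Real.sqrt (gg κ (q * x) / (q * gg κ x))

/-- values of the Jacobi forms at unit vectors -/
def JV (κ q : ℝ) : Set ℝ := {t | ∃ u : ℝ, 0 < u ∧ ∃ (N : ℕ) (y : ℕ → ℝ),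
  ∑ n ∈ range (N + 1), y n ^ 2 = 1 ∧ t = ∑ n ∈ range N, bw κ q (u * q ^ n) * y n * y (n + 1)}

lemma conv_num {q u : ℝ} (hκ : κ ^ 2 < 1) (hq : 0 < q) (N : ℕ) (y : ℕ → ℝ) :
    num κ q u N (fun n => y n / Real.sqrt (q ^ n / gg κ (u * q ^ n))) =
      ∑ n ∈ range N, bw κ q (u * q ^ n) * y n * y (n + 1) := by
  unfold num
  apply sum_congr rfl
  intro n _
  have h1 := gg_pos' hκ (u * q ^ n)
  have h2 := gg_pos' hκ (u * q ^ (n + 1))
  have e1 : q * (u * q ^ n) = u * q ^ (n + 1) := by rw [pow_succ]; ring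
  have e3 : q ^ (n + 1) = q ^ n * q := pow_succ q n
  unfold bw
  rw [e1]
  beta_reduce
  generalize gg κ (u * q ^ (n + 1)) = g2 at *
  generalize gg κ (u * q ^ n) = g1 at *
  rw [e3]
  have hqn : 0 < q ^ n := pow_pos hq n
  generalize q ^ n = Q at *
  have s1 : 0 < Real.sqrt (Q / g1) := Real.sqrt_pos.2 (by positivity)
  have s2 : 0 < Real.sqrt (Q * q / g2) := Real.sqrt_pos.2 (by positivity)
  have e4 : Real.sqrt (g2 / (q * g1)) = Real.sqrt (Q / g1) / Real.sqrt (Q * q / g2) := by
    rw [← Real.sqrt_div (by positivity)]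
    congr 1
    field_simp
  have e5 : Real.sqrt (Q / g1) ^ 2 = Q / g1 := Real.sq_sqrt (by positivity)
  rw [e4]
  calc y n / Real.sqrt (Q / g1) * (y (n + 1) / Real.sqrt (Q * q / g2)) * (Q / g1) =
      y n / Real.sqrt (Q / g1) * (y (n + 1) / Real.sqrt (Q * q / g2)) * Real.sqrt (Q / g1) ^ 2 := by rw [e5]
    _ = _ := by field_simp

lemma conv_den {q u : ℝ} (hκ : κ ^ 2 < 1) (hq : 0 < q) (N : ℕ) (y : ℕ → ℝ) :
    den κ q u N (fun n => y n / Real.sqrt (q ^ n / gg κ (u * q ^ n))) =
      ∑ n ∈ range (N + 1), y n ^ 2 := by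
  unfold den
  apply sum_congr rfl
  intro n _
  have h1 := gg_pos' hκ (u * q ^ n)
  rw [div_pow, Real.sq_sqrt (by positivity)]
  generalize gg κ (u * q ^ n) = g1 at *
  field_simp

lemma den_pos_or {q u : ℝ} (hκ : κ ^ 2 < 1) (hq : 0 < q) (N : ℕ) (x : ℕ → ℝ) :
    0 < den κ q u N x ∨ ∀ n ≤ N, x n = 0 := by
  by_cases h : ∀ n ≤ N, x n = 0
  · exact Or.inr h
  · left
    push Not at h
    obtain ⟨n, hn, hx⟩ := h
    unfold den
    apply sum_pos' 
    · intro m _
      have := gg_pos' hκ (u * q ^ m)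
      positivity
    · refine ⟨n, mem_range.2 (by omega), ?_⟩
      have := gg_pos' hκ (u * q ^ n)
      have := sq_pos_of_ne_zero hx
      positivity

lemma num_zero {q u : ℝ} (N : ℕ) (x : ℕ → ℝ) (h : ∀ n ≤ N, x n = 0) : num κ q u N x = 0 := by
  unfold num
  apply sum_eq_zero
  intro n hn
  rw [h n (by have := mem_range.1 hn; omega)]
  simp

/-- values of the Jacobi forms and the quotients -/
theorem JV_bound_iff {q lam : ℝ} (hκ : κ ^ 2 < 1) (hq : 0 < q) :
    (∀ t ∈ JV κ q, t ≤ lam) ↔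
      ∀ u > 0, ∀ N x, num κ q u N x ≤ lam * den κ q u N x := by
  constructor
  · intro h u hu N x
    rcases den_pos_or (u := u) hκ hq N x with hd | hz
    · set r := Real.sqrt (den κ q u N x) with hr
      have hr0 : 0 < r := Real.sqrt_pos.2 hd
      have hr2 : r ^ 2 = den κ q u N x := Real.sq_sqrt hd.le
      set y : ℕ → ℝ := fun n => x n / r * Real.sqrt (q ^ n / gg κ (u * q ^ n)) with hy
      have hxy : (fun n => y n / Real.sqrt (q ^ n / gg κ (u * q ^ n))) = fun n => x n / r := by
        funext n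
        have := gg_pos' hκ (u * q ^ n)
        have : 0 < Real.sqrt (q ^ n / gg κ (u * q ^ n)) := Real.sqrt_pos.2 (by positivity)
        simp only [hy]
        generalize Real.sqrt (q ^ n / gg κ (u * q ^ n)) = R at *
        field_simp
      have h1 := conv_num (u := u) hκ hq N y
      have h2 := conv_den (u := u) hκ hq N y
      rw [hxy] at h1 h2
      have h3 : num κ q u N (fun n => x n / r) = num κ q u N x / r ^ 2 := by
        unfold num
        rw [sum_div]
        apply sum_congr rfl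
        intro n _
        field_simp
      have h4 : den κ q u N (fun n => x n / r) = den κ q u N x / r ^ 2 := by
        unfold den
        rw [sum_div]
        apply sum_congr rfl
        intro n _
        field_simp
      have h5 := h (num κ q u N x / r ^ 2) ⟨u, hu, N, y, by
        rw [← h2, h4, hr2, div_self hd.ne'], by rw [← h1, h3]⟩
      rw [hr2, div_le_iff₀ hd] at h5
      exact h5
    · rw [num_zero N x hz]
      have : den κ q u N x = 0 := by
        unfold den
        apply sum_eq_zero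
        intro n hn
        rw [hz n (by have := mem_range.1 hn; omega)]
        simp
      rw [this]
      simp
  · rintro h t ⟨u, hu, N, y, hy, rfl⟩
    have h1 := h u hu N (fun n => y n / Real.sqrt (q ^ n / gg κ (u * q ^ n)))
    rw [conv_num hκ hq, conv_den hκ hq, hy, mul_one] at h1
    exact h1

/-- duality in normalised form -/
theorem dual_iff' {q lam : ℝ} (hκ : κ ^ 2 < 1) (hq : 0 < q) (hlam : 0 < lam) :
    (∀ u > 0, ∀ N x, num κ q u N x ≤ lam * den κ q u N x) ↔
    ∃ E : ℝ → ℝ, (∀ x > 0, 0 < E x) ∧ ∀ x > 0, (E (q * x) + bw κ q x ^ 2 / E x) / 2 ≤ lam := by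
  rw [dual_iff hκ hq hlam]
  have hb : ∀ x, bw κ q x ^ 2 = gg κ (q * x) / (q * gg κ x) := by
    intro x
    have h1 := gg_pos' hκ x
    have h2 := gg_pos' hκ (q * x)
    exact Real.sq_sqrt (by positivity)
  constructor
  · rintro ⟨D, hD, h⟩
    refine ⟨fun x => lam * D x, fun x hx => mul_pos hlam (hD x hx), fun x hx => ?_⟩
    have h1 := h x hx
    have h2 := gg_pos' hκ x
    have h3 := hD x hx
    have e : (lam * D (q * x) + bw κ q x ^ 2 / (lam * D x)) / 2 =
        lam / 2 * (D (q * x) + gg κ (q * x) / (q * lam ^ 2 * gg κ x * D x)) := by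
      rw [hb]
      field_simp
    show (lam * D (q * x) + bw κ q x ^ 2 / (lam * D x)) / 2 ≤ lam
    rw [e]
    have h4 := mul_le_mul_of_nonneg_left h1 (by positivity : 0 ≤ lam / 2)
    linarith
  · rintro ⟨E, hE, h⟩
    refine ⟨fun x => E x / lam, fun x hx => div_pos (hE x hx) hlam, fun x hx => ?_⟩
    have h1 := h x hx
    have h2 := gg_pos' hκ x
    have h3 := hE x hx
    have e : E (q * x) / lam + gg κ (q * x) / (q * lam ^ 2 * gg κ x * (E x / lam)) =
        2 / lam * ((E (q * x) + bw κ q x ^ 2 / E x) / 2) := by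
      rw [hb]
      field_simp
    show E (q * x) / lam + gg κ (q * x) / (q * lam ^ 2 * gg κ x * (E x / lam)) ≤ 2
    rw [e]
    have h4 := mul_le_mul_of_nonneg_left h1 (by positivity : 0 ≤ 2 / lam)
    have h5 : 2 / lam * lam = 2 := by field_simp
    linarith

end

end Pool.Agent.helper30.NR
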