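import Mathlib
import Pool.Agent.helper30.NR.Final1

set_option autoImplicit false

namespace Pool.Agent.helper30.NR

open Finset

noncomputable section

variable {c a ω₁ ω₂ : ℂ} {κ s : ℝ}

lemma Hyp.swap (h : Hyp c a ω₁ ω₂) : Hyp c a ω₂ ω₁ :=
  ⟨h.hc, h.ha, h.h2, h.h1, h.hne.symm, h.f2, h.f1⟩

lemma Hyp.qq_mul (h : Hyp c a ω₁ ω₂) : qq a ω₁ * qq a ω₂ = 1 := by
  have hd := den_ne h.ha h.h1.le
  have hd' : 0 < ‖1 - (starRingEnd ℂ) a * ω₁‖ := norm_pos_iff.2 hd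
  have h2 : 0 < 1 - ‖a‖ ^ 2 := by nlinarith [norm_nonneg a, h.ha]
  have e : qq a ω₂ = (1 - ‖a‖ ^ 2) / (qq a ω₁ * ‖1 - (starRingEnd ℂ) a * ω₁‖) ^ 2 := by
    have h3 : ‖1 - (starRingEnd ℂ) a * ω₂‖ = qq a ω₁ * ‖1 - (starRingEnd ℂ) a * ω₁‖ := by
      rw [h.ratio, norm_mul, Complex.norm_real, Real.norm_of_nonneg h.qq_pos.le]
    rw [← h3]
    rfl
  have e2 : 1 - ‖a‖ ^ 2 = qq a ω₁ * ‖1 - (starRingEnd ℂ) a * ω₁‖ ^ 2 := by
    unfold qq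
    field_simp
  rw [e, e2]
  have := h.qq_pos
  generalize qq a ω₁ = Q at *
  field_simp

/-- the distance identity -/
lemma Hyp.dist_eq (h : Hyp c a ω₁ ω₂) (hq1 : qq a ω₁ ≤ 1) :
    ‖a‖ * ‖ω₁ - ω₂‖ / Real.sqrt (1 - ‖a‖ ^ 2) =
      1 / Real.sqrt (qq a ω₁) - Real.sqrt (qq a ω₁) := by
  have hd := den_ne h.ha h.h1.le
  have hd' : 0 < ‖1 - (starRingEnd ℂ) a * ω₁‖ := norm_pos_iff.2 hd
  have h2 : 0 < 1 - ‖a‖ ^ 2 := by nlinarith [norm_nonneg a, h.ha]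
  have h3 : ‖a‖ * ‖ω₁ - ω₂‖ = (1 - qq a ω₁) * ‖1 - (starRingEnd ℂ) a * ω₁‖ := by
    have h4 : (starRingEnd ℂ) a * (ω₁ - ω₂) = -(((1 - qq a ω₁ : ℝ) : ℂ) * (1 - (starRingEnd ℂ) a * ω₁)) := by
      have := h.ratio
      push_cast
      linear_combination this
    have h5 := congrArg norm h4
    rw [norm_neg, norm_mul, norm_mul, RCLike.norm_conj, Complex.norm_real,
      Real.norm_of_nonneg (by linarith)] at h5
    exact h5
  have h6 : Real.sqrt (1 - ‖a‖ ^ 2) = Real.sqrt (qq a ω₁) * ‖1 - (starRingEnd ℂ) a * ω₁‖ := by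
    have : 1 - ‖a‖ ^ 2 = qq a ω₁ * ‖1 - (starRingEnd ℂ) a * ω₁‖ ^ 2 := by
      unfold qq
      field_simp
    rw [this, Real.sqrt_mul h.qq_pos.le, Real.sqrt_sq hd'.le]
  have h7 : 0 < Real.sqrt (qq a ω₁) := Real.sqrt_pos.2 h.qq_pos
  have h8 : Real.sqrt (qq a ω₁) ^ 2 = qq a ω₁ := Real.sq_sqrt h.qq_pos.le
  rw [h3, h6]
  field_simp
  rw [h8]

/-- the spectral radius, from `|φ(0)|` and the distance of the fixed points -/
def LL (r d : ℝ) : ℝ := (r * d / Real.sqrt (1 - r ^ 2) + Real.sqrt ((r * d / Real.sqrt (1 - r ^ 2)) ^ 2 + 4)) / 2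

lemma Hyp.LL_eq (h : Hyp c a ω₁ ω₂) (hq1 : qq a ω₁ ≤ 1) :
    LL ‖a‖ ‖ω₁ - ω₂‖ = 1 / Real.sqrt (qq a ω₁) := by
  unfold LL
  rw [h.dist_eq hq1]
  have h7 : 0 < Real.sqrt (qq a ω₁) := Real.sqrt_pos.2 h.qq_pos
  have e : (1 / Real.sqrt (qq a ω₁) - Real.sqrt (qq a ω₁)) ^ 2 + 4 =
      (1 / Real.sqrt (qq a ω₁) + Real.sqrt (qq a ω₁)) ^ 2 := by
    field_simp
    ring
  rw [e, Real.sqrt_sq (by positivity)]
  ring

lemma Hyp.qq_eq (h : Hyp c a ω₁ ω₂) (hq1 : qq a ω₁ ≤ 1) :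
    1 / LL ‖a‖ ‖ω₁ - ω₂‖ ^ 2 = qq a ω₁ := by
  rw [h.LL_eq hq1, div_pow, Real.sq_sqrt h.qq_pos.le]
  simp

lemma Hyp.ne_one (h : Hyp c a ω₁ ω₂) (ha0 : a ≠ 0) : qq a ω₁ ≠ 1 := by
  intro hq
  have h1 := h.dist_eq hq.le
  rw [hq] at h1
  have h2 : 0 < 1 - ‖a‖ ^ 2 := by nlinarith [norm_nonneg a, h.ha]
  have h3 : 0 < ‖a‖ * ‖ω₁ - ω₂‖ / Real.sqrt (1 - ‖a‖ ^ 2) := by
    have := norm_pos_iff.2 ha0
    have := norm_pos_iff.2 (sub_ne_zero.2 h.hne)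
    have := Real.sqrt_pos.2 h2
    positivity
  rw [h1] at h3
  simp at h3

/-- an element of `H²` is determined by its values -/
lemma coeff_unique {A B : H2} (h : ∀ z : ℂ, ‖z‖ < 1 → ∑' n, A n * z ^ n = ∑' n, B n * z ^ n) : A = B := by
  have hBH : BH (fun _ => 0) (A - B : H2) := by
    refine ⟨fun z hz => ?_, ⟨0, fun z _ => by simp⟩, ?_⟩
    · have h1 := (hasSum_H2 A hz).sub (hasSum_H2 B hz)
      rw [h z hz, sub_self] at h1
      have e : (fun n => (A - B : H2) n * z ^ n) = fun n => A n * z ^ n - B n * z ^ n := by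
        funext n
        rw [lp_sub]
        ring
      rw [e]
      exact h1
    · exact Filter.Eventually.of_forall fun θ => tendsto_const_nhds
  have h2 := (hBH.norm_sq_eq (A - B) (fun n => rfl)).2
  have h3 : Real.circleAverage (fun _ : ℂ => ‖(0:ℂ)‖ ^ 2) 0 1 = 0 := by
    simp [Real.circleAverage]
  rw [h3] at h2
  have h4 : ‖A - B‖ = 0 := by nlinarith [norm_nonneg (A - B)]
  exact sub_eq_zero.1 (norm_eq_zero.1 h4)

lemma mob_zero_norm (hc : ‖c‖ = 1) : ‖mob c a 0‖ = ‖a‖ := by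
  unfold mob
  simp [hc]

/-- the moduli of the values of the form on the unit sphere -/
def absRange (C : H2 →L[ℂ] H2) : Set ℝ := {r | ∃ A : H2, ‖A‖ = 1 ∧ r = ‖inner ℂ A (C A)‖}

lemma absRange_nonempty (C : H2 →L[ℂ] H2) : (absRange C).Nonempty := by
  refine ⟨_, lp.single 2 0 (1:ℂ), ?_, rfl⟩
  rw [lp.norm_single (by norm_num)]
  simp

lemma absRange_bdd (C : H2 →L[ℂ] H2) : BddAbove (absRange C) := by
  refine ⟨‖C‖, ?_⟩
  rintro r ⟨A, hA, rfl⟩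
  calc ‖inner ℂ A (C A)‖ ≤ ‖A‖ * ‖C A‖ := norm_inner_le_norm _ _
    _ ≤ ‖A‖ * (‖C‖ * ‖A‖) := mul_le_mul_of_nonneg_left (C.le_opNorm A) (norm_nonneg _)
    _ = ‖C‖ := by rw [hA]; ring

lemma absRange_le_iff (C : H2 →L[ℂ] H2) (lam : ℝ) :
    (∀ r ∈ absRange C, r ≤ lam) ↔ ∀ A : H2, ‖inner ℂ A (C A)‖ ≤ lam * ‖A‖ ^ 2 := by
  constructor
  · intro h A
    by_cases hA : A = 0
    · rw [hA]; simp
    · have hA' : 0 < ‖A‖ := norm_pos_iff.2 hA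
      have h1 := h _ ⟨((‖A‖⁻¹ : ℝ) : ℂ) • A, by
        rw [norm_smul, Complex.norm_real, Real.norm_of_nonneg (by positivity)]
        field_simp, rfl⟩
      rw [map_smul, inner_smul_left, inner_smul_right, norm_mul, norm_mul, RCLike.norm_conj,
        Complex.norm_real, Real.norm_of_nonneg (by positivity)] at h1
      have h2 := mul_le_mul_of_nonneg_right h1 (by positivity : 0 ≤ ‖A‖ ^ 2)
      calc ‖inner ℂ A (C A)‖ = ‖A‖⁻¹ * (‖A‖⁻¹ * ‖inner ℂ A (C A)‖) * ‖A‖ ^ 2 := by field_simp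
        _ ≤ _ := h2
  · rintro h r ⟨A, hA, rfl⟩
    have := h A
    rw [hA] at this
    simpa using this

theorem final_core (h : Hyp c a ω₁ ω₂) (hq1 : qq a ω₁ < 1) {C : H2 →L[ℂ] H2}
    (hC : ∀ (A : H2) (z : ℂ), ‖z‖ < 1 → ∑' n, (C A) n * z ^ n = ∑' n, A n * (mob c a z) ^ n)
    {κ q w : ℝ} (hκ : κ = ‖ω₁ + ω₂‖ / 2) (hqq : q = qq a ω₁) (hw : w = sSup (absRange C)) :
    0 < q ∧ 0 ≤ κ ∧ κ ^ 2 < 1 ∧ IsLUB (absRange C) w ∧ IsLUB (JV κ q) w ∧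
    (∀ lam : ℝ, w ≤ lam ↔ ∃ E : ℝ → ℝ, (∀ x > 0, 0 < E x) ∧
      ∀ x > 0, (E (q * x) + bw κ q x ^ 2 / E x) / 2 ≤ lam) ∧
    1 / Real.sqrt q ≤ w ∧ (2 * κ ^ 2 ≤ 1 - q → w = 1 / Real.sqrt q) ∧
    (1 < 2 * κ ^ 2 → 1 / Real.sqrt q < w) := by
  obtain ⟨κ', s, hκ0, hs, h1, hr, hκ'⟩ := exists_root h.h1 h.h2 h.hne
  obtain rfl : κ' = κ := by rw [hκ', hκ]
  subst hqq
  have hq := h.qq_pos
  have hκlt : κ' ^ 2 < 1 := by
    have := pow_pos (abs_pos.2 hs) 2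
    rw [sq_abs] at this
    linarith
  have hsq : 0 < Real.sqrt (qq a ω₁) := Real.sqrt_pos.2 hq
  have hlub : IsLUB (absRange C) w := by
    rw [hw]
    exact isLUB_csSup (absRange_nonempty C) (absRange_bdd C)
  have key : ∀ lam : ℝ, w ≤ lam ↔ ∀ u > 0, ∀ N x, num κ' (qq a ω₁) u N x ≤ lam * den κ' (qq a ω₁) u N x := by
    intro lam
    rw [← bound_iff hC h hκ0 hs h1 hr hq1 lam, ← absRange_le_iff, isLUB_le_iff hlub]
    rfl
  have hlow : 1 ≤ Real.sqrt (qq a ω₁) * w := le_of_bound hκlt hq ((key w).1 le_rfl)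
  have hlow' : 1 / Real.sqrt (qq a ω₁) ≤ w := by
    rw [div_le_iff₀ hsq]
    linarith
  have hwpos : 0 < w := lt_of_lt_of_le (by positivity) hlow'
  refine ⟨hq, hκ0, hκlt, hlub, ?_, ?_, hlow', ?_, ?_⟩
  · rw [isLUB_iff_le_iff]
    intro lam
    rw [key, ← JV_bound_iff hκlt hq]
    rfl
  · intro lam
    constructor
    · intro hl
      exact (dual_iff' hκlt hq (lt_of_lt_of_le hwpos hl)).1 ((key lam).1 hl)
    · rintro ⟨E, hE, hE2⟩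
      have hlam : 0 < lam := by
        have h2 := hE2 1 one_pos
        have h3 := hE 1 one_pos
        have h4 := hE (qq a ω₁ * 1) (by linarith)
        have h5 : 0 ≤ bw κ' (qq a ω₁) 1 ^ 2 / E 1 := by positivity
        linarith
      exact (key lam).2 ((dual_iff' hκlt hq hlam).2 ⟨E, hE, hE2⟩)
  · intro hreg
    apply le_antisymm _ hlow'
    rw [key]
    intro u hu N x
    have h2 := num_le_den_region (κ := κ') (u := u) hq hq1 hreg N x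
    rw [one_div, inv_mul_eq_div, le_div_iff₀ hsq]
    linarith
  · intro h2
    obtain ⟨u, hu, N, x, hd, hlt⟩ := exists_strict hκ0 hκlt (by linarith : 1 / 2 < κ' ^ 2) hq hq1
    have h3 := (key w).1 le_rfl u hu N x
    rw [div_lt_iff₀ hsq]
    by_contra hcon
    push Not at hcon
    have h4 := mul_le_mul_of_nonneg_left h3 hsq.le
    have h5 := mul_le_mul_of_nonneg_right hcon hd.le
    nlinarith

end

end Pool.Agent.helper30.NR
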